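import Pool.Agent.W_cd67d3_h45.Defs

/-!
# A holomorphic function which is constant on an arc of the circle is constant
-/

namespace Pool.Agent.W_cd67d3_h45

open Metric Set Filter Topology

/-- The `k`-th power of the root of unity `exp (2 π I / N)`. -/
noncomputable def ArcConst_w (N k : ℕ) : ℂ := Complex.exp ((2 * Real.pi * k / N : ℝ) * Complex.I)

theorem ArcConst_norm (N k : ℕ) : ‖ArcConst_w N k‖ = 1 := Complex.norm_exp_ofReal_mul_I _

theorem ArcConst_ball (N k : ℕ) {z : ℂ} (hz : z ∈ ball (0 : ℂ) 1) :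
    ArcConst_w N k * z ∈ ball (0 : ℂ) 1 := by
  rw [mem_ball_zero_iff] at hz ⊢
  rw [norm_mul, ArcConst_norm, one_mul]
  exact hz

theorem ArcConst_closedBall (N k : ℕ) {z : ℂ} (hz : z ∈ closedBall (0 : ℂ) 1) :
    ArcConst_w N k * z ∈ closedBall (0 : ℂ) 1 := by
  rw [mem_closedBall_zero_iff] at hz ⊢
  rw [norm_mul, ArcConst_norm, one_mul]
  exact hz

/-- One of the rotated points is in the arc. -/
theorem ArcConst_net {N : ℕ} (hN : 0 < N) {α ε : ℝ} (hε : 2 * Real.pi / N < ε) {z : ℂ}
    (hz : ‖z‖ = 1) :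
    ∃ k < N, ∃ t : ℝ, |t - α| < ε ∧ Complex.exp (t * Complex.I) = ArcConst_w N k * z := by
  have hpi := Real.pi_pos
  have hN' : (0 : ℝ) < N := by exact_mod_cast hN
  obtain ⟨θ, hθ⟩ : ∃ θ : ℝ, z = Complex.exp (θ * Complex.I) := by
    refine ⟨z.arg, ?_⟩
    have h1 := Complex.norm_mul_exp_arg_mul_I z
    rw [hz, Complex.ofReal_one, one_mul] at h1
    exact h1.symm
  set x : ℝ := (α - θ) * N / (2 * Real.pi) with hx
  set j : ℤ := ⌊x⌋ with hj
  have hj1 : (j : ℝ) ≤ x := Int.floor_le x
  have hj2 : x < j + 1 := Int.lt_floor_add_one x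
  have hNz : (0 : ℤ) < (N : ℤ) := by exact_mod_cast hN
  have hm1 : 0 ≤ j % (N : ℤ) := Int.emod_nonneg _ hNz.ne'
  have hm2 : j % (N : ℤ) < N := Int.emod_lt_of_pos _ hNz
  obtain ⟨k, hk⟩ := Int.eq_ofNat_of_zero_le hm1
  have hkN : k < N := by
    rw [hk] at hm2
    exact_mod_cast hm2
  refine ⟨k, hkN, θ + 2 * Real.pi * j / N, ?_, ?_⟩
  · have h1 : θ + 2 * Real.pi * j / N - α = 2 * Real.pi / N * (j - x) := by
      rw [hx]
      field_simp
      ring
    rw [h1, abs_mul, abs_of_pos (by positivity : (0 : ℝ) < 2 * Real.pi / N)]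
    have h2 : |(j : ℝ) - x| ≤ 1 := by
      rw [abs_le]
      constructor <;> linarith
    calc 2 * Real.pi / N * |(j : ℝ) - x| ≤ 2 * Real.pi / N * 1 :=
          mul_le_mul_of_nonneg_left h2 (by positivity)
      _ < ε := by rw [mul_one]; exact hε
  · have h3 : j = k + (N : ℤ) * (j / (N : ℤ)) := by
      have h4 := Int.emod_add_mul_ediv j (N : ℤ)
      rw [hk] at h4
      exact h4.symm
    have h4 : (j : ℝ) = k + N * ((j / (N : ℤ) : ℤ) : ℝ) := by
      have h5 := congrArg (fun i : ℤ => (i : ℝ)) h3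
      push_cast at h5
      exact h5
    have h5 : ((θ + 2 * Real.pi * j / N : ℝ) : ℂ) * Complex.I =
        ((2 * Real.pi * k / N : ℝ) * Complex.I + θ * Complex.I) +
          ((j / (N : ℤ) : ℤ) : ℂ) * (2 * Real.pi * Complex.I) := by
      have h6 : θ + 2 * Real.pi * j / N = 2 * Real.pi * k / N + θ +
          ((j / (N : ℤ) : ℤ) : ℝ) * (2 * Real.pi) := by
        rw [h4]
        field_simp
        ring
      rw [h6]
      push_cast
      ring
    rw [h5, Complex.exp_add, Complex.exp_int_mul_two_pi_mul_I, mul_one, Complex.exp_add, hθ]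
    rfl

/-- Proof. Let `n` be a positive integer with `2 π / n < ε` and
`P z = ∏ k ∈ range n, (g (exp (2 π I k / n) * z) - c)`, continuous on the closed ball and holomorphic in
the ball. For each `z` of the unit circle one of the points `exp (2 π I k / n) * z` is
`exp (t I)` with `|t - α| < ε` (the arguments of these points form a net of mesh `2 π / n`), so
`P = 0` on the circle, hence on the closed ball (maximum principle,
`Complex.norm_le_of_forall_mem_frontier_norm_le`, or `Complex.eqOn_closure_of_eqOn_frontier`). A product of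
analytic functions on a preconnected open set which vanishes identically has a factor which vanishes
identically (identity theorem; for instance choose a sequence of distinct points tending to `0`: one factor
vanishes at infinitely many of them). So `g (exp (2 π I k / n) * z) = c` for all `z` in the ball and some
`k`, and `g = c` on the ball. -/
theorem arc_const {g : ℂ → ℂ} (hg : ContinuousOn g (closedBall 0 1))
    (hd : DifferentiableOn ℂ g (ball 0 1)) {c : ℂ} {α ε : ℝ} (hε : 0 < ε)
    (hc : ∀ t : ℝ, |t - α| < ε → g (Complex.exp (t * Complex.I)) = c) :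
    ∀ z ∈ ball (0 : ℂ) 1, g z = c := by
  obtain ⟨N, hN⟩ := exists_nat_gt (2 * Real.pi / ε)
  have hpi := Real.pi_pos
  have hN' : (0 : ℝ) < N := lt_trans (by positivity) hN
  have hN0 : 0 < N := by exact_mod_cast hN'
  have hNε : 2 * Real.pi / N < ε := by
    rw [div_lt_iff₀ hε] at hN
    rw [div_lt_iff₀ hN']
    linarith
  set f : ℕ → ℂ → ℂ := fun k z => g (ArcConst_w N k * z) - c with hf
  have hfd : ∀ k, DifferentiableOn ℂ (f k) (ball 0 1) := by
    intro k
    refine DifferentiableOn.sub_const ?_ c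
    exact hd.comp (differentiableOn_id.const_mul _) fun z hz => ArcConst_ball N k hz
  have hfc : ∀ k, ContinuousOn (f k) (closedBall 0 1) := by
    intro k
    refine ContinuousOn.sub ?_ continuousOn_const
    exact hg.comp (continuousOn_id.const_mul _) fun z hz => ArcConst_closedBall N k hz
  have hcl : closure (ball (0 : ℂ) 1) = closedBall 0 1 := closure_ball 0 one_ne_zero
  have hP : DiffContOnCl ℂ (fun z => ∏ k ∈ Finset.range N, f k z) (ball 0 1) := by
    refine ⟨DifferentiableOn.fun_finsetProd fun k _ => hfd k, ?_⟩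
    rw [hcl]
    exact continuousOn_finsetProd _ fun k _ => hfc k
  have hP0 : EqOn (fun z => ∏ k ∈ Finset.range N, f k z) (fun _ => 0)
      (frontier (ball (0 : ℂ) 1)) := by
    intro z hz
    rw [frontier_ball 0 one_ne_zero, mem_sphere_zero_iff_norm] at hz
    obtain ⟨k, hk, t, ht, htz⟩ := ArcConst_net hN0 (α := α) hNε hz
    refine Finset.prod_eq_zero (Finset.mem_range.2 hk) ?_
    simp only [hf]
    rw [← htz, hc t ht, sub_self]
  have hP1 := Complex.eqOn_closure_of_eqOn_frontier isBounded_ball hP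
    (diffContOnCl_const (c := (0 : ℂ))) hP0
  have hfa : ∀ k, AnalyticOnNhd ℂ (f k) (ball 0 1) := fun k => (hfd k).analyticOnNhd isOpen_ball
  have h0 : (0 : ℂ) ∈ ball (0 : ℂ) 1 := mem_ball_self one_pos
  have hex : ∃ k, ∀ᶠ z in 𝓝 (0 : ℂ), f k z = 0 := by
    by_contra hne
    have h1 : ∀ k ∈ Finset.range N, ∀ᶠ z in 𝓝[≠] (0 : ℂ), f k z ≠ 0 := by
      intro k _
      rcases (hfa k 0 h0).eventually_eq_zero_or_eventually_ne_zero with h | h
      · exact absurd ⟨k, h⟩ hne
      · exact h
    have h2 : ∀ᶠ z in 𝓝[≠] (0 : ℂ), ∀ k ∈ Finset.range N, f k z ≠ 0 :=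
      (Finset.eventually_all _).2 h1
    have h3 : ∀ᶠ z in 𝓝[≠] (0 : ℂ), z ∈ ball (0 : ℂ) 1 :=
      mem_nhdsWithin_of_mem_nhds (isOpen_ball.mem_nhds h0)
    obtain ⟨z, hz1, hz2⟩ := (h2.and h3).exists
    have h4 := hP1 (subset_closure hz2)
    exact Finset.prod_ne_zero_iff.2 hz1 h4
  obtain ⟨k, hk⟩ := hex
  have h1 : EqOn (f k) 0 (ball 0 1) :=
    (hfa k).eqOn_zero_of_preconnected_of_eventuallyEq_zero
      (convex_ball (0 : ℂ) 1).isPreconnected h0 hk
  intro z hz
  have hw : ArcConst_w N k ≠ 0 := Complex.exp_ne_zero _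
  have h2 : (ArcConst_w N k)⁻¹ * z ∈ ball (0 : ℂ) 1 := by
    rw [mem_ball_zero_iff] at hz ⊢
    rw [norm_mul, norm_inv, ArcConst_norm, inv_one, one_mul]
    exact hz
  have h3 := h1 h2
  simp only [hf, Pi.zero_apply] at h3
  rw [← mul_assoc, mul_inv_cancel₀ hw, one_mul] at h3
  exact sub_eq_zero.1 h3

end Pool.Agent.W_cd67d3_h45
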