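import Pool.Agent.W_cd67d3_h45.Defs

/-!
# The area of the image of an injective holomorphic function
-/

namespace Pool.Agent.W_cd67d3_h45

open Metric Set Filter Topology MeasureTheory

theorem AreaA_det (c : ℂ) : (c • (1 : ℂ →L[ℝ] ℂ)).det = ‖c‖ ^ 2 := by
  have h1 : ((c • (1 : ℂ →L[ℝ] ℂ) : ℂ →L[ℝ] ℂ) : ℂ →ₗ[ℝ] ℂ) = Algebra.lmul ℝ ℂ c := by
    ext
    simp
  change LinearMap.det ((c • (1 : ℂ →L[ℝ] ℂ) : ℂ →L[ℝ] ℂ) : ℂ →ₗ[ℝ] ℂ) = ‖c‖ ^ 2
  rw [h1, ← Algebra.norm_apply, Algebra.norm_complex_apply, Complex.normSq_eq_norm_sq]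

/-- Proof. Change of variables (`lintegral_abs_det_fderiv_eq_addHaar_image`): the real derivative of
`ψ` at `z` is the multiplication by `c = deriv ψ z`, whose determinant is `‖c‖ ^ 2` (the matrix of
`w ↦ c w` in the basis `1, I` is `[[re c, -im c], [im c, re c]]`; Mathlib may have it:
`Algebra.norm_complex_apply`, `Complex.normSq`, `LinearMap.det` of `LinearMap.mulLeft`). -/
theorem area_deriv {ψ : ℂ → ℂ} (hd : DifferentiableOn ℂ ψ (ball 0 1))
    (hi : InjOn ψ (ball 0 1)) :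
    ∫⁻ z in ball (0 : ℂ) 1, ENNReal.ofReal (‖deriv ψ z‖ ^ 2) = volume (ψ '' ball 0 1) := by
  have h1 : ∀ z ∈ ball (0 : ℂ) 1,
      HasFDerivWithinAt ψ (deriv ψ z • (1 : ℂ →L[ℝ] ℂ)) (ball 0 1) z := by
    intro z hz
    have h2 : HasDerivAt ψ (deriv ψ z) z :=
      ((hd z hz).differentiableAt (isOpen_ball.mem_nhds hz)).hasDerivAt
    exact h2.complexToReal_fderiv.hasFDerivWithinAt
  rw [← lintegral_abs_det_fderiv_eq_addHaar_image volume measurableSet_ball h1 hi]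
  refine lintegral_congr fun z => ?_
  rw [AreaA_det, abs_of_nonneg (by positivity)]

end Pool.Agent.W_cd67d3_h45
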