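import Pool.Agent.W_cd67d3_h45.Defs

/-!
# A good radius: polar coordinates with centre `-1`
-/

namespace Pool.Agent.W_cd67d3_h45

open Metric Set Filter Topology MeasureTheory
open scoped ENNReal

lemma AreaB_meas {h : ℂ → ℝ≥0∞} (hm : Measurable h) :
    Measurable fun q : ℝ × ℝ => h (-1 + (q.1 : ℂ) * Complex.exp (q.2 * Complex.I)) := by
  refine hm.comp (Continuous.measurable ?_)
  fun_prop

lemma AreaB_measI {h : ℂ → ℝ≥0∞} (hm : Measurable h) :
    Measurable fun r : ℝ =>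
      ∫⁻ θ in Ioo (-Real.pi) Real.pi, h (-1 + (r : ℂ) * Complex.exp (θ * Complex.I)) :=
  (AreaB_meas hm).lintegral_prod_right'

lemma AreaB_polar {h : ℂ → ℝ≥0∞} (hm : Measurable h) :
    ∫⁻ r in Ioi (0 : ℝ), ENNReal.ofReal r *
      (∫⁻ θ in Ioo (-Real.pi) Real.pi, h (-1 + (r : ℂ) * Complex.exp (θ * Complex.I))) =
        ∫⁻ z, h z := by
  have h1 := Complex.lintegral_comp_polarCoord_symm (fun z => h (-1 + z))
  rw [lintegral_add_left_eq_self] at h1
  rw [← h1, polarCoord_target, Measure.volume_eq_prod, ← Measure.prod_restrict]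
  have h2 : ∀ q : ℝ × ℝ, ENNReal.ofReal q.1 • h (-1 + Complex.polarCoord.symm q) =
      ENNReal.ofReal q.1 * h (-1 + (q.1 : ℂ) * Complex.exp (q.2 * Complex.I)) := by
    intro q
    rw [Complex.polarCoord_symm_apply, smul_eq_mul, Complex.exp_mul_I, ← Complex.ofReal_cos,
      ← Complex.ofReal_sin]
  simp only [h2]
  rw [lintegral_prod _ (by
    refine Measurable.aemeasurable ?_
    exact (ENNReal.measurable_ofReal.comp measurable_fst).mul (AreaB_meas hm))]
  refine lintegral_congr fun r => ?_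
  refine (lintegral_const_mul _ ?_).symm
  exact (AreaB_meas hm).comp (measurable_const.prodMk measurable_id)

lemma AreaB_inv {δ : ℝ} (hδ0 : 0 < δ) (hδ1 : δ < 1) :
    ∫⁻ r in Ioo δ (√δ), (ENNReal.ofReal r)⁻¹ = ENNReal.ofReal (Real.log (1 / δ) / 2) := by
  have hs0 : 0 < √δ := Real.sqrt_pos.mpr hδ0
  have hlt : δ < √δ := Real.lt_sqrt_of_sq_lt (by nlinarith)
  have h1 : ∫⁻ r in Ioo δ (√δ), (ENNReal.ofReal r)⁻¹ = ∫⁻ r in Ioo δ (√δ), ENNReal.ofReal r⁻¹ := by
    refine setLIntegral_congr_fun measurableSet_Ioo fun r hr => ?_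
    exact (ENNReal.ofReal_inv_of_pos (hδ0.trans hr.1)).symm
  have hint : IntegrableOn (fun r : ℝ => r⁻¹) (Ioo δ (√δ)) := by
    have : IntervalIntegrable (fun r : ℝ => r⁻¹) volume δ (√δ) := by
      apply intervalIntegral.intervalIntegrable_inv
      · intro x hx
        rw [uIcc_of_le hlt.le] at hx
        exact (hδ0.trans_le hx.1).ne'
      · exact continuousOn_id
    rw [intervalIntegrable_iff_integrableOn_Ioo_of_le hlt.le] at this
    exact this
  rw [h1, ← ofReal_integral_eq_lintegral_ofReal hint]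
  · congr 1
    rw [← integral_Ioc_eq_integral_Ioo, ← intervalIntegral.integral_of_le hlt.le,
      integral_inv_of_pos hδ0 hs0, Real.log_div hs0.ne' hδ0.ne', Real.log_sqrt hδ0.le, one_div,
      Real.log_inv]
    ring
  · refine (ae_restrict_iff' measurableSet_Ioo).mpr (Eventually.of_forall fun r hr => ?_)
    exact (inv_pos.mpr (hδ0.trans hr.1)).le

/-- Proof. Polar coordinates (`Complex.lintegral_comp_polarCoord_symm`, and the translation by `-1`),
with `I r = ∫⁻ θ in Ioo (-π) π, h (-1 + r * exp (θ I))`: `∫⁻ r in Ioi 0, r * I r ≤ A` (Tonelli). If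
`r ^ 2 * I r > K := (2 / log (1 / δ)) * A` for all `r` in `Ioo δ √δ`, then `r * I r > K / r`, and
`∫ K / r dr` over `(δ, √δ)` is `K * log (√δ / δ) = K * log (1 / δ) / 2 = A`, so
`∫⁻ r * I r > A` (strict inequality of functions on a set of positive measure, finite integral):
contradiction. -/
theorem good_radius {h : ℂ → ℝ≥0∞} (hm : Measurable h) {A : ℝ≥0∞} (hA : A ≠ ⊤)
    (hh : ∫⁻ z, h z ≤ A) {δ : ℝ} (hδ0 : 0 < δ) (hδ1 : δ < 1) :
    ∃ r ∈ Ioo δ (√δ), ENNReal.ofReal (r ^ 2) *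
      ∫⁻ θ in Ioo (-Real.pi) Real.pi, h (-1 + r * Complex.exp (θ * Complex.I)) ≤
        ENNReal.ofReal (2 / Real.log (1 / δ)) * A := by
  by_contra hcon
  push Not at hcon
  have hlt : δ < √δ := Real.lt_sqrt_of_sq_lt (by nlinarith)
  have hlog : 0 < Real.log (1 / δ) := Real.log_pos (by rw [lt_div_iff₀ hδ0]; linarith)
  set K : ℝ≥0∞ := ENNReal.ofReal (2 / Real.log (1 / δ)) * A with hK
  set I : ℝ → ℝ≥0∞ := fun r =>
    ∫⁻ θ in Ioo (-Real.pi) Real.pi, h (-1 + (r : ℂ) * Complex.exp (θ * Complex.I)) with hI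
  have hKint : ∫⁻ r in Ioo δ (√δ), K * (ENNReal.ofReal r)⁻¹ = A := by
    have hc : ∫⁻ r in Ioo δ (√δ), K * (ENNReal.ofReal r)⁻¹ =
        K * ∫⁻ r in Ioo δ (√δ), (ENNReal.ofReal r)⁻¹ :=
      lintegral_const_mul _ (ENNReal.measurable_ofReal.inv)
    rw [hc, AreaB_inv hδ0 hδ1, hK, mul_right_comm, ← ENNReal.ofReal_mul (by positivity),
      show 2 / Real.log (1 / δ) * (Real.log (1 / δ) / 2) = 1 by field_simp, ENNReal.ofReal_one,
      one_mul]
  have h1 : ∫⁻ r in Ioo δ (√δ), K * (ENNReal.ofReal r)⁻¹ <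
      ∫⁻ r in Ioo δ (√δ), ENNReal.ofReal r * I r := by
    refine setLIntegral_strict_mono measurableSet_Ioo ?_ ?_ ?_ ?_
    · rw [Real.volume_Ioo]
      exact (ENNReal.ofReal_pos.mpr (sub_pos.mpr hlt)).ne'
    · exact ENNReal.measurable_ofReal.mul (AreaB_measI hm)
    · rw [hKint]; exact hA
    · refine Eventually.of_forall fun r hr => ?_
      have h2 := hcon r hr
      rw [← div_eq_mul_inv]
      refine ENNReal.div_lt_of_lt_mul' ?_
      rw [← mul_assoc, ← ENNReal.ofReal_mul (hδ0.trans hr.1).le, ← pow_two]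
      exact h2
  have h3 : ∫⁻ r in Ioo δ (√δ), ENNReal.ofReal r * I r ≤ A := by
    refine le_trans (lintegral_mono_set ?_) ((AreaB_polar hm).le.trans hh)
    intro r hr
    exact hδ0.trans hr.1
  rw [hKint] at h1
  exact absurd h3 (not_le_of_gt h1)

end Pool.Agent.W_cd67d3_h45
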