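import Pool.Agent.W_cd67d3_h45.Defs

/-!
# The length of the image of a circular arc
-/

namespace Pool.Agent.W_cd67d3_h45

open Metric Set Filter Topology MeasureTheory
open scoped ENNReal

lemma AreaC_norm (r θ : ℝ) :
    ‖(-1 + r * Complex.exp (θ * Complex.I) : ℂ)‖ ^ 2 = 1 + r ^ 2 - 2 * r * Real.cos θ := by
  rw [Complex.sq_norm, Complex.normSq_apply]
  have h1 : (-1 + r * Complex.exp (θ * Complex.I) : ℂ).re = -1 + r * Real.cos θ := by
    simp [Complex.exp_ofReal_mul_I_re]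
  have h2 : (-1 + r * Complex.exp (θ * Complex.I) : ℂ).im = r * Real.sin θ := by
    simp [Complex.exp_ofReal_mul_I_im]
  rw [h1, h2]
  have := Real.sin_sq_add_cos_sq θ
  linear_combination r ^ 2 * this

lemma AreaC_mem (r θ : ℝ) (hr : 0 < r) :
    (-1 + r * Complex.exp (θ * Complex.I) : ℂ) ∈ ball (0 : ℂ) 1 ↔ r / 2 < Real.cos θ := by
  rw [mem_ball_zero_iff, ← sq_lt_one_iff₀ (norm_nonneg _), AreaC_norm]
  constructor
  · intro h
    have : r * (r / 2) < r * Real.cos θ := by nlinarith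
    exact lt_of_mul_lt_mul_left this hr.le
  · intro h
    nlinarith

lemma AreaC_cos {α β θ : ℝ} (ha : |α| < Real.pi / 2) (hb : |β| < Real.pi / 2)
    (h1 : α ≤ θ) (h2 : θ ≤ β) {c : ℝ} (hca : c < Real.cos α) (hcb : c < Real.cos β) :
    c < Real.cos θ := by
  have h3 : |θ| ≤ max |α| |β| := abs_le_max_abs_abs h1 h2
  have hpi := Real.pi_pos
  rw [← Real.cos_abs]
  rcases max_cases |α| |β| with h | h
  · rw [h.1] at h3
    refine hca.trans_le ?_
    rw [← Real.cos_abs α]
    exact Real.cos_le_cos_of_nonneg_of_le_pi (abs_nonneg _) (by linarith) h3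
  · rw [h.1] at h3
    refine hcb.trans_le ?_
    rw [← Real.cos_abs β]
    exact Real.cos_le_cos_of_nonneg_of_le_pi (abs_nonneg _) (by linarith) h3

lemma AreaC_cs {f : ℝ → ℝ} {α β : ℝ} (hab : α ≤ β) (hf : ContinuousOn f (uIcc α β)) :
    (∫ t in α..β, f t) ^ 2 ≤ (β - α) * ∫ t in α..β, f t ^ 2 := by
  rcases hab.eq_or_lt with h | h
  · subst h
    simp
  have hL : 0 < β - α := by linarith
  set F := ∫ t in α..β, f t with hF
  have hi1 : IntervalIntegrable f volume α β := hf.intervalIntegrable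
  have hi2 : IntervalIntegrable (fun t => f t ^ 2) volume α β := (hf.pow 2).intervalIntegrable
  have h1 : 0 ≤ ∫ t in α..β, (f t - F / (β - α)) ^ 2 :=
    intervalIntegral.integral_nonneg hab fun t _ => sq_nonneg _
  have h2 : ∀ t, (f t - F / (β - α)) ^ 2 =
      (f t ^ 2 - (2 * (F / (β - α))) * f t) + (F / (β - α)) ^ 2 := fun t => by ring
  simp_rw [h2] at h1
  rw [intervalIntegral.integral_add (hi2.sub (hi1.const_mul _)) intervalIntegrable_const,
    intervalIntegral.integral_sub hi2 (hi1.const_mul _), intervalIntegral.integral_const_mul,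
    intervalIntegral.integral_const, smul_eq_mul, ← hF] at h1
  have h3 : (β - α) * (F / (β - α)) = F := by field_simp
  have h4 : (β - α) * ((∫ t in α..β, f t ^ 2) - 2 * (F / (β - α)) * F +
      (β - α) * (F / (β - α)) ^ 2) = (β - α) * (∫ t in α..β, f t ^ 2) - F ^ 2 := by
    field_simp
    ring
  have h5 := mul_nonneg hL.le h1
  rw [h4] at h5
  linarith

lemma AreaC_aux {ψ : ℂ → ℂ} (hd : DifferentiableOn ℂ ψ (ball 0 1)) {r K : ℝ} (hr : 0 < r)
    (hK : 0 ≤ K)
    (hI : ENNReal.ofReal (r ^ 2) * ∫⁻ θ in Ioo (-Real.pi) Real.pi,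
      (ball (0 : ℂ) 1).indicator (fun z => ENNReal.ofReal (‖deriv ψ z‖ ^ 2))
        (-1 + r * Complex.exp (θ * Complex.I)) ≤ ENNReal.ofReal K)
    {α β : ℝ} (hab : α ≤ β) (ha : |α| < Real.pi / 2) (hb : |β| < Real.pi / 2)
    (hca : r / 2 < Real.cos α) (hcb : r / 2 < Real.cos β) :
    dist (ψ (-1 + r * Complex.exp (α * Complex.I))) (ψ (-1 + r * Complex.exp (β * Complex.I))) ^ 2
      ≤ Real.pi * K := by
  have hpi := Real.pi_pos
  have hIcc : ∀ θ ∈ uIcc α β, (-1 + r * Complex.exp (θ * Complex.I) : ℂ) ∈ ball (0 : ℂ) 1 := by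
    intro θ hθ
    rw [uIcc_of_le hab] at hθ
    exact (AreaC_mem r θ hr).2 (AreaC_cos ha hb hθ.1 hθ.2 hca hcb)
  have hgc : Continuous fun θ : ℝ => (-1 + r * Complex.exp (θ * Complex.I) : ℂ) := by fun_prop
  have hdc : ContinuousOn (deriv ψ) (ball 0 1) := (hd.deriv isOpen_ball).continuousOn
  have hfc : ContinuousOn (fun θ : ℝ => deriv ψ (-1 + r * Complex.exp (θ * Complex.I)))
      (uIcc α β) := hdc.comp hgc.continuousOn hIcc
  have hder : ∀ θ ∈ uIcc α β, HasDerivAt
      (fun θ : ℝ => ψ (-1 + r * Complex.exp (θ * Complex.I)))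
      (deriv ψ (-1 + r * Complex.exp (θ * Complex.I)) *
        (r * (Complex.exp (θ * Complex.I) * Complex.I))) θ := by
    intro θ hθ
    have h1 : HasDerivAt ψ (deriv ψ (-1 + r * Complex.exp (θ * Complex.I)))
        (-1 + r * Complex.exp (θ * Complex.I)) :=
      (hd.differentiableAt (isOpen_ball.mem_nhds (hIcc θ hθ))).hasDerivAt
    have h2 : HasDerivAt (fun t : ℝ => (t : ℂ) * Complex.I) Complex.I θ := by
      simpa using (Complex.ofRealCLM.hasDerivAt (x := θ)).mul_const Complex.I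
    have h3 : HasDerivAt (fun t : ℝ => (-1 + r * Complex.exp (t * Complex.I) : ℂ))
        (r * (Complex.exp (θ * Complex.I) * Complex.I)) θ := by
      have := (h2.cexp.const_mul (r : ℂ)).const_add (-1 : ℂ)
      simpa using this
    exact h1.comp θ h3
  have hint : IntervalIntegrable (fun θ : ℝ =>
      deriv ψ (-1 + r * Complex.exp (θ * Complex.I)) *
        (r * (Complex.exp (θ * Complex.I) * Complex.I))) volume α β := by
    refine (hfc.mul ?_).intervalIntegrable
    have : Continuous fun θ : ℝ => ((r : ℂ) * (Complex.exp (θ * Complex.I) * Complex.I)) := by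
      fun_prop
    exact this.continuousOn
  have hftc := intervalIntegral.integral_eq_sub_of_hasDerivAt hder hint
  have hle : dist (ψ (-1 + r * Complex.exp (α * Complex.I)))
      (ψ (-1 + r * Complex.exp (β * Complex.I))) ≤
      ∫ θ in α..β, r * ‖deriv ψ (-1 + r * Complex.exp (θ * Complex.I))‖ := by
    rw [dist_comm, dist_eq_norm, ← hftc]
    refine (intervalIntegral.norm_integral_le_integral_norm hab).trans (le_of_eq ?_)
    refine intervalIntegral.integral_congr fun θ _ => ?_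
    show ‖_ * _‖ = _
    rw [norm_mul, norm_mul, norm_mul, Complex.norm_exp_ofReal_mul_I, Complex.norm_I, mul_one,
      mul_one, Complex.norm_real, Real.norm_eq_abs, abs_of_pos hr, mul_comm]
  have hcs := AreaC_cs (f := fun θ => r * ‖deriv ψ (-1 + r * Complex.exp (θ * Complex.I))‖) hab
    (continuousOn_const.mul hfc.norm)
  have hKint : ∫ θ in α..β, (r * ‖deriv ψ (-1 + r * Complex.exp (θ * Complex.I))‖) ^ 2 ≤ K := by
    have hnn : ∀ θ : ℝ, 0 ≤ ‖deriv ψ (-1 + r * Complex.exp (θ * Complex.I))‖ ^ 2 := fun θ => by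
      positivity
    have hi : IntegrableOn (fun θ : ℝ => ‖deriv ψ (-1 + r * Complex.exp (θ * Complex.I))‖ ^ 2)
        (Ioc α β) := by
      have : IntervalIntegrable (fun θ : ℝ =>
          ‖deriv ψ (-1 + r * Complex.exp (θ * Complex.I))‖ ^ 2) volume α β :=
        (hfc.norm.pow 2).intervalIntegrable
      rwa [intervalIntegrable_iff_integrableOn_Ioc_of_le hab] at this
    have h1 : ENNReal.ofReal (∫ θ in Ioc α β,
        ‖deriv ψ (-1 + r * Complex.exp (θ * Complex.I))‖ ^ 2) =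
        ∫⁻ θ in Ioc α β, ENNReal.ofReal
          (‖deriv ψ (-1 + r * Complex.exp (θ * Complex.I))‖ ^ 2) :=
      ofReal_integral_eq_lintegral_ofReal hi (Eventually.of_forall hnn)
    have h2 : ∫⁻ θ in Ioc α β, ENNReal.ofReal
          (‖deriv ψ (-1 + r * Complex.exp (θ * Complex.I))‖ ^ 2) ≤
        ∫⁻ θ in Ioo (-Real.pi) Real.pi,
      (ball (0 : ℂ) 1).indicator (fun z => ENNReal.ofReal (‖deriv ψ z‖ ^ 2))
        (-1 + r * Complex.exp (θ * Complex.I)) := by
      calc _ = ∫⁻ θ in Ioc α β,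
          (ball (0 : ℂ) 1).indicator (fun z => ENNReal.ofReal (‖deriv ψ z‖ ^ 2))
            (-1 + r * Complex.exp (θ * Complex.I)) := by
            refine setLIntegral_congr_fun measurableSet_Ioc fun θ hθ => ?_
            have hm := hIcc θ (by rw [uIcc_of_le hab]; exact ⟨hθ.1.le, hθ.2⟩)
            rw [indicator_of_mem hm]
        _ ≤ _ := by
            refine lintegral_mono_set fun θ hθ => ?_
            have h3 := abs_lt.1 ha
            have h4 := abs_lt.1 hb
            exact ⟨by linarith [hθ.1], by linarith [hθ.2]⟩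
    have h3 : ENNReal.ofReal (r ^ 2 * ∫ θ in Ioc α β,
        ‖deriv ψ (-1 + r * Complex.exp (θ * Complex.I))‖ ^ 2) ≤ ENNReal.ofReal K := by
      rw [ENNReal.ofReal_mul (by positivity), h1]
      exact (mul_le_mul_right h2 _).trans hI
    have h4 := (ENNReal.ofReal_le_ofReal_iff hK).1 h3
    rw [intervalIntegral.integral_of_le hab]
    simp_rw [mul_pow]
    rwa [integral_const_mul]
  have h0 : 0 ≤ dist (ψ (-1 + r * Complex.exp (α * Complex.I)))
      (ψ (-1 + r * Complex.exp (β * Complex.I))) := dist_nonneg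
  have h5 : β - α ≤ Real.pi := by
    have h3 := abs_lt.1 ha
    have h4 := abs_lt.1 hb
    linarith
  calc (dist (ψ (-1 + r * Complex.exp (α * Complex.I)))
      (ψ (-1 + r * Complex.exp (β * Complex.I)))) ^ 2
      ≤ (∫ θ in α..β, r * ‖deriv ψ (-1 + r * Complex.exp (θ * Complex.I))‖) ^ 2 :=
        pow_le_pow_left₀ h0 hle 2
    _ ≤ (β - α) * ∫ θ in α..β, (r * ‖deriv ψ (-1 + r * Complex.exp (θ * Complex.I))‖) ^ 2 := hcs
    _ ≤ (β - α) * K := mul_le_mul_of_nonneg_left hKint (by linarith)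
    _ ≤ Real.pi * K := mul_le_mul_of_nonneg_right h5 hK

lemma AreaC_param {z : ℂ} (hz : z ∈ ball (0 : ℂ) 1) {r : ℝ} (hr : 0 < r)
    (hzr : dist z (-1) = r) :
    ∃ α : ℝ, |α| < Real.pi / 2 ∧ r / 2 < Real.cos α ∧
      z = -1 + r * Complex.exp (α * Complex.I) := by
  have h1 : ‖z + 1‖ = r := by rw [← hzr, dist_eq_norm, sub_neg_eq_add]
  have h2 : z = -1 + r * Complex.exp ((Complex.arg (z + 1) : ℝ) * Complex.I) := by
    rw [← h1, Complex.norm_mul_exp_arg_mul_I]
    ring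
  have h3 : 0 < (z + 1).re := by
    rw [mem_ball_zero_iff] at hz
    have := (abs_lt.1 ((Complex.abs_re_le_norm z).trans_lt hz)).1
    simp only [Complex.add_re, Complex.one_re]
    linarith
  refine ⟨Complex.arg (z + 1), Complex.abs_arg_lt_pi_div_two_iff.2 (Or.inl h3), ?_, h2⟩
  rw [← AreaC_mem r _ hr, ← h2]
  exact hz

/-- Proof. `z = -1 + r * exp (α I)`, `z' = -1 + r * exp (β I)` with `α, β` in `(-π/2, π/2)` (the real
part of `z` is bigger than `-1`), say `α ≤ β`. The arc `-1 + r * exp (θ I)`, `α ≤ θ ≤ β`, lies in the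
unit ball (`‖-1 + r * exp (θ I)‖ ^ 2 = 1 + r ^ 2 - 2 r cos θ < 1` iff `cos θ > r / 2`, and
`cos θ ≥ min (cos α) (cos β)`). So
`ψ z' - ψ z = ∫ θ in α..β, deriv ψ (..) * (r I exp (θ I))`, and by the Cauchy-Schwarz inequality
`‖ψ z' - ψ z‖ ^ 2 ≤ (β - α) * ∫ r ^ 2 ‖deriv ψ‖ ^ 2 ≤ π * K`. -/
theorem arc_est {ψ : ℂ → ℂ} (hd : DifferentiableOn ℂ ψ (ball 0 1)) {r K : ℝ} (hr : 0 < r)
    (hK : 0 ≤ K)
    (hI : ENNReal.ofReal (r ^ 2) * ∫⁻ θ in Ioo (-Real.pi) Real.pi,
      (ball (0 : ℂ) 1).indicator (fun z => ENNReal.ofReal (‖deriv ψ z‖ ^ 2))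
        (-1 + r * Complex.exp (θ * Complex.I)) ≤ ENNReal.ofReal K) :
    ∀ z ∈ ball (0 : ℂ) 1, ∀ z' ∈ ball (0 : ℂ) 1, dist z (-1) = r → dist z' (-1) = r →
      dist (ψ z) (ψ z') ^ 2 ≤ Real.pi * K := by
  intro z hz z' hz' h1 h2
  obtain ⟨α, ha, hca, rfl⟩ := AreaC_param hz hr h1
  obtain ⟨β, hb, hcb, rfl⟩ := AreaC_param hz' hr h2
  rcases le_total α β with h | h
  · exact AreaC_aux hd hr hK hI h ha hb hca hcb
  · rw [dist_comm]
    exact AreaC_aux hd hr hK hI h hb ha hcb hca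

end Pool.Agent.W_cd67d3_h45
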