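import Pool.Agent.W_cd67d3_h45.AreaA
import Pool.Agent.W_cd67d3_h45.AreaB
import Pool.Agent.W_cd67d3_h45.AreaC

/-!
# The length-area inequality
-/

namespace Pool.Agent.W_cd67d3_h45

open Metric Set Filter Topology MeasureTheory

/-- The case `ζ = -1`. -/
theorem AreaD_neg {ψ : ℂ → ℂ} (hd : DifferentiableOn ℂ ψ (ball 0 1))
    (hi : InjOn ψ (ball 0 1)) {A : ℝ} (hA0 : 0 ≤ A)
    (hA : volume (ψ '' ball 0 1) ≤ ENNReal.ofReal A) {δ : ℝ} (hδ0 : 0 < δ) (hδ1 : δ < 1) :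
    ∃ r ∈ Ioo δ (√δ), ∀ z ∈ ball (0 : ℂ) 1, ∀ z' ∈ ball (0 : ℂ) 1,
      dist z (-1) = r → dist z' (-1) = r →
      dist (ψ z) (ψ z') ^ 2 ≤ 2 * Real.pi * A / Real.log (1 / δ) := by
  have hlog : 0 < Real.log (1 / δ) := by
    apply Real.log_pos
    rw [lt_div_iff₀ hδ0]
    linarith
  have hm : Measurable ((ball (0 : ℂ) 1).indicator
      (fun z => ENNReal.ofReal (‖deriv ψ z‖ ^ 2))) := by
    apply Measurable.indicator _ measurableSet_ball
    exact ((measurable_deriv ψ).norm.pow_const 2).ennreal_ofReal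
  have hh : ∫⁻ z, (ball (0 : ℂ) 1).indicator (fun z => ENNReal.ofReal (‖deriv ψ z‖ ^ 2)) z
      ≤ ENNReal.ofReal A := by
    rw [lintegral_indicator measurableSet_ball, area_deriv hd hi]
    exact hA
  obtain ⟨r, hr, hle⟩ := good_radius hm ENNReal.ofReal_ne_top hh hδ0 hδ1
  refine ⟨r, hr, ?_⟩
  have hK : 0 ≤ 2 / Real.log (1 / δ) * A := by positivity
  rw [← ENNReal.ofReal_mul (by positivity)] at hle
  intro z hz z' hz' h1 h2
  refine (arc_est hd (hδ0.trans hr.1) hK hle z hz z' hz' h1 h2).trans (le_of_eq ?_)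
  ring

/-- Proof. For `ζ = -1`: `good_radius` for `h = (ball 0 1).indicator (fun z => ofReal (‖deriv ψ z‖ ^ 2))`
(measurable: `measurable_deriv`), with `area_deriv`, and `arc_est` with `K = 2 * A / log (1 / δ)`. For
general `ζ` apply this to `z ↦ ψ (-ζ * z)` (the multiplication by `-ζ` is an isometry of the unit ball
which maps `-1` to `ζ`). -/
theorem length_area {ψ : ℂ → ℂ} (hd : DifferentiableOn ℂ ψ (ball 0 1))
    (hi : InjOn ψ (ball 0 1)) {A : ℝ} (hA0 : 0 ≤ A)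
    (hA : volume (ψ '' ball 0 1) ≤ ENNReal.ofReal A) {δ : ℝ} (hδ0 : 0 < δ) (hδ1 : δ < 1)
    {ζ : ℂ} (hζ : ζ ∈ sphere (0 : ℂ) 1) :
    ∃ r ∈ Ioo δ (√δ), ∀ z ∈ ball (0 : ℂ) 1, ∀ z' ∈ ball (0 : ℂ) 1,
      dist z ζ = r → dist z' ζ = r →
      dist (ψ z) (ψ z') ^ 2 ≤ 2 * Real.pi * A / Real.log (1 / δ) := by
  have hn : ‖ζ‖ = 1 := by simpa using hζ
  have hζ0 : ζ ≠ 0 := by
    rintro rfl
    simp at hn
  have hmap : MapsTo (fun z : ℂ => -ζ * z) (ball 0 1) (ball 0 1) := by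
    intro z hz
    simp only [mem_ball, dist_zero_right, norm_mul, norm_neg, hn, one_mul] at hz ⊢
    exact hz
  have hd' : DifferentiableOn ℂ (fun z => ψ (-ζ * z)) (ball 0 1) := by
    refine hd.comp (g := ψ) (f := fun z : ℂ => -ζ * z) ?_ hmap
    exact (differentiable_id.const_mul (-ζ)).differentiableOn
  have hi' : InjOn (fun z => ψ (-ζ * z)) (ball 0 1) := by
    intro x hx y hy hxy
    have h1 := hi (hmap hx) (hmap hy) hxy
    exact mul_left_cancel₀ (neg_ne_zero.2 hζ0) h1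
  have hA' : volume ((fun z => ψ (-ζ * z)) '' ball 0 1) ≤ ENNReal.ofReal A := by
    refine (measure_mono ?_).trans hA
    rintro _ ⟨z, hz, rfl⟩
    exact ⟨-ζ * z, hmap hz, rfl⟩
  obtain ⟨r, hr, h⟩ := AreaD_neg hd' hi' hA0 hA' hδ0 hδ1
  refine ⟨r, hr, ?_⟩
  intro z hz z' hz' h1 h2
  have key : ∀ z : ℂ, -ζ * (-z / ζ) = z := by
    intro z
    field_simp
  have hball : ∀ z ∈ ball (0 : ℂ) 1, -z / ζ ∈ ball (0 : ℂ) 1 := by
    intro z hz
    simp only [mem_ball, dist_zero_right, norm_div, norm_neg, hn, div_one] at hz ⊢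
    exact hz
  have hdist : ∀ z : ℂ, dist (-z / ζ) (-1) = dist z ζ := by
    intro z
    rw [dist_eq_norm, dist_eq_norm]
    have h3 : -z / ζ - -1 = -(z - ζ) / ζ := by
      field_simp
      ring
    rw [h3, norm_div, norm_neg, hn, div_one]
  have h4 := h (-z / ζ) (hball z hz) (-z' / ζ) (hball z' hz') ((hdist z).trans h1)
    ((hdist z').trans h2)
  simp only [key] at h4
  exact h4

end Pool.Agent.W_cd67d3_h45
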