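import Pool.Agent.W_cd67d3_h45.Defs

/-!
# The averages of a lift: continuity, periodicity, boundedness
-/

namespace Pool.Agent.W_cd67d3_h45

open Metric Set Filter Topology MeasureTheory

/-- The average as a mean value over `[-1, 1]`. -/
theorem AvgA_eq (b : ℝ → ℝ) (θ s : ℝ) :
    avg b θ s = (1 / 2) * ∫ u in (-1 : ℝ)..1, (b (θ + s * u) - (θ + s * u)) := by
  unfold avg
  by_cases hs : s = 0
  · rw [if_pos hs, hs]
    simp only [zero_mul, add_zero, intervalIntegral.integral_const, smul_eq_mul]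
    ring
  · rw [if_neg hs]
    have h1 := intervalIntegral.integral_comp_add_mul (a := (-1 : ℝ)) (b := 1)
      (fun t : ℝ => b t - t) hs θ
    rw [h1, smul_eq_mul]
    have h2 : θ + s * (-1) = θ - s := by ring
    have h3 : θ + s * 1 = θ + s := by ring
    rw [h2, h3]
    field_simp

theorem avg_add_one {b : ℝ → ℝ} (hp : ∀ t, b (t + 1) = b t + 1) (θ s : ℝ) :
    avg b (θ + 1) s = avg b θ s := by
  rw [AvgA_eq, AvgA_eq]
  congr 2
  funext u
  have h1 : θ + 1 + s * u = θ + s * u + 1 := by ring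
  rw [h1, hp]
  ring

/-- Proof. At a point `(θ, s)` with `s ≠ 0`: the integral depends continuously on its limits. At
`(θ, 0)`: `avg b θ' s'` is a mean value of the continuous function `b t - t` over the interval between
`θ' - s'` and `θ' + s'` (the formula for `s' < 0` gives the same as for `-s'`), and it is within `ε` of
`b θ - θ` as soon as the interval is in a neighbourhood of `θ`. -/
theorem avg_cont {b : ℝ → ℝ} (hc : Continuous b) : Continuous (fun q : ℝ × ℝ => avg b q.1 q.2) := by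
  have h1 : (fun q : ℝ × ℝ => avg b q.1 q.2) = fun q : ℝ × ℝ =>
      (1 / 2) * ∫ u in (-1 : ℝ)..1, (b (q.1 + q.2 * u) - (q.1 + q.2 * u)) := by
    funext q
    exact AvgA_eq b q.1 q.2
  rw [h1]
  refine continuous_const.mul ?_
  refine intervalIntegral.continuous_parametric_intervalIntegral_of_continuous' ?_ _ _
  have h2 : Continuous (fun p : (ℝ × ℝ) × ℝ => p.1.1 + p.1.2 * p.2) := by fun_prop
  exact (hc.comp h2).sub h2

theorem avg_bdd {b : ℝ → ℝ} (hc : Continuous b) (hp : ∀ t, b (t + 1) = b t + 1) :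
    ∃ B : ℝ, ∀ θ s, |avg b θ s| ≤ B := by
  have hper : Function.Periodic (fun t : ℝ => b t - t) 1 := by
    intro t
    change b (t + 1) - (t + 1) = b t - t
    rw [hp]
    ring
  obtain ⟨B, hB⟩ := isCompact_Icc.exists_bound_of_continuousOn (s := Icc (0 : ℝ) 1)
    (f := fun t : ℝ => b t - t) (hc.sub continuous_id).continuousOn
  have hB' : ∀ t : ℝ, ‖b t - t‖ ≤ B := by
    intro t
    obtain ⟨y, hy, hty⟩ := hper.exists_mem_Ico₀ one_pos t
    have h1 : b t - t = b y - y := hty
    rw [h1]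
    exact hB y ⟨hy.1, hy.2.le⟩
  refine ⟨B, fun θ s => ?_⟩
  rw [AvgA_eq, abs_mul]
  have h2 := intervalIntegral.norm_integral_le_of_norm_le_const (a := (-1 : ℝ)) (b := 1) (C := B)
    (f := fun u : ℝ => b (θ + s * u) - (θ + s * u)) fun u _ => hB' _
  rw [Real.norm_eq_abs] at h2
  have h3 : |(1 : ℝ) - -1| = 2 := by norm_num
  have h4 : |(1 / 2 : ℝ)| = 1 / 2 := by norm_num
  rw [h3] at h2
  rw [h4]
  linarith

end Pool.Agent.W_cd67d3_h45
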