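import Pool.Agent.W_cd67d3_h45.Defs

/-!
# The averages of a lift: monotonicity, differentiability
-/

namespace Pool.Agent.W_cd67d3_h45

open Metric Set Filter Topology MeasureTheory

/-- Proof. The mean value of `t` over `[θ - s, θ + s]` is `θ`, so `θ + avg b θ s` is the mean value of
`b` over this interval (`b θ` if `s = 0`), that is `(∫ t in (-s)..s, b (θ + t)) / (2 s)`, which is strictly
increasing in `θ`; and `θ + χ * avg b θ s = (1 - χ) * θ + χ * (θ + avg b θ s)`. -/
theorem avg_mono {b : ℝ → ℝ} (hc : Continuous b) (hm : StrictMono b) {χ : ℝ} (h0 : 0 ≤ χ)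
    (h1 : χ ≤ 1) {s : ℝ} (hs : 0 ≤ s) : StrictMono (fun θ => θ + χ * avg b θ s) := by
  rcases hs.eq_or_lt with rfl | hs
  · intro x y hxy
    have h : b x < b y := hm hxy
    simp only [avg, if_true]
    rcases h0.eq_or_lt with rfl | h0
    · simpa using hxy
    · have e1 : χ * b x < χ * b y := mul_lt_mul_of_pos_left h h0
      have e2 : (1 - χ) * x ≤ (1 - χ) * y := mul_le_mul_of_nonneg_left hxy.le (by linarith)
      linarith
  · have hI : ∀ u v : ℝ, IntervalIntegrable b volume u v := fun u v => hc.intervalIntegrable u v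
    have key : ∀ θ, avg b θ s = (∫ t in (-s)..s, b (θ + t)) / (2 * s) - θ := by
      intro θ
      have hid : IntervalIntegrable (fun t : ℝ => t) volume (θ - s) (θ + s) :=
        continuous_id.intervalIntegrable _ _
      have e : θ + -s = θ - s := by ring
      rw [avg, if_neg hs.ne', intervalIntegral.integral_sub (hI _ _) hid, integral_id,
        intervalIntegral.integral_comp_add_left (fun t => b t) θ, e]
      field_simp
      ring
    intro x y hxy
    have hlt : (∫ t in (-s)..s, b (x + t)) < ∫ t in (-s)..s, b (y + t) := by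
      refine intervalIntegral.integral_lt_integral_of_continuousOn_of_le_of_exists_lt
        (by linarith) (by fun_prop) (by fun_prop) (fun t _ => (hm (by linarith)).le)
        ⟨0, ⟨by linarith, by linarith⟩, hm (by linarith)⟩
    have hlt' : (∫ t in (-s)..s, b (x + t)) / (2 * s) < (∫ t in (-s)..s, b (y + t)) / (2 * s) :=
      div_lt_div_of_pos_right hlt (by linarith)
    simp only [key]
    rcases h0.eq_or_lt with rfl | h0
    · simpa using hxy
    · have e1 := mul_lt_mul_of_pos_left hlt' h0
      have e2 : (1 - χ) * x ≤ (1 - χ) * y := mul_le_mul_of_nonneg_left hxy.le (by linarith)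
      linarith

/-- Proof. `B x = ∫ t in 0..x, (b t - t)` is differentiable and
`avg b θ s = (B (θ + s) - B (θ - s)) / (2 s)` near each point with `s ≠ 0`. -/
theorem avg_diff {b : ℝ → ℝ} (hc : Continuous b) {q : ℝ × ℝ} (hq : q.2 ≠ 0) :
    DifferentiableAt ℝ (fun q : ℝ × ℝ => avg b q.1 q.2) q := by
  have hcb : Continuous (fun t => b t - t) := hc.sub continuous_id
  have hB : Differentiable ℝ (fun x => ∫ t in (0 : ℝ)..x, (b t - t)) :=
    fun x => (hcb.integral_hasStrictDerivAt 0 x).hasDerivAt.differentiableAt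
  have hev : (fun q : ℝ × ℝ => avg b q.1 q.2) =ᶠ[𝓝 q] fun q : ℝ × ℝ =>
      ((∫ t in (0 : ℝ)..(q.1 + q.2), (b t - t)) - ∫ t in (0 : ℝ)..(q.1 - q.2), (b t - t)) /
        (2 * q.2) := by
    have ho : ∀ᶠ q' : ℝ × ℝ in 𝓝 q, q'.2 ≠ 0 :=
      (continuous_snd.continuousAt (x := q)).eventually_ne hq
    filter_upwards [ho] with q' hq'
    rw [avg, if_neg hq', intervalIntegral.integral_interval_sub_left
      (hcb.intervalIntegrable _ _) (hcb.intervalIntegrable _ _)]
  refine DifferentiableAt.congr_of_eventuallyEq ?_ hev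
  have d1 : DifferentiableAt ℝ (fun q : ℝ × ℝ => ∫ t in (0 : ℝ)..(q.1 + q.2), (b t - t)) q :=
    (hB (q.1 + q.2)).comp q (f := fun q : ℝ × ℝ => q.1 + q.2)
      (differentiableAt_fst.add differentiableAt_snd)
  have d2 : DifferentiableAt ℝ (fun q : ℝ × ℝ => ∫ t in (0 : ℝ)..(q.1 - q.2), (b t - t)) q :=
    (hB (q.1 - q.2)).comp q (f := fun q : ℝ × ℝ => q.1 - q.2)
      (differentiableAt_fst.sub differentiableAt_snd)
  have d3 : DifferentiableAt ℝ (fun q : ℝ × ℝ => 2 * q.2) q :=
    (differentiableAt_const 2).mul differentiableAt_snd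
  simp only [div_eq_mul_inv]
  exact (d1.sub d2).mul (d3.inv (mul_ne_zero two_ne_zero hq))

end Pool.Agent.W_cd67d3_h45
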