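import Pool.Agent.W_cd67d3_h45.Defs

/-!
# The complement of a small disc in the unit disc is connected
-/

namespace Pool.Agent.W_cd67d3_h45

open Metric Set Filter Topology

theorem BallCompl_norm (r a t : ℝ) :
    ‖(r : ℂ) * Complex.exp ((t : ℂ) * Complex.I) - (a : ℂ)‖ ^ 2 =
      r ^ 2 + a ^ 2 - 2 * r * a * Real.cos t := by
  rw [← Complex.normSq_eq_norm_sq, Complex.normSq_apply]
  simp only [Complex.sub_re, Complex.sub_im, Complex.mul_re, Complex.mul_im, Complex.ofReal_re,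
    Complex.ofReal_im, Complex.exp_ofReal_mul_I_re, Complex.exp_ofReal_mul_I_im]
  have h := Real.sin_sq_add_cos_sq t
  nlinarith [h]

/-- Proof. Let `u` be a unit vector with `c = ‖c‖ • u` (any unit vector if `c = 0`). For
`z = r * e` with `r = ‖z‖`, `dist z c` for `z` running on the circle of radius `r` increases with the
angle between `z` and `u`; so the arc of the circle from `z` to `- r • u` stays outside of
`closedBall c η` if `z` does. The points `- r • u` of the set are those with `0 ≤ r < 1`,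
`η < r + ‖c‖`: a segment, non empty as `η < 1`. So each point of the set is joined in the set to this
segment. (Formula: by a rotation `u = 1`, `z = r * exp (θ I)` with `|θ| ≤ π`, take
`r * exp (t I)` for `t` from `θ` to `π` (or to `-π`);
`‖r * exp (t I) - c‖ ^ 2 = r ^ 2 + c ^ 2 - 2 r c cos t`.) -/
theorem ball_compl_preconn (c : ℂ) {η : ℝ} (h0 : 0 < η) (h1 : η < 1) :
    IsPreconnected (ball (0 : ℂ) 1 \ closedBall c η) := by
  obtain ⟨u, hu, hc⟩ : ∃ u : ℂ, ‖u‖ = 1 ∧ c = (‖c‖ : ℂ) * u := by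
    by_cases h : c = 0
    · exact ⟨1, norm_one, by simp [h]⟩
    · have h2 : (‖c‖ : ℂ) ≠ 0 := by
        exact_mod_cast (norm_ne_zero_iff.2 h)
      refine ⟨c / ‖c‖, ?_, by field_simp⟩
      rw [norm_div, Complex.norm_real, norm_norm, div_self (norm_ne_zero_iff.2 h)]
  have hu0 : u ≠ 0 := by
    intro h
    rw [h, norm_zero] at hu
    exact zero_ne_one hu
  set a : ℝ := ‖c‖ with ha
  have ha0 : 0 ≤ a := norm_nonneg c
  have hmem : ∀ w : ℂ, w * u ∈ ball (0 : ℂ) 1 \ closedBall c η ↔ ‖w‖ < 1 ∧ η < ‖w - a‖ := by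
    intro w
    rw [Set.mem_sdiff, mem_ball_zero_iff, mem_closedBall, not_le, dist_eq_norm, norm_mul, hu, mul_one]
    have h2 : w * u - c = (w - a) * u := by
      rw [sub_mul, ← hc]
    rw [h2, norm_mul, hu, mul_one]
  have hseg : ∀ r : ℝ, 0 ≤ r → r < 1 → η < r + a →
      (-(r : ℂ)) * u ∈ ball (0 : ℂ) 1 \ closedBall c η := by
    intro r hr0 hr1 hr2
    rw [hmem]
    have h2 : (-(r : ℂ)) - a = -((r + a : ℝ) : ℂ) := by
      push_cast
      ring
    rw [h2, norm_neg, norm_neg, Complex.norm_real, Complex.norm_real, Real.norm_of_nonneg hr0,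
      Real.norm_of_nonneg (by linarith)]
    exact ⟨hr1, hr2⟩
  set T : Set ℝ := Set.Ico 0 1 ∩ Set.Ioi (η - a) with hT
  have hTp : IsPreconnected T := (Set.ordConnected_Ico.inter Set.ordConnected_Ioi).isPreconnected
  have hSp : IsPreconnected ((fun r : ℝ => (-(r : ℂ)) * u) '' T) :=
    hTp.image _ (by fun_prop)
  refine isPreconnected_of_forall ((-(((1 + η) / 2 : ℝ) : ℂ)) * u) ?_
  intro z hz
  set w : ℂ := z / u with hw
  have hzw : z = w * u := by
    rw [hw, div_mul_cancel₀ _ hu0]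
  have hz2 := hz
  rw [hzw, hmem] at hz2
  obtain ⟨hw1, hw2⟩ := hz2
  set r : ℝ := ‖w‖ with hr
  have hr0 : 0 ≤ r := norm_nonneg w
  set θ : ℝ := Complex.arg w with hθ
  have hwexp : (r : ℂ) * Complex.exp ((θ : ℂ) * Complex.I) = w :=
    Complex.norm_mul_exp_arg_mul_I w
  obtain ⟨s, hs, hsθ⟩ : ∃ s : ℝ, (s = 1 ∨ s = -1) ∧ s * |θ| = θ := by
    rcases le_total 0 θ with h | h
    · exact ⟨1, Or.inl rfl, by rw [abs_of_nonneg h, one_mul]⟩
    · exact ⟨-1, Or.inr rfl, by rw [abs_of_nonpos h]; ring⟩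
  have hcos : ∀ t : ℝ, Real.cos (s * t) = Real.cos t := by
    intro t
    rcases hs with rfl | rfl
    · rw [one_mul]
    · rw [neg_one_mul, Real.cos_neg]
  set γ : ℝ → ℂ := fun t => ((r : ℂ) * Complex.exp (((s * t : ℝ) : ℂ) * Complex.I)) * u with hγ
  have hγc : Continuous γ := by
    rw [hγ]
    fun_prop
  have hθπ : |θ| ≤ Real.pi := Complex.abs_arg_le_pi w
  have hγ1 : γ |θ| = z := by
    simp only [hγ]
    rw [hsθ, hwexp, ← hzw]
  have hγ2 : γ Real.pi = (-(r : ℂ)) * u := by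
    simp only [hγ]
    have h2 : Complex.exp (((s * Real.pi : ℝ) : ℂ) * Complex.I) = -1 := by
      rcases hs with h | h
      · rw [h, one_mul, Complex.exp_pi_mul_I]
      · rw [h, neg_one_mul]
        push_cast
        rw [neg_mul, Complex.exp_neg, Complex.exp_pi_mul_I]
        norm_num
    rw [h2]
    ring
  have hγ3 : ∀ t ∈ Set.Icc |θ| Real.pi, γ t ∈ ball (0 : ℂ) 1 \ closedBall c η := by
    intro t ht
    simp only [hγ]
    rw [hmem]
    constructor
    · rw [norm_mul, Complex.norm_exp_ofReal_mul_I, mul_one, Complex.norm_real,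
        Real.norm_of_nonneg hr0]
      exact hw1
    · have h2 := BallCompl_norm r a (s * t)
      have h3 := BallCompl_norm r a θ
      rw [hwexp] at h3
      have h4 : Real.cos t ≤ Real.cos θ := by
        rw [← Real.cos_abs θ]
        exact Real.cos_le_cos_of_nonneg_of_le_pi (abs_nonneg θ) ht.2 ht.1
      rw [hcos] at h2
      have h5 : ‖w - a‖ ^ 2 ≤
          ‖(r : ℂ) * Complex.exp (((s * t : ℝ) : ℂ) * Complex.I) - (a : ℂ)‖ ^ 2 := by
        rw [h2, h3]
        have h6 : 0 ≤ 2 * r * a := by positivity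
        nlinarith [mul_le_mul_of_nonneg_left h4 h6]
      have h6 := (sq_le_sq₀ (norm_nonneg _) (norm_nonneg _)).1 h5
      exact lt_of_lt_of_le hw2 h6
  have hrT : r ∈ T := by
    refine ⟨⟨hr0, hw1⟩, ?_⟩
    rw [Set.mem_Ioi]
    have h2 : ‖w - a‖ ≤ r + a := by
      refine (norm_sub_le _ _).trans ?_
      rw [Complex.norm_real, Real.norm_of_nonneg ha0]
    linarith
  refine ⟨γ '' Set.Icc |θ| Real.pi ∪ (fun r : ℝ => (-(r : ℂ)) * u) '' T, ?_, ?_, ?_, ?_⟩
  · rintro _ (⟨t, ht, rfl⟩ | ⟨t, ht, rfl⟩)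
    · exact hγ3 t ht
    · have h2 : η - a < t := ht.2
      exact hseg t ht.1.1 ht.1.2 (by linarith)
  · refine Or.inr ⟨(1 + η) / 2, ⟨⟨by linarith, by linarith⟩, ?_⟩, rfl⟩
    rw [Set.mem_Ioi]
    linarith
  · exact Or.inl ⟨|θ|, ⟨le_rfl, hθπ⟩, hγ1⟩
  · exact IsPreconnected.union ((-(r : ℂ)) * u) ⟨Real.pi, ⟨hθπ, le_rfl⟩, hγ2⟩ ⟨r, hrT, rfl⟩
      (isPreconnected_Icc.image _ hγc.continuousOn) hSp

end Pool.Agent.W_cd67d3_h45
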