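import Pool.Agent.W_cd67d3_h45.Defs
import Pool.Agent.W_MP_cd67d3_gt.Mollify

/-!
# The blow-up of a homeomorphism at a point of differentiability
-/

namespace Pool.Agent.W_cd67d3_h45

open Metric Set Filter Topology
open Pool.Agent.W_MP_cd67d3_gt

attribute [local instance] homeoTopology

/-- The homothety with factor `1 / 2 ^ k`. -/
noncomputable def ho (n k : ℕ) : Eu n ≃ₜ Eu n :=
  (homot (E := Eu n) ((1 / 2 : ℝ) ^ k) (by positivity)).toHomeomorph

/-- Rescaling of a function which is differentiable at `0`. -/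
theorem Blowup_aux {n : ℕ} (g : Eu n → Eu n) (A : Eu n →L[ℝ] Eu n) (h0 : g 0 = 0)
    (hg : HasFDerivAt g A 0) (K : Set (Eu n)) (hK : IsCompact K) (a : ℝ) (ha : 0 < a) :
    ∀ᶠ k : ℕ in atTop, ∀ x ∈ K, dist (A x) (((1 / 2 : ℝ) ^ k)⁻¹ • g ((1 / 2 : ℝ) ^ k • x)) < a := by
  obtain ⟨R, hR⟩ := hK.isBounded.exists_norm_le
  set R' : ℝ := max R 1 with hR'
  have hR1 : 0 < R' := lt_of_lt_of_le one_pos (le_max_right _ _)
  have hRx : ∀ x ∈ K, ‖x‖ ≤ R' := fun x hx => (hR x hx).trans (le_max_left _ _)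
  set ε : ℝ := a / (2 * R') with hε
  have hε0 : 0 < ε := by positivity
  have h1 := (hasFDerivAt_iff_isLittleO_nhds_zero.1 hg).def hε0
  obtain ⟨δ, hδ, h2⟩ := Metric.eventually_nhds_iff.1 h1
  have h3 : Tendsto (fun k : ℕ => (1 / 2 : ℝ) ^ k * R') atTop (𝓝 0) := by
    have h4 := (tendsto_pow_atTop_nhds_zero_of_lt_one (by norm_num : (0 : ℝ) ≤ 1 / 2)
      (by norm_num : (1 / 2 : ℝ) < 1)).mul_const R'
    rwa [zero_mul] at h4
  filter_upwards [h3.eventually (gt_mem_nhds hδ)] with k hk x hx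
  have hc : (0 : ℝ) < (1 / 2 : ℝ) ^ k := by positivity
  have h4 : ‖(1 / 2 : ℝ) ^ k • x‖ ≤ (1 / 2 : ℝ) ^ k * R' := by
    rw [norm_smul, Real.norm_of_nonneg hc.le]
    exact mul_le_mul_of_nonneg_left (hRx x hx) hc.le
  have h5 := h2 (y := (1 / 2 : ℝ) ^ k • x) (by
    rw [dist_zero_right]
    exact lt_of_le_of_lt h4 hk)
  rw [zero_add, h0, sub_zero, map_smul] at h5
  have h6 : ((1 / 2 : ℝ) ^ k)⁻¹ • g ((1 / 2 : ℝ) ^ k • x) - A x =
      ((1 / 2 : ℝ) ^ k)⁻¹ • (g ((1 / 2 : ℝ) ^ k • x) - (1 / 2 : ℝ) ^ k • A x) := by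
    rw [smul_sub, smul_smul, inv_mul_cancel₀ hc.ne', one_smul]
  rw [dist_comm, dist_eq_norm, h6, norm_smul, norm_inv, Real.norm_of_nonneg hc.le]
  calc ((1 / 2 : ℝ) ^ k)⁻¹ * ‖g ((1 / 2 : ℝ) ^ k • x) - (1 / 2 : ℝ) ^ k • A x‖
      ≤ ((1 / 2 : ℝ) ^ k)⁻¹ * (ε * ((1 / 2 : ℝ) ^ k * R')) := by
        refine mul_le_mul_of_nonneg_left ?_ (by positivity)
        exact h5.trans (mul_le_mul_of_nonneg_left h4 hε0.le)
    _ = a / 2 := by
        rw [hε]
        field_simp
    _ < a := by linarith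

/-- Proof. `((ho n k)⁻¹ * f * ho n k) x = 2 ^ k • f ((1 / 2) ^ k • x)`, which tends to `L x` uniformly on
bounded sets by the definition of the derivative. The inverse is
`2 ^ k • f.symm ((1 / 2) ^ k • x)`, and `f.symm` has the derivative `L.symm` at `0`
(`HasFDerivAt.of_local_left_inverse`). Use `tendsto_iff` and
`ContinuousMap.tendsto_iff_forall_isCompact_tendstoUniformlyOn` as in `tendsto_one` of `Mollify.lean`. -/
theorem blowup {n : ℕ} (f : Eu n ≃ₜ Eu n) (L : Eu n ≃L[ℝ] Eu n) (h0 : f 0 = 0)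
    (hf : HasFDerivAt (fun x => f x) (L : Eu n →L[ℝ] Eu n) 0) :
    Tendsto (fun k : ℕ => (ho n k)⁻¹ * f * ho n k) atTop (𝓝 L.toHomeomorph) := by
  have h0' : f.symm 0 = 0 := by
    rw [Homeomorph.symm_apply_eq, h0]
  have hf' : HasFDerivAt (fun x => f.symm x) (L.symm : Eu n →L[ℝ] Eu n) 0 := by
    refine HasFDerivAt.of_local_left_inverse (f := fun x => f x) (f' := L)
      f.symm.continuous.continuousAt ?_ (Eventually.of_forall fun y => f.apply_symm_apply y)
    rw [h0']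
    exact hf
  rw [tendsto_iff]
  refine Tendsto.prodMk_nhds ?_ ?_
  · rw [ContinuousMap.tendsto_iff_forall_isCompact_tendstoUniformlyOn]
    intro K hK
    rw [Metric.tendstoUniformlyOn_iff]
    intro a ha
    filter_upwards [Blowup_aux (fun x => f x) (L : Eu n →L[ℝ] Eu n) h0 hf K hK a ha] with k hk x hx
    exact hk x hx
  · rw [ContinuousMap.tendsto_iff_forall_isCompact_tendstoUniformlyOn]
    intro K hK
    rw [Metric.tendstoUniformlyOn_iff]
    intro a ha
    filter_upwards [Blowup_aux (fun x => f.symm x) (L.symm : Eu n →L[ℝ] Eu n) h0' hf' K hK a ha]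
      with k hk x hx
    exact hk x hx

/-- Powers of homotheties. -/
theorem Blowup_pow {n : ℕ} (c : ℝ) (hc : c ≠ 0) (m : ℕ) (x : Eu n) :
    (((homot (E := Eu n) c hc).toHomeomorph) ^ m) x = c ^ m • x := by
  induction m generalizing x with
  | zero => rw [pow_zero, pow_zero, one_smul, Homeomorph.one_apply]
  | succ m ih =>
    rw [pow_succ, Homeomorph.mul_apply, ih]
    change c ^ m • (c • x) = c ^ (m + 1) • x
    rw [smul_smul, ← pow_succ]

/-- Proof. As `scale_pos_mem` in `Linear.lean`: it is enough to treat `k = 1` (`ho n k = ho n 1 ^ k`), and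
`ho n 1` is the `m`-th power of the homothety with factor `c = exp (- log 2 / m)`, which is `x + L x` with
`L = (c - 1) • id` of small norm; `near_id_mem`. -/
theorem ho_mem {n : ℕ} {H : Subgroup (Eu n ≃ₜ Eu n)} (hcl : IsClosed (H : Set (Eu n ≃ₜ Eu n)))
    (hD : compDiffeo (Eu n) ⊤ ⊆ H) (k : ℕ) : ho n k ∈ H := by
  set d : ℝ := (1 / 2 : ℝ) ^ k with hd
  have hd0 : 0 < d := by positivity
  obtain ⟨η, hη, hnear⟩ := near_id_mem (Eu n)
  have hlim : Tendsto (fun m : ℕ => Real.exp (Real.log d / m) - 1) atTop (𝓝 0) := by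
    have h1 : Tendsto (fun m : ℕ => Real.log d / (m : ℝ)) atTop (𝓝 0) :=
      tendsto_const_div_atTop_nhds_zero_nat _
    have h2 : Tendsto (fun m : ℕ => Real.exp (Real.log d / m)) atTop (𝓝 (Real.exp 0)) :=
      (Real.continuous_exp.tendsto 0).comp h1
    rw [Real.exp_zero] at h2
    simpa using h2.sub_const 1
  have h3 : ∀ᶠ m : ℕ in atTop, |Real.exp (Real.log d / m) - 1| < η := by
    have := hlim.abs
    rw [abs_zero] at this
    exact this.eventually (gt_mem_nhds hη)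
  obtain ⟨m, hm1, hm2⟩ := (h3.and (eventually_ge_atTop 1)).exists
  have hm0 : (m : ℝ) ≠ 0 := by
    have : (1 : ℝ) ≤ m := by exact_mod_cast hm2
    linarith
  set c : ℝ := Real.exp (Real.log d / m) with hc
  have hc0 : c ≠ 0 := (Real.exp_pos _).ne'
  have e : ho n k = ((homot (E := Eu n) c hc0).toHomeomorph) ^ m := by
    refine Homeomorph.ext fun x => ?_
    rw [Blowup_pow, hc, ← Real.exp_nat_mul, mul_div_cancel₀ _ hm0, Real.exp_log hd0]
    rfl
  rw [e]
  apply pow_mem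
  refine hnear ⊤ le_top H hcl hD _ ((c - 1) • ContinuousLinearMap.id ℝ (Eu n)) (fun x => ?_) ?_
  · change c • x = x + (c - 1) • x
    rw [sub_smul, one_smul]
    abel
  · rw [norm_smul, Real.norm_eq_abs]
    calc |c - 1| * ‖ContinuousLinearMap.id ℝ (Eu n)‖ ≤ |c - 1| * 1 :=
          mul_le_mul_of_nonneg_left ContinuousLinearMap.norm_id_le (abs_nonneg _)
      _ ≤ η := by rw [mul_one]; exact hm1.le

end Pool.Agent.W_cd67d3_h45
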