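import Pool.Agent.W_cd67d3_h45.Sector
import Pool.Agent.W_cd67d3_h45.ArcConst

/-!
# The boundary values are injective
-/

namespace Pool.Agent.W_cd67d3_h45

open Metric Set Filter Topology

/-- Proof. Let `F ζ₁ = F ζ₂` with `ζ₁ ≠ ζ₂` in the sphere. Apply `sector` to `z ↦ F (-ζ₁ * z)` with the
inverse `w ↦ (-ζ₁)⁻¹ * φ (v w)`; `β = arg (ζ₂ / (-ζ₁))` is in `(-π, π)` as `ζ₂ ≠ ζ₁`. So `F` is
constant on an arc, and so is `g z = v (F (-ζ₁ * z))`, which is continuous on the closed ball and equal to the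
holomorphic function `ψ (-ζ₁ * z)` on the ball. By `arc_const` it is constant on the ball, but `ψ` is
injective. -/
theorem ext_inj {v : ℂ ≃ₜ ℂ} {ψ φ : ℂ → ℂ} (h : Conf v ψ φ) {F : ℂ → ℂ}
    (hF : ContinuousOn F (closedBall 0 1)) (hu : ∀ z ∈ ball (0 : ℂ) 1, F z = v.symm (ψ z))
    (hm : MapsTo F (sphere 0 1) (sphere 0 1)) : InjOn F (sphere 0 1) := by
  intro ζ₁ h1 ζ₂ h2 h12
  by_contra hne
  rw [mem_sphere_zero_iff_norm] at h1 h2
  set c : ℂ := -ζ₁ with hcdef
  have hc1 : ‖c‖ = 1 := by rw [hcdef, norm_neg, h1]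
  have hc0 : c ≠ 0 := by
    rw [← norm_ne_zero_iff, hc1]
    norm_num
  have hcb : ∀ z ∈ ball (0 : ℂ) 1, c * z ∈ ball (0 : ℂ) 1 := by
    intro z hz
    rw [mem_ball_zero_iff] at hz ⊢
    rw [norm_mul, hc1, one_mul]
    exact hz
  have hccb : MapsTo (fun z => c * z) (closedBall (0 : ℂ) 1) (closedBall 0 1) := by
    intro z hz
    rw [mem_closedBall_zero_iff] at hz ⊢
    change ‖c * z‖ ≤ 1
    rw [norm_mul, hc1, one_mul]
    exact hz
  have hcs : MapsTo (fun z => c * z) (sphere (0 : ℂ) 1) (sphere 0 1) := by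
    intro z hz
    rw [mem_sphere_zero_iff_norm] at hz ⊢
    change ‖c * z‖ = 1
    rw [norm_mul, hc1, one_mul]
    exact hz
  have hcm : Continuous fun z : ℂ => c * z := continuous_const.mul continuous_id
  have hF' : ContinuousOn (fun z => F (c * z)) (closedBall 0 1) :=
    hF.comp hcm.continuousOn hccb
  have mF' : MapsTo (fun z => F (c * z)) (ball 0 1) (ball 0 1) := by
    intro z hz
    change F (c * z) ∈ ball (0 : ℂ) 1
    rw [hu _ (hcb z hz)]
    obtain ⟨y, hy, hy2⟩ := h.mψ (hcb z hz)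
    rw [← hy2, Homeomorph.symm_apply_apply]
    exact hy
  have hvm : MapsTo v (ball (0 : ℂ) 1) (v '' ball 0 1) := mapsTo_image v _
  have hG : ContinuousOn (fun w => c⁻¹ * φ (v w)) (ball 0 1) := by
    refine continuousOn_const.mul ?_
    exact h.dφ.continuousOn.comp v.continuous.continuousOn hvm
  have mG : MapsTo (fun w => c⁻¹ * φ (v w)) (ball 0 1) (ball 0 1) := by
    intro w hw
    have h3 := h.mφ (hvm hw)
    rw [mem_ball_zero_iff] at h3 ⊢
    change ‖c⁻¹ * φ (v w)‖ < 1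
    rw [norm_mul, norm_inv, hc1, inv_one, one_mul]
    exact h3
  have hl : ∀ z ∈ ball (0 : ℂ) 1, c⁻¹ * φ (v (F (c * z))) = z := by
    intro z hz
    rw [hu _ (hcb z hz), Homeomorph.apply_symm_apply, h.l _ (hcb z hz)]
    field_simp
  have hr : ∀ w ∈ ball (0 : ℂ) 1, F (c * (c⁻¹ * φ (v w))) = w := by
    intro w hw
    rw [← mul_assoc, mul_inv_cancel₀ hc0, one_mul, hu _ (h.mφ (hvm hw)), h.r _ (hvm hw),
      Homeomorph.symm_apply_apply]
  have hs' : MapsTo (fun z => F (c * z)) (sphere 0 1) (sphere 0 1) := hm.comp hcs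
  set β : ℝ := Complex.arg (ζ₂ / c) with hβdef
  have hnorm : ‖ζ₂ / c‖ = 1 := by rw [norm_div, h2, hc1, div_one]
  have hexp : Complex.exp (β * Complex.I) = ζ₂ / c := by
    have h3 := Complex.norm_mul_exp_arg_mul_I (ζ₂ / c)
    rw [hnorm] at h3
    simpa using h3
  have hβ : β ∈ Ioo (-Real.pi) Real.pi := by
    refine ⟨Complex.neg_pi_lt_arg _, lt_of_le_of_ne (Complex.arg_le_pi _) ?_⟩
    intro hπ
    rw [hπ, Complex.exp_pi_mul_I] at hexp
    have h3 : ζ₂ = -c := by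
      rw [eq_comm, div_eq_iff hc0] at hexp
      rw [hexp]
      ring
    apply hne
    rw [h3, hcdef, neg_neg]
  have he : F (c * Complex.exp (β * Complex.I)) = F (c * (-1)) := by
    rw [hexp, mul_div_cancel₀ _ hc0]
    have h3 : c * (-1) = ζ₁ := by
      rw [hcdef]
      ring
    rw [h3, h12]
  have key : ∃ α ε : ℝ, 0 < ε ∧ ∀ t : ℝ, |t - α| < ε →
      F (c * Complex.exp (t * Complex.I)) = F (c * (-1)) := by
    rcases sector hF' mF' hG mG hl hr hs' hβ he with h3 | h3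
    · refine ⟨(-Real.pi + β) / 2, (β + Real.pi) / 2, by linarith [hβ.1], fun t ht => h3 t ?_⟩
      rw [abs_lt] at ht
      constructor <;> linarith [ht.1, ht.2]
    · refine ⟨(β + Real.pi) / 2, (Real.pi - β) / 2, by linarith [hβ.2], fun t ht => h3 t ?_⟩
      rw [abs_lt] at ht
      constructor <;> linarith [ht.1, ht.2]
  obtain ⟨α, ε, hε, hαε⟩ := key
  have hgc : ContinuousOn (fun z => v (F (c * z))) (closedBall 0 1) :=
    v.continuous.comp_continuousOn hF'
  have hgeq : ∀ z ∈ ball (0 : ℂ) 1, v (F (c * z)) = ψ (c * z) := by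
    intro z hz
    rw [hu _ (hcb z hz), Homeomorph.apply_symm_apply]
  have hgd : DifferentiableOn ℂ (fun z => v (F (c * z))) (ball 0 1) := by
    have h3 : DifferentiableOn ℂ (fun z => ψ (c * z)) (ball 0 1) :=
      h.dψ.comp ((differentiable_id.const_mul c).differentiableOn) hcb
    exact h3.congr hgeq
  have hconst := arc_const hgc hgd (c := v (F (c * (-1)))) hε (fun t ht => by
    rw [hαε t ht])
  have hz0 : (0 : ℂ) ∈ ball (0 : ℂ) 1 := by simp
  have hz1 : (1 / 2 : ℂ) ∈ ball (0 : ℂ) 1 := by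
    rw [mem_ball_zero_iff]
    norm_num
  have e0 := hconst 0 hz0
  have e1 := hconst (1 / 2) hz1
  rw [hgeq 0 hz0] at e0
  rw [hgeq _ hz1] at e1
  have e2 : c * 0 = c * (1 / 2) := by
    rw [← h.l _ (hcb _ hz0), ← h.l _ (hcb _ hz1), e0, e1]
  have e3 := mul_left_cancel₀ hc0 e2
  norm_num at e3

end Pool.Agent.W_cd67d3_h45
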