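import Pool.Agent.W_cd67d3_h45.ExtU
import Pool.Agent.W_cd67d3_h45.ExtInj

/-!
# Carathéodory's theorem
-/

namespace Pool.Agent.W_cd67d3_h45

open Metric Set Filter Topology

/-- Proof. `F` from `ext_u`. It is injective on the sphere (`ext_inj`) and on the ball, maps the ball into
the ball and the sphere into the sphere, so it is injective on the closed ball; it is onto the closed ball
(`ext_u`), so the sphere is mapped onto the sphere. -/
theorem carath {v : ℂ ≃ₜ ℂ} {ψ φ : ℂ → ℂ} (h : Conf v ψ φ) :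
    ∃ F : ℂ → ℂ, ContinuousOn F (closedBall 0 1) ∧
      BijOn F (closedBall 0 1) (closedBall 0 1) ∧ BijOn F (sphere 0 1) (sphere 0 1) ∧
      ∀ z ∈ ball (0 : ℂ) 1, F z = v.symm (ψ z) := by
  obtain ⟨F, hc, hu, hm, hs⟩ := ext_u h
  have hi := ext_inj h hc hu hm
  have hb : ∀ z ∈ ball (0 : ℂ) 1, F z ∈ ball (0 : ℂ) 1 := by
    intro z hz
    obtain ⟨w, hw, hwz⟩ := h.mψ hz
    rw [hu z hz, ← hwz, Homeomorph.symm_apply_apply]
    exact hw
  have hib : InjOn F (ball 0 1) := by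
    intro x hx y hy hxy
    rw [hu x hx, hu y hy] at hxy
    have h1 := v.symm.injective hxy
    rw [← h.l x hx, ← h.l y hy, h1]
  have hcs : ∀ z ∈ closedBall (0 : ℂ) 1, z ∈ ball (0 : ℂ) 1 ∨ z ∈ sphere (0 : ℂ) 1 := by
    intro z hz
    rw [mem_closedBall] at hz
    rcases hz.lt_or_eq with h1 | h1
    · exact Or.inl (mem_ball.2 h1)
    · exact Or.inr (mem_sphere.2 h1)
  have hne : ∀ x ∈ ball (0 : ℂ) 1, ∀ y ∈ sphere (0 : ℂ) 1, F x ≠ F y := by
    intro x hx y hy hxy
    have h1 := mem_ball.1 (hb x hx)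
    rw [hxy, mem_sphere.1 (hm hy)] at h1
    exact lt_irrefl _ h1
  refine ⟨F, hc, ⟨?_, ?_, hs⟩, ⟨hm, hi, ?_⟩, hu⟩
  · intro z hz
    rcases hcs z hz with h1 | h1
    · exact ball_subset_closedBall (hb z h1)
    · exact sphere_subset_closedBall (hm h1)
  · intro x hx y hy hxy
    rcases hcs x hx with h1 | h1 <;> rcases hcs y hy with h2 | h2
    · exact hib h1 h2 hxy
    · exact absurd hxy (hne x h1 y h2)
    · exact absurd hxy.symm (hne y h2 x h1)
    · exact hi h1 h2 hxy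
  · intro y hy
    obtain ⟨x, hx, hxy⟩ := hs (sphere_subset_closedBall hy)
    rcases hcs x hx with h1 | h1
    · exfalso
      have h2 := mem_ball.1 (hb x h1)
      rw [hxy, mem_sphere.1 hy] at h2
      exact lt_irrefl _ h2
    · exact ⟨x, h1, hxy⟩

end Pool.Agent.W_cd67d3_h45
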