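import Pool.Agent.W_cd67d3_h45.Defs
import Pool.Agent.W_d1cfb0_h45.LiftFix

/-!
# Homeomorphisms of the circle in terms of lifts
-/

namespace Pool.Agent.W_cd67d3_h45

open Metric Set Filter Topology

theorem CircleLift_norm (t : ℝ) : ‖ee t‖ = 1 := by
  rw [ee, show (2 * Real.pi * t * Complex.I : ℂ) = ((2 * Real.pi * t : ℝ) : ℂ) * Complex.I by
    push_cast; ring]
  exact Complex.norm_exp_ofReal_mul_I _

theorem CircleLift_cont : Continuous ee := by
  unfold ee
  fun_prop

theorem CircleLift_add (x y : ℝ) : ee (x + y) = ee x * ee y := by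
  rw [ee, ee, ee, ← Complex.exp_add]
  congr 1
  push_cast
  ring

theorem CircleLift_iff (s t : ℝ) : ee s = ee t ↔ ∃ n : ℤ, s = t + n := by
  rw [ee, ee, Complex.exp_eq_exp_iff_exists_int]
  have hpi : (2 * Real.pi * Complex.I : ℂ) ≠ 0 := by
    simp [Real.pi_ne_zero]
  refine exists_congr fun n => ?_
  constructor
  · intro h
    have h1 : (2 * Real.pi * Complex.I : ℂ) * (s : ℂ) = (2 * Real.pi * Complex.I) * (t + n) := by
      linear_combination h
    have h2 := mul_left_cancel₀ hpi h1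
    exact_mod_cast h2
  · intro h
    rw [h]
    push_cast
    ring

theorem CircleLift_exists (x : ℂ) (hx : x ∈ sphere (0 : ℂ) 1) : ∃ t : ℝ, x = ee t := by
  have hn : ‖x‖ = 1 := by simpa using hx
  refine ⟨Complex.arg x / (2 * Real.pi), ?_⟩
  have h1 := Complex.norm_mul_exp_arg_mul_I x
  rw [hn] at h1
  rw [ee, ← h1]
  have h2 : (2 * Real.pi * ((Complex.arg x / (2 * Real.pi) : ℝ) : ℂ) * Complex.I : ℂ)
      = Complex.arg x * Complex.I := by
    have hpi : (Real.pi : ℂ) ≠ 0 := by simp [Real.pi_ne_zero]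
    push_cast
    field_simp
  rw [Complex.ofReal_one, one_mul] at h1 ⊢
  rw [h1, h2, h1]

/-- Proof. `s` restricted to the sphere is a homeomorphism (continuous bijection of a compact Hausdorff
space); compose it with a rotation so that it fixes `ee 0 = 1`: `h x = s x / s 1`, and apply
`W_d1cfb0_h45.lift_fix` with `X = sphere 0 1` and `e t = ee t` (`ee s = ee t` iff `s - t` is an
integer: `Complex.exp_eq_exp_iff_exists_int`). `α` is a number with `ee α = s 1`. Use
`ee (x + y) = ee x * ee y`. -/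
theorem circle_lift {s : ℂ → ℂ} (hs : ContinuousOn s (sphere 0 1))
    (hb : BijOn s (sphere 0 1) (sphere 0 1)) :
    ∃ (α : ℝ) (b : ℝ ≃o ℝ), (∀ t, b (t + 1) = b t + 1) ∧
      ((∀ t, s (ee t) = ee (α + b t)) ∨ (∀ t, s (ee t) = ee (α - b t))) := by
  have h1s : (1 : ℂ) ∈ sphere (0 : ℂ) 1 := by simp
  have hee0 : ee 0 = 1 := by simp [ee]
  have hns : ∀ x ∈ sphere (0 : ℂ) 1, ‖s x‖ = 1 := by
    intro x hx
    have := hb.mapsTo hx
    simpa using this
  have hn1 : ‖s 1‖ = 1 := hns 1 h1s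
  have hs1 : s 1 ≠ 0 := by
    intro h
    rw [h] at hn1
    simp at hn1
  have hmem : ∀ x : sphere (0 : ℂ) 1, s x / s 1 ∈ sphere (0 : ℂ) 1 := by
    intro x
    rw [mem_sphere_zero_iff_norm, norm_div, hns x x.2, hn1, div_one]
  let f : sphere (0 : ℂ) 1 → sphere (0 : ℂ) 1 := fun x => ⟨s x / s 1, hmem x⟩
  have hfc : Continuous f := by
    apply Continuous.subtype_mk
    exact (continuousOn_iff_continuous_restrict.1 hs).div_const _
  have hfb : Function.Bijective f := by
    constructor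
    · intro x y hxy
      have h1 : s x / s 1 = s y / s 1 := congrArg Subtype.val hxy
      have h2 : s x = s y := by
        rw [div_left_inj' hs1] at h1
        exact h1
      exact Subtype.ext (hb.injOn x.2 y.2 h2)
    · intro y
      have h1 : (y : ℂ) * s 1 ∈ sphere (0 : ℂ) 1 := by
        rw [mem_sphere_zero_iff_norm, norm_mul, hn1, mul_one]
        simpa using y.2
      obtain ⟨x, hx, hxy⟩ := hb.surjOn h1
      refine ⟨⟨x, hx⟩, Subtype.ext ?_⟩
      change s x / s 1 = y
      rw [hxy, mul_div_assoc, div_self hs1, mul_one]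
  let E : sphere (0 : ℂ) 1 ≃ sphere (0 : ℂ) 1 := Equiv.ofBijective f hfb
  have hE : Continuous E := hfc
  let h : sphere (0 : ℂ) 1 ≃ₜ sphere (0 : ℂ) 1 := hE.homeoOfEquivCompactToT2
  have hh : ∀ x, ((h x : sphere (0 : ℂ) 1) : ℂ) = s x / s 1 := fun x => rfl
  let e : ℝ → sphere (0 : ℂ) 1 := fun t => ⟨ee t, by
    rw [mem_sphere_zero_iff_norm]
    exact CircleLift_norm t⟩
  have hec : Continuous e := CircleLift_cont.subtype_mk _
  have hev : ∀ t, ((e t : sphere (0 : ℂ) 1) : ℂ) = ee t := fun t => rfl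
  have hsurj : ∀ x : sphere (0 : ℂ) 1, ∃ t, x = e t := by
    intro x
    obtain ⟨t, ht⟩ := CircleLift_exists x x.2
    exact ⟨t, Subtype.ext ht⟩
  obtain ⟨b, hb1, hb2⟩ := Pool.Agent.W_d1cfb0_h45.lift_fix e hec (fun s t => by
    rw [Subtype.ext_iff]
    exact CircleLift_iff s t) h (fun t => hsurj _) (fun t => hsurj _) (by
      apply Subtype.ext
      rw [hh, hev, hee0, div_self hs1])
  obtain ⟨α, hα⟩ := CircleLift_exists (s 1) (hb.mapsTo h1s)
  have key : ∀ t u : ℝ, h (e t) = e u → s (ee t) = ee (α + u) := by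
    intro t u htu
    have h1 : s (ee t) / s 1 = ee u := congrArg Subtype.val htu
    rw [div_eq_iff hs1] at h1
    rw [h1, CircleLift_add, hα, mul_comm]
  refine ⟨α, b, hb1, ?_⟩
  rcases hb2 with hb2 | hb2
  · exact Or.inl fun t => key t _ (hb2 t)
  · refine Or.inr fun t => ?_
    rw [sub_eq_add_neg]
    exact key t _ (hb2 t)

end Pool.Agent.W_cd67d3_h45
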