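import Pool.Agent.W_cd67d3_h45.Step

/-!
# The step for finitely many disjoint discs
-/

namespace Pool.Agent.W_cd67d3_h45

open Metric Set Filter Topology

/-- a homeomorphism which is the identity outside a ball maps the ball into itself -/
lemma ColorStep_ball (B : ℂ ≃ₜ ℂ) {c : ℂ} {ρ : ℝ} (h : ∀ x, ρ ≤ dist x c → B x = x) {x : ℂ}
    (hx : dist x c < ρ) : dist (B x) c < ρ := by
  by_contra hn
  rw [not_lt] at hn
  have h1 := B.injective (h _ hn)
  rw [h1] at hn
  exact absurd hx (not_lt.mpr hn)

/-- Proof. Induction on `C`. For `insert c C` let `A'`, `τ'` belong to `g`, `C` and `A''`, `τ''` (from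
`step`) to `g ∘ A'` and `c`; take `A = A' ∘ A''`, `τ = τ' ∘ τ''`. `A''` and `τ''` are the identity
where `R + η ≤ dist x c`, so they map `ball c (R + η)` onto itself, and `A'`, `τ'` are the identity on this
ball (its points have distance more than `R + η` from the points of `C`). Bad point `x` of
`g ∘ A' ∘ A''`: `R ≤ dist x c` and `τ'' x` is bad for `g ∘ A'` (`step`), so
`R ≤ dist (τ'' x) c'` for `c' ∈ C` and `τ' (τ'' x)` is bad for `g`. If `R + η ≤ dist x c` then `τ'' x = x`;
otherwise `dist x c' > R + η` for `c' ∈ C`. In both cases `R ≤ dist x c'`. A point moved by `A''` is in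
`ball c (R + η)` as is its image, so it is moved by less than `2 (R + η)`. -/
theorem color_step (g : ℂ ≃ₜ ℂ) (C : Finset ℂ) {R η : ℝ} (hη : 0 < η) (hR : η < R)
    (hC : ∀ c ∈ C, ∀ c' ∈ C, c ≠ c' → 2 * (R + η) < dist c c') :
    ∃ A τ : ℂ ≃ₜ ℂ, (∀ x, (∀ c ∈ C, R + η ≤ dist x c) → A x = x ∧ τ x = x) ∧
      (∀ x, dist (A x) x ≤ 2 * (R + η)) ∧ (∀ x, dist (τ x) x ≤ η) ∧
      ∀ x, ¬ DifferentiableAt ℝ (fun y => g (A y)) x →
        (∀ c ∈ C, R ≤ dist x c) ∧ ¬ DifferentiableAt ℝ (fun y => g y) (τ x) := by
  classical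
  induction C using Finset.induction_on with
  | empty =>
    refine ⟨Homeomorph.refl ℂ, Homeomorph.refl ℂ, fun x _ => ⟨rfl, rfl⟩, fun x => ?_, fun x => ?_,
      fun x hx => ⟨fun c hc => absurd hc (Finset.notMem_empty c), hx⟩⟩
    · show dist x x ≤ _
      rw [dist_self]
      linarith
    · show dist x x ≤ _
      rw [dist_self]
      exact hη.le
  | insert c C hc ih =>
    obtain ⟨A', τ', hid', hA', hτ', hbad'⟩ := ih (fun a ha b hb hab =>
      hC a (Finset.mem_insert_of_mem ha) b (Finset.mem_insert_of_mem hb) hab)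
    obtain ⟨A'', τ'', hAid, hτid, hτ2, hin, hout⟩ := step (A'.trans g) c hη hR
    have hfar : ∀ x, dist x c < R + η → ∀ c' ∈ C, R + η < dist x c' := by
      intro x hx c' hc'
      have h1 := hC c (Finset.mem_insert_self c C) c' (Finset.mem_insert_of_mem hc') (by
        rintro rfl
        exact hc hc')
      have h2 : dist c c' ≤ dist x c + dist x c' := by
        have h3 := dist_triangle_left c c' x
        exact h3
      linarith
    have hfix : ∀ x, dist x c < R + η → A' x = x ∧ τ' x = x := fun x hx =>
      hid' x (fun c' hc' => (hfar x hx c' hc').le)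
    refine ⟨A''.trans A', τ''.trans τ', ?_, ?_, ?_, ?_⟩
    · intro x hx
      have h1 := hx c (Finset.mem_insert_self c C)
      have h2 := hid' x (fun c' hc' => hx c' (Finset.mem_insert_of_mem hc'))
      refine ⟨?_, ?_⟩
      · show A' (A'' x) = x
        rw [hAid x h1, h2.1]
      · show τ' (τ'' x) = x
        rw [hτid x h1, h2.2]
    · intro x
      show dist (A' (A'' x)) x ≤ _
      by_cases h : dist x c < R + η
      · have h1 := ColorStep_ball A'' hAid h
        rw [(hfix _ h1).1]
        have h2 := dist_triangle_right (A'' x) x c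
        linarith
      · rw [hAid x (not_lt.mp h)]
        exact hA' x
    · intro x
      show dist (τ' (τ'' x)) x ≤ _
      by_cases h : dist x c < R + η
      · have h1 := ColorStep_ball τ'' hτid h
        rw [(hfix _ h1).2]
        exact hτ2 x
      · rw [hτid x (not_lt.mp h)]
        exact hτ' x
    · intro x hx
      have h0 : ¬ DifferentiableAt ℝ (fun y => (A'.trans g) (A'' y)) x := hx
      have h1 : R ≤ dist x c := by
        by_contra hn
        exact h0 (hin x (not_le.mp hn))
      have h2 : ¬ DifferentiableAt ℝ (fun y => (A'.trans g) y) (τ'' x) := fun h =>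
        h0 (hout x h1 h)
      obtain ⟨h3, h4⟩ := hbad' (τ'' x) h2
      refine ⟨?_, h4⟩
      intro c' hc'
      rcases Finset.mem_insert.mp hc' with rfl | h5
      · exact h1
      · by_cases h : dist x c < R + η
        · have h6 := hfar x h c' h5
          linarith
        · have h6 := h3 c' h5
          rw [hτid x (not_lt.mp h)] at h6
          exact h6

end Pool.Agent.W_cd67d3_h45
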