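import Mathlib

/-!
# Definitions for the differentiable topological generators of the homeomorphism group of the plane
-/

namespace Pool.Agent.W_cd67d3_h45

open Metric Set

/-- The functions in the extremal problem of Riemann's mapping theorem: injective holomorphic maps
of `U` into the unit disc with `f a = 0`. -/
structure Fam (U : Set ℂ) (a : ℂ) (f : ℂ → ℂ) : Prop where
  d : DifferentiableOn ℂ f U
  m : MapsTo f U (ball 0 1)
  i : InjOn f U
  z : f a = 0

/-- `ψ` is a conformal map of the unit disc onto `v (ball 0 1)`, with inverse `φ`. -/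
structure Conf (v : ℂ ≃ₜ ℂ) (ψ φ : ℂ → ℂ) : Prop where
  dψ : DifferentiableOn ℂ ψ (ball 0 1)
  dφ : DifferentiableOn ℂ φ (v '' ball 0 1)
  mψ : MapsTo ψ (ball 0 1) (v '' ball 0 1)
  mφ : MapsTo φ (v '' ball 0 1) (ball 0 1)
  l : ∀ z ∈ ball (0 : ℂ) 1, φ (ψ z) = z
  r : ∀ w ∈ v '' ball (0 : ℂ) 1, ψ (φ w) = w

/-- The mean value over `[θ - s, θ + s]` of the periodic function `b t - t` (its value at `θ` if
`s = 0`). -/
noncomputable def avg (b : ℝ → ℝ) (θ s : ℝ) : ℝ :=
  if s = 0 then b θ - θ else (∫ t in (θ - s)..(θ + s), (b t - t)) / (2 * s)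

/-- The point `exp (2 π i t)` of the unit circle. -/
noncomputable def ee (t : ℝ) : ℂ := Complex.exp (2 * Real.pi * t * Complex.I)

/-- `g` is differentiable at `x`. -/
def Good (g : ℂ ≃ₜ ℂ) (x : ℂ) : Prop := DifferentiableAt ℝ (fun y => g y) x

end Pool.Agent.W_cd67d3_h45
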