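import Pool.Agent.W_cd67d3_h45.Defs

/-!
# Sixteen colours for the points of a square grid
-/

namespace Pool.Agent.W_cd67d3_h45

open Metric Set Filter Topology

/-- the grid points -/
noncomputable def Grid_P (δ : ℝ) (p : ℤ × ℤ) : ℂ := ⟨δ * p.1, δ * p.2⟩

/-- the colour -/
def Grid_col (p : ℤ × ℤ) : ℤ := 4 * (p.1 % 4) + p.2 % 4

open Classical in
/-- the grid points of one colour -/
noncomputable def Grid_C (δ M : ℝ) (N k : ℤ) : Finset ℂ :=
  (((Finset.Icc (-N) N) ×ˢ (Finset.Icc (-N) N)).filter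
    (fun p => Grid_col p = k ∧ ‖Grid_P δ p‖ ≤ M + δ)).image (Grid_P δ)

theorem Grid_mem_C {δ M : ℝ} {N k : ℤ} {c : ℂ} : c ∈ Grid_C δ M N k ↔
    ∃ p : ℤ × ℤ, ((-N ≤ p.1 ∧ p.1 ≤ N) ∧ (-N ≤ p.2 ∧ p.2 ≤ N)) ∧
      (Grid_col p = k ∧ ‖Grid_P δ p‖ ≤ M + δ) ∧ Grid_P δ p = c := by
  unfold Grid_C
  rw [Finset.mem_image]
  constructor
  · rintro ⟨p, hp, rfl⟩
    rw [Finset.mem_filter, Finset.mem_product, Finset.mem_Icc, Finset.mem_Icc] at hp
    exact ⟨p, hp.1, hp.2, rfl⟩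
  · rintro ⟨p, h1, h2, rfl⟩
    refine ⟨p, ?_, rfl⟩
    rw [Finset.mem_filter, Finset.mem_product, Finset.mem_Icc, Finset.mem_Icc]
    exact ⟨h1, h2⟩

theorem Grid_far {δ : ℝ} (hδ : 0 < δ) {m m' : ℤ} (h : 4 ≤ |m - m'|) :
    4 * δ ≤ |δ * (m : ℝ) - δ * (m' : ℝ)| := by
  rw [← mul_sub, abs_mul, abs_of_pos hδ]
  have h1 : (4 : ℝ) ≤ |(m : ℝ) - (m' : ℝ)| := by exact_mod_cast h
  nlinarith

theorem Grid_round {δ : ℝ} (hδ : 0 < δ) (t : ℝ) : |t - δ * (round (t / δ) : ℝ)| ≤ δ / 2 := by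
  have h1 := abs_sub_round (t / δ)
  have h2 : t - δ * (round (t / δ) : ℝ) = δ * (t / δ - (round (t / δ) : ℝ)) := by
    field_simp
  rw [h2, abs_mul, abs_of_pos hδ]
  nlinarith

theorem Grid_bound {δ M t : ℝ} (hδ : 0 < δ) (ht : |t| ≤ M) :
    -(⌈M / δ⌉ + 1) ≤ round (t / δ) ∧ round (t / δ) ≤ ⌈M / δ⌉ + 1 := by
  have h1 := abs_le.1 (abs_sub_round (t / δ))
  have h2 := Int.le_ceil (M / δ)
  have h3 : t / δ ≤ M / δ := div_le_div_of_nonneg_right (abs_le.1 ht).2 hδ.le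
  have h4 : -(M / δ) ≤ t / δ := by
    rw [← neg_div]
    exact div_le_div_of_nonneg_right (abs_le.1 ht).1 hδ.le
  constructor
  · have h5 : (-(⌈M / δ⌉ + 1) : ℝ) ≤ (round (t / δ) : ℝ) := by linarith [h1.2]
    exact_mod_cast h5
  · have h5 : (round (t / δ) : ℝ) ≤ (⌈M / δ⌉ + 1 : ℝ) := by linarith [h1.1]
    exact_mod_cast h5

/-- Proof. The points `δ * (m + n I)` with integers `|m|, |n| ≤ N` (`N` large) and norm at most
`M + δ`, the colour is given by `(m mod 4, n mod 4)`. Two distinct points of the same colour have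
coordinates which differ by a non-zero multiple of `4 δ` in one direction. Each `x` has distance at most
`δ / √2 ≤ 3 / 4 * δ` from the grid point with rounded coordinates. -/
theorem grid {δ : ℝ} (hδ : 0 < δ) (M : ℝ) : ∃ l : List (Finset ℂ), l.length = 16 ∧
    (∀ C ∈ l, ∀ c ∈ C, ∀ c' ∈ C, c ≠ c' → 4 * δ ≤ dist c c') ∧
    (∀ C ∈ l, ∀ c ∈ C, ‖c‖ ≤ M + δ) ∧
    ∀ x : ℂ, ‖x‖ ≤ M → ∃ C ∈ l, ∃ c ∈ C, dist x c ≤ 3 / 4 * δ := by
  refine ⟨(List.range 16).map fun k : ℕ => Grid_C δ M (⌈M / δ⌉ + 1) (k : ℤ), by simp, ?_, ?_, ?_⟩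
  · intro C hC c hc c' hc' hne
    obtain ⟨k, -, rfl⟩ := List.mem_map.1 hC
    obtain ⟨p, -, ⟨hp, -⟩, rfl⟩ := Grid_mem_C.1 hc
    obtain ⟨q, -, ⟨hq, -⟩, rfl⟩ := Grid_mem_C.1 hc'
    unfold Grid_col at hp hq
    by_cases h1 : p.1 = q.1
    · have h2 : p.2 ≠ q.2 := fun h2 => hne (by rw [Prod.ext h1 h2])
      have h3 : 4 ≤ |p.2 - q.2| := by
        rw [le_abs]
        omega
      refine (Grid_far hδ h3).trans ?_
      rw [Complex.dist_eq]
      exact Complex.abs_im_le_norm (Grid_P δ p - Grid_P δ q)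
    · have h3 : 4 ≤ |p.1 - q.1| := by
        rw [le_abs]
        omega
      refine (Grid_far hδ h3).trans ?_
      rw [Complex.dist_eq]
      exact Complex.abs_re_le_norm (Grid_P δ p - Grid_P δ q)
  · intro C hC c hc
    obtain ⟨k, -, rfl⟩ := List.mem_map.1 hC
    obtain ⟨p, -, ⟨-, hp⟩, rfl⟩ := Grid_mem_C.1 hc
    exact hp
  · intro x hx
    have hd : dist x (Grid_P δ (round (x.re / δ), round (x.im / δ))) ≤ 3 / 4 * δ := by
      rw [Complex.dist_eq_re_im, Real.sqrt_le_iff]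
      refine ⟨by positivity, ?_⟩
      have h1 := Grid_round hδ x.re
      have h2 := Grid_round hδ x.im
      have h3 := sq_le_sq' (abs_le.1 h1).1 (abs_le.1 h1).2
      have h4 := sq_le_sq' (abs_le.1 h2).1 (abs_le.1 h2).2
      show (x.re - δ * (round (x.re / δ) : ℝ)) ^ 2 + (x.im - δ * (round (x.im / δ) : ℝ)) ^ 2 ≤ _
      nlinarith [sq_nonneg δ]
    have hn : ‖Grid_P δ (round (x.re / δ), round (x.im / δ))‖ ≤ M + δ := by
      have h1 := dist_triangle_left (Grid_P δ (round (x.re / δ), round (x.im / δ))) 0 x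
      rw [dist_zero_right, dist_zero_right] at h1
      linarith
    refine ⟨Grid_C δ M (⌈M / δ⌉ + 1) (Grid_col (round (x.re / δ), round (x.im / δ))), ?_,
      Grid_P δ (round (x.re / δ), round (x.im / δ)), ?_, hd⟩
    · rw [List.mem_map]
      refine ⟨(Grid_col (round (x.re / δ), round (x.im / δ))).toNat, ?_, ?_⟩
      · rw [List.mem_range]
        unfold Grid_col
        dsimp only
        omega
      · have h1 : 0 ≤ Grid_col (round (x.re / δ), round (x.im / δ)) := by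
          unfold Grid_col
          dsimp only
          omega
        rw [Int.toNat_of_nonneg h1]
    · rw [Grid_mem_C]
      exact ⟨_, ⟨Grid_bound hδ ((Complex.abs_re_le_norm x).trans hx),
        Grid_bound hδ ((Complex.abs_im_le_norm x).trans hx)⟩, ⟨rfl, hn⟩, rfl⟩

end Pool.Agent.W_cd67d3_h45
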