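import Pool.Agent.W_cd67d3_h45.MultiStep
import Pool.Agent.W_cd67d3_h45.Grid

/-!
# Differentiable homeomorphisms are dense in the compactly supported homeomorphisms
-/

namespace Pool.Agent.W_cd67d3_h45

open Metric Set Filter Topology

/-- Proof. Let `δ = min (ε / 64) 1`-like, such that `64 * δ ≤ ε`, `R = δ`, `η = δ / 128`, `l` from
`grid` with `M = ρ + δ`, and `A` from `multi_step`; `f = g ∘ A`. Suppose `x` is a bad point of `f`. It has
distance at most `16 η = δ / 8` from a bad point `x₀` of `g`, `‖x₀‖ ≤ ρ` (`g` is the identity near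
each point with `ρ < ‖x‖`), so `‖x‖ ≤ M` and there are `C ∈ l`, `c ∈ C` with `dist x c ≤ 3 / 4 δ`, and
`y` with `dist x y ≤ δ / 8` and `δ ≤ dist y c ≤ 7 / 8 δ`: contradiction. So `f` is differentiable.
`A` is the identity where `‖x‖ ≥ ρ + ε` (the centres have norm at most `ρ + 2 δ`), and
`f.symm (g x) = A.symm x`, `dist (A.symm x) x ≤ 16 * 2 (δ + η) ≤ 64 δ ≤ ε`. -/
theorem density (g : ℂ ≃ₜ ℂ) {ρ : ℝ} (hg : ∀ x, ρ ≤ ‖x‖ → g x = x) {ε : ℝ} (hε : 0 < ε) :
    ∃ f : ℂ ≃ₜ ℂ, Differentiable ℝ (fun x => f x) ∧ (∀ x, ρ + ε ≤ ‖x‖ → f x = x) ∧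
      ∀ x, dist (f.symm (g x)) x ≤ ε := by
  obtain ⟨δ, hδ, hδε⟩ : ∃ δ : ℝ, 0 < δ ∧ 64 * δ ≤ ε := ⟨ε / 64, by positivity, by linarith⟩
  obtain ⟨l, hl16, hsep, hnorm, hcov⟩ := grid hδ (ρ + δ)
  have hη : 0 < δ / 128 := by positivity
  have hR : δ / 128 < δ := by linarith
  obtain ⟨A, hA1, hA2, hA3⟩ := multi_step g hη hR l (by
    intro C hC c hc c' hc' hcc
    have h1 := hsep C hC c hc c' hc' hcc
    linarith)
  have hlen : ((l.length : ℕ) : ℝ) = 16 := by
    rw [hl16]
    norm_num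
  refine ⟨A.trans g, ?_, ?_, ?_⟩
  · intro x
    by_contra hx
    have hx' : ¬ DifferentiableAt ℝ (fun y => g (A y)) x := hx
    obtain ⟨⟨x₀, h1, h2⟩, h3⟩ := hA3 x hx'
    rw [hlen] at h1
    have h4 : ‖x₀‖ ≤ ρ := by
      by_contra h
      push Not at h
      apply h2
      have h5 : (fun y => g y) =ᶠ[𝓝 x₀] id := by
        have h6 : {y : ℂ | ρ < ‖y‖} ∈ 𝓝 x₀ :=
          (isOpen_lt continuous_const continuous_norm).mem_nhds h
        filter_upwards [h6] with y hy
        exact hg y (le_of_lt hy)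
      exact (differentiableAt_id).congr_of_eventuallyEq h5
    have h7 : ‖x‖ ≤ ρ + δ := by
      have h8 : ‖x‖ ≤ ‖x₀‖ + dist x x₀ := by
        rw [dist_eq_norm]
        have := norm_add_le x₀ (x - x₀)
        simpa using this
      linarith
    obtain ⟨C, hC, c, hc, hxc⟩ := hcov x h7
    obtain ⟨y, hy1, hy2⟩ := h3 C hC
    rw [hlen] at hy1
    have h9 := hy2 c hc
    have h10 := dist_triangle y x c
    rw [dist_comm y x] at h10
    linarith
  · intro x hx
    have h1 : A x = x := by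
      apply hA1
      intro C hC c hc
      have h2 := hnorm C hC c hc
      have h3 : ‖x‖ ≤ dist x c + ‖c‖ := by
        rw [dist_eq_norm]
        have := norm_add_le (x - c) c
        simpa using this
      linarith
    change g (A x) = x
    rw [h1]
    exact hg x (by linarith)
  · intro x
    have h1 : (A.trans g).symm (g x) = A.symm x := by
      change A.symm (g.symm (g x)) = A.symm x
      rw [Homeomorph.symm_apply_apply]
    rw [h1]
    have h2 := hA2 (A.symm x)
    rw [Homeomorph.apply_symm_apply, hlen, dist_comm] at h2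
    linarith

end Pool.Agent.W_cd67d3_h45
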