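import Pool.Agent.W_cd67d3_h45.Defs
import Pool.Agent.W_MP_cd67d3_gt.Mollify

/-!
# Approximation of homeomorphisms of the line by diffeomorphisms
-/

namespace Pool.Agent.W_cd67d3_h45

open Metric Set Filter Topology
open Pool.Agent.W_MP_cd67d3_gt

/-- the increasing case -/
lemma DimOneA_mono (g : ℝ ≃ₜ ℝ) (hg : StrictMono g) {ε : ℝ} (hε : 0 < ε) :
    ∃ f : ℝ ≃ₜ ℝ, IsDiffeo 1 f ∧ ∀ x, |f.symm (g x) - x| ≤ ε := by
  have hgc : Continuous (g : ℝ → ℝ) := g.continuous
  set F : ℝ → ℝ := fun x => ∫ t in (0 : ℝ)..x, g t with hF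
  have hFd : ∀ x, HasDerivAt F (g x) x := fun x =>
    intervalIntegral.integral_hasDerivAt_right (hgc.intervalIntegrable 0 x)
      hgc.stronglyMeasurable.stronglyMeasurableAtFilter hgc.continuousAt
  set f : ℝ → ℝ := fun x => (F (x + ε) - F x) / ε with hf
  have hfd : ∀ x, HasDerivAt f ((g (x + ε) - g x) / ε) x := fun x =>
    (((hFd (x + ε)).comp_add_const x ε).sub (hFd x)).div_const ε
  have hpos : ∀ x, 0 < (g (x + ε) - g x) / ε := fun x =>
    div_pos (sub_pos.mpr (hg (by linarith))) hε
  have hfi : ∀ x, f x = (∫ t in x..(x + ε), g t) / ε := by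
    intro x
    have h1 : ∫ t in x..(x + ε), g t = F (x + ε) - F x :=
      (intervalIntegral.integral_interval_sub_left (hgc.intervalIntegrable 0 (x + ε))
        (hgc.intervalIntegrable 0 x)).symm
    rw [h1]
  have hlow : ∀ x, g x ≤ f x := by
    intro x
    have h1 : (∫ _ in x..(x + ε), g x) ≤ ∫ t in x..(x + ε), g t :=
      intervalIntegral.integral_mono_on (by linarith) intervalIntegrable_const
        (hgc.intervalIntegrable _ _) (fun t ht => hg.monotone ht.1)
    rw [intervalIntegral.integral_const, add_sub_cancel_left, smul_eq_mul] at h1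
    rw [hfi, le_div_iff₀ hε]
    linarith
  have hupp : ∀ x, f x ≤ g (x + ε) := by
    intro x
    have h1 : (∫ t in x..(x + ε), g t) ≤ ∫ _ in x..(x + ε), g (x + ε) :=
      intervalIntegral.integral_mono_on (by linarith) (hgc.intervalIntegrable _ _)
        intervalIntegrable_const (fun t ht => hg.monotone ht.2)
    rw [intervalIntegral.integral_const, add_sub_cancel_left, smul_eq_mul] at h1
    rw [hfi, div_le_iff₀ hε]
    linarith
  have hfm : StrictMono f := by
    refine strictMono_of_deriv_pos (fun x => ?_)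
    rw [(hfd x).deriv]
    exact hpos x
  have hfc : Continuous f := continuous_iff_continuousAt.mpr fun x => (hfd x).continuousAt
  have hfs : Function.Surjective f := by
    intro y
    have h1 : f (g.symm y - ε) ≤ y := by
      have h2 := hupp (g.symm y - ε)
      rw [sub_add_cancel, g.apply_symm_apply] at h2
      exact h2
    have h2 : y ≤ f (g.symm y) := by
      have h3 := hlow (g.symm y)
      rw [g.apply_symm_apply] at h3
      exact h3
    obtain ⟨x, -, hx⟩ := intermediate_value_Icc (by linarith : g.symm y - ε ≤ g.symm y)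
      hfc.continuousOn ⟨h1, h2⟩
    exact ⟨x, hx⟩
  have hC : ContDiff ℝ 1 f := by
    rw [contDiff_one_iff_deriv]
    refine ⟨fun x => (hfd x).differentiableAt, ?_⟩
    have h1 : deriv f = fun x => (g (x + ε) - g x) / ε := funext fun x => (hfd x).deriv
    rw [h1]
    exact ((hgc.comp (continuous_id.add continuous_const)).sub hgc).div_const ε
  set h : ℝ ≃ₜ ℝ := (StrictMono.orderIsoOfSurjective f hfm hfs).toHomeomorph with hh
  have hhf : (h : ℝ → ℝ) = f := rfl
  refine ⟨h, ⟨?_, ?_⟩, ?_⟩
  · rw [hhf]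
    exact hC
  · refine Homeomorph.contDiff_symm_deriv h (f' := fun x => (g (x + ε) - g x) / ε)
      (fun x => (hpos x).ne') (fun x => ?_) ?_
    · rw [hhf]
      exact hfd x
    · rw [hhf]
      exact hC
  · intro x
    have h1 : f (h.symm (g x)) = g x := h.apply_symm_apply (g x)
    have h2 := hlow (h.symm (g x))
    have h3 := hupp (h.symm (g x))
    rw [h1] at h2 h3
    have h4 := hg.le_iff_le.mp h2
    have h5 := hg.le_iff_le.mp h3
    rw [abs_le]
    constructor <;> linarith

/-- Proof. `g` is strictly monotone or antitone (`Continuous.strictMono_of_inj`); in the second case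
apply the first one to `-g`. For increasing `g` let `f x = (∫ t in x..(x + ε), g t) / ε`. Its
derivative `(g (x + ε) - g x) / ε` is positive and continuous, and `g x ≤ f x ≤ g (x + ε)`, so `f` is
increasing, continuous and onto, with `C¹` inverse (`HasDerivAt.of_local_left_inverse` or
`ContDiffAt.toOpenPartialHomeomorph`). If `f x = g y` then `g x ≤ g y ≤ g (x + ε)`, so `x ≤ y ≤ x + ε`. -/
theorem dim_one_real (g : ℝ ≃ₜ ℝ) {ε : ℝ} (hε : 0 < ε) :
    ∃ f : ℝ ≃ₜ ℝ, IsDiffeo 1 f ∧ ∀ x, |f.symm (g x) - x| ≤ ε := by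
  rcases g.continuous.strictMono_of_inj g.injective with hg | hg
  · exact DimOneA_mono g hg hε
  · obtain ⟨f, hf, hfx⟩ := DimOneA_mono (g.trans (Homeomorph.neg ℝ)) (fun x y hxy => by
      show -(g x) < -(g y)
      exact neg_lt_neg (hg hxy)) hε
    refine ⟨f.trans (Homeomorph.neg ℝ), ⟨?_, ?_⟩, ?_⟩
    · show ContDiff ℝ 1 (fun x => -(f x))
      exact hf.1.neg
    · show ContDiff ℝ 1 (fun x => f.symm (-x))
      exact hf.2.comp contDiff_neg
    · intro x
      exact hfx x

end Pool.Agent.W_cd67d3_h45
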