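import Pool.Agent.W_cd67d3_h45.DimOneA

/-!
# Dimension one
-/

namespace Pool.Agent.W_cd67d3_h45

open Metric Set Filter Topology
open Pool.Agent.W_MP_cd67d3_gt

attribute [local instance] homeoTopology

/-- The coordinate of the line `Eu 1`. -/
noncomputable def DimOneB_e : Eu 1 ≃L[ℝ] ℝ :=
  (EuclideanSpace.equiv (Fin 1) ℝ).trans (ContinuousLinearEquiv.funUnique (Fin 1) ℝ ℝ)

theorem DimOneB_norm (x : Eu 1) : ‖x‖ = |DimOneB_e x| := by
  rw [EuclideanSpace.norm_eq, Fin.sum_univ_one, Real.norm_eq_abs, sq_abs, Real.sqrt_sq_eq_abs]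
  rfl

theorem DimOneB_step (g : Eu 1 ≃ₜ Eu 1) {ε : ℝ} (hε : 0 < ε) :
    ∃ f : Eu 1 ≃ₜ Eu 1, IsDiffeo 1 f ∧ ∀ x, ‖(f⁻¹ * g) x - x‖ ≤ ε := by
  obtain ⟨F, hF, hFx⟩ := dim_one_real
    ((DimOneB_e.symm.toHomeomorph.trans g).trans DimOneB_e.toHomeomorph) hε
  refine ⟨(DimOneB_e.toHomeomorph.trans F).trans DimOneB_e.symm.toHomeomorph, ⟨?_, ?_⟩, ?_⟩
  · exact DimOneB_e.symm.contDiff.comp (hF.1.comp DimOneB_e.contDiff)
  · exact DimOneB_e.symm.contDiff.comp (hF.2.comp DimOneB_e.contDiff)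
  · intro x
    have h := hFx (DimOneB_e x)
    rw [DimOneB_norm, map_sub]
    have e1 : DimOneB_e ((((DimOneB_e.toHomeomorph.trans F).trans
        DimOneB_e.symm.toHomeomorph)⁻¹ * g) x) = F.symm (DimOneB_e (g x)) := by
      change DimOneB_e (DimOneB_e.symm (F.symm (DimOneB_e (g x)))) = _
      rw [ContinuousLinearEquiv.apply_symm_apply]
    rw [e1]
    have e2 : ((DimOneB_e.symm.toHomeomorph.trans g).trans DimOneB_e.toHomeomorph) (DimOneB_e x) =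
        DimOneB_e (g x) := by
      change DimOneB_e (g (DimOneB_e.symm (DimOneB_e x))) = _
      rw [ContinuousLinearEquiv.symm_apply_apply]
    rw [e2] at h
    exact h

/-- Proof. Transfer `dim_one_real` to `Eu 1` by the linear isometry `e : Eu 1 ≃ₗᵢ[ℝ] ℝ`
(`x ↦ x 0`), with `ε = 1 / (k + 1)`: `f k` with `(f k)⁻¹ * g → 1` (`tendsto_one`), so
`f k = g * ((f k)⁻¹ * g)⁻¹ → g` (`isTopologicalGroup`). -/
theorem dim_one_dense (g : Eu 1 ≃ₜ Eu 1) : g ∈ closure {f : Eu 1 ≃ₜ Eu 1 | IsDiffeo 1 f} := by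
  have hpos : ∀ k : ℕ, (0 : ℝ) < 1 / ((k : ℝ) + 1) := fun k => Nat.one_div_pos_of_nat
  choose f hf hfx using fun k : ℕ => DimOneB_step g (hpos k)
  haveI := isTopologicalGroup (X := Eu 1)
  have h1 : Tendsto (fun k => (f k)⁻¹ * g) atTop (𝓝 1) :=
    tendsto_one tendsto_one_div_add_atTop_nhds_zero_nat hfx
  have h2 : Tendsto (fun k => g * ((f k)⁻¹ * g)⁻¹) atTop (𝓝 (g * 1⁻¹)) :=
    tendsto_const_nhds.mul h1.inv
  have h3 : (fun k => g * ((f k)⁻¹ * g)⁻¹) = f := by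
    funext k
    group
  rw [h3, inv_one, mul_one] at h2
  exact mem_closure_of_tendsto h2 (Eventually.of_forall hf)

end Pool.Agent.W_cd67d3_h45
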