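import Pool.Agent.W_cd67d3_h45.AvgA
import Pool.Agent.W_cd67d3_h45.AvgB

/-!
# The twist map of the disc with boundary values given by a lift
-/

namespace Pool.Agent.W_cd67d3_h45

open Metric Set Filter Topology

/-- The cut-off function: `0` for `r ≤ 1/2`, `1` for `1 ≤ r`, smooth. -/
noncomputable def chi (r : ℝ) : ℝ := Real.smoothTransition (2 * r - 1)

/-- The map `r * ee t ↦ r * ee (t + chi r * avg b t (1 - r))`. -/
noncomputable def E0 (b : ℝ → ℝ) (z : ℂ) : ℂ :=
  z * ee (chi ‖z‖ * avg b (Complex.arg z / (2 * Real.pi)) (1 - ‖z‖))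

theorem DiscA_ee_add (s t : ℝ) : ee (s + t) = ee s * ee t := by
  unfold ee
  rw [← Complex.exp_add]
  congr 1
  push_cast
  ring

theorem DiscA_norm_ee (t : ℝ) : ‖ee t‖ = 1 := by
  unfold ee
  have h : (2 * Real.pi * t * Complex.I : ℂ) = ((2 * Real.pi * t : ℝ) : ℂ) * Complex.I := by
    push_cast; ring
  rw [h, Complex.norm_exp_ofReal_mul_I]

theorem DiscA_ee_eq {s t : ℝ} (h : ee s = ee t) : ∃ n : ℤ, s = t + n := by
  unfold ee at h
  obtain ⟨n, hn⟩ := Complex.exp_eq_exp_iff_exists_int.1 h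
  refine ⟨n, ?_⟩
  have h1 : (2 * Real.pi * Complex.I : ℂ) * s = (2 * Real.pi * Complex.I : ℂ) * (t + n) := by
    linear_combination hn
  have h2 := mul_left_cancel₀ Complex.two_pi_I_ne_zero h1
  exact_mod_cast h2

theorem DiscA_ee_int (n : ℤ) : ee n = 1 := by
  unfold ee
  have h : (2 * Real.pi * ((n : ℝ) : ℂ) * Complex.I : ℂ) = n * (2 * Real.pi * Complex.I) := by
    push_cast; ring
  rw [h, Complex.exp_int_mul_two_pi_mul_I]

theorem DiscA_arg {r : ℝ} (hr : 0 < r) (t : ℝ) :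
    ∃ n : ℤ, Complex.arg (r * ee t) / (2 * Real.pi) = t + n := by
  have h1 := Complex.norm_mul_exp_arg_mul_I (r * ee t)
  have h2 : ‖(r : ℂ) * ee t‖ = r := by
    rw [norm_mul, DiscA_norm_ee, mul_one, Complex.norm_real, Real.norm_eq_abs, abs_of_pos hr]
  rw [h2] at h1
  have hr0 : (r : ℂ) ≠ 0 := by exact_mod_cast hr.ne'
  have h3 := mul_left_cancel₀ hr0 h1
  refine DiscA_ee_eq (Eq.trans ?_ h3)
  generalize ((r : ℂ) * ee t).arg = w
  unfold ee
  congr 1
  have hpi : (Real.pi : ℂ) ≠ 0 := by exact_mod_cast Real.pi_ne_zero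
  push_cast
  field_simp

theorem DiscA_avg_int {b : ℝ → ℝ} (hp : ∀ t, b (t + 1) = b t + 1) (θ s : ℝ) (n : ℤ) :
    avg b (θ + n) s = avg b θ s := by
  have h : Function.Periodic (fun θ => avg b θ s) 1 := fun θ => avg_add_one hp θ s
  have h2 := h.int_mul n θ
  simpa using h2

/-- Proof. `arg (r * ee t) / (2 π)` differs from `t` by an integer (`r > 0`), and `avg` has period `1`. -/
theorem E0_polar {b : ℝ → ℝ} (hp : ∀ t, b (t + 1) = b t + 1) {r : ℝ} (hr : 0 ≤ r) (t : ℝ) :
    E0 b (r * ee t) = r * ee (t + chi r * avg b t (1 - r)) := by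
  rcases hr.eq_or_lt with h0 | h0
  · subst h0
    simp [E0]
  · have h2 : ‖(r : ℂ) * ee t‖ = r := by
      rw [norm_mul, DiscA_norm_ee, mul_one, Complex.norm_real, Real.norm_eq_abs, abs_of_pos h0]
    obtain ⟨n, hn⟩ := DiscA_arg h0 t
    unfold E0
    rw [h2, hn, DiscA_avg_int hp, DiscA_ee_add, mul_assoc]

theorem DiscA_polar (z : ℂ) : ∃ t : ℝ, z = ‖z‖ * ee t := by
  refine ⟨Complex.arg z / (2 * Real.pi), ?_⟩
  conv_lhs => rw [← Complex.norm_mul_exp_arg_mul_I z]
  congr 1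
  unfold ee
  congr 1
  have hpi : (Real.pi : ℂ) ≠ 0 := by exact_mod_cast Real.pi_ne_zero
  push_cast
  field_simp

theorem DiscA_norm (b : ℝ → ℝ) (z : ℂ) : ‖E0 b z‖ = ‖z‖ := by
  unfold E0
  rw [norm_mul, DiscA_norm_ee, mul_one]

theorem DiscA_surj {b : ℝ → ℝ} (hc : Continuous b) (hp : ∀ t, b (t + 1) = b t + 1) (χ s : ℝ) :
    Function.Surjective (fun θ => θ + χ * avg b θ s) := by
  obtain ⟨B, hB⟩ := avg_bdd hc hp
  have hcont : Continuous (fun θ => θ + χ * avg b θ s) := by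
    have h1 : Continuous (fun θ : ℝ => avg b θ s) :=
      (avg_cont hc).comp (by fun_prop : Continuous (fun θ : ℝ => (θ, s)))
    fun_prop
  have hbd : ∀ θ, |χ * avg b θ s| ≤ |χ| * B := by
    intro θ
    rw [abs_mul]
    exact mul_le_mul_of_nonneg_left (hB θ s) (abs_nonneg χ)
  apply hcont.surjective
  · apply tendsto_atTop_mono (f := fun θ => θ + (-(|χ| * B)))
    · intro θ
      have := (abs_le.1 (hbd θ)).1
      linarith
    · exact tendsto_atTop_add_const_right _ _ tendsto_id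
  · apply tendsto_atBot_mono (f := fun θ => θ + |χ| * B)
    · intro θ
      have := (abs_le.1 (hbd θ)).2
      linarith
    · exact tendsto_atBot_add_const_right _ _ tendsto_id

theorem DiscA_chi_nonneg (r : ℝ) : 0 ≤ chi r := Real.smoothTransition.nonneg _

theorem DiscA_chi_le_one (r : ℝ) : chi r ≤ 1 := Real.smoothTransition.le_one _

/-- Proof. By `E0_polar`: `E0` preserves the norm; on the circle of radius `r > 0` it is given by the
strictly increasing continuous function `θ ↦ θ + chi r * avg b θ (1 - r)` which commutes with the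
translation by `1` (`avg_mono`, `avg_add_one`), so it is a bijection of the circle. -/
theorem E0_bij {b : ℝ → ℝ} (hc : Continuous b) (hm : StrictMono b)
    (hp : ∀ t, b (t + 1) = b t + 1) : BijOn (E0 b) (closedBall 0 1) (closedBall 0 1) := by
  refine ⟨?_, ?_, ?_⟩
  · intro z hz
    rw [mem_closedBall, dist_zero_right] at hz ⊢
    rwa [DiscA_norm]
  · intro z hz w hw heq
    rw [mem_closedBall, dist_zero_right] at hz hw
    have hn : ‖z‖ = ‖w‖ := by
      rw [← DiscA_norm b z, ← DiscA_norm b w, heq]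
    obtain ⟨t, ht⟩ := DiscA_polar z
    obtain ⟨u, hu⟩ := DiscA_polar w
    rw [← hn] at hu
    rcases (norm_nonneg z).eq_or_lt with h0 | h0
    · rw [ht, hu, ← h0]
      simp
    · rw [ht, hu, E0_polar hp h0.le, E0_polar hp h0.le] at heq
      have hr0 : ((‖z‖ : ℝ) : ℂ) ≠ 0 := by exact_mod_cast h0.ne'
      obtain ⟨n, hn2⟩ := DiscA_ee_eq (mul_left_cancel₀ hr0 heq)
      have h3 : t + chi ‖z‖ * avg b t (1 - ‖z‖) =
          (u + n) + chi ‖z‖ * avg b (u + n) (1 - ‖z‖) := by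
        rw [DiscA_avg_int hp, hn2]
        ring
      have h4 := (avg_mono hc hm (DiscA_chi_nonneg ‖z‖) (DiscA_chi_le_one ‖z‖)
        (by linarith : 0 ≤ 1 - ‖z‖)).injective h3
      rw [ht, hu, h4, DiscA_ee_add, DiscA_ee_int, mul_one]
  · intro w hw
    rw [mem_closedBall, dist_zero_right] at hw
    obtain ⟨u, hu⟩ := DiscA_polar w
    obtain ⟨t, ht⟩ := DiscA_surj hc hp (chi ‖w‖) (1 - ‖w‖) u
    refine ⟨‖w‖ * ee t, ?_, ?_⟩
    · rw [mem_closedBall, dist_zero_right, norm_mul, DiscA_norm_ee, mul_one, Complex.norm_real,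
        norm_norm]
      exact hw
    · rw [E0_polar hp (norm_nonneg w)]
      simp only at ht
      rw [ht]
      exact hu.symm

end Pool.Agent.W_cd67d3_h45
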