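import Pool.Agent.W_cd67d3_h45.DiscA

/-!
# The twist map of the disc: continuity and differentiability
-/

namespace Pool.Agent.W_cd67d3_h45

open Metric Set Filter Topology

theorem DiscB_near (b : ℝ → ℝ) : E0 b =ᶠ[𝓝 0] id := by
  filter_upwards [ball_mem_nhds (0 : ℂ) (by norm_num : (0 : ℝ) < 1 / 2)] with z hz
  rw [mem_ball_zero_iff] at hz
  have h1 : chi ‖z‖ = 0 := Real.smoothTransition.zero_of_nonpos (by linarith)
  unfold E0
  rw [h1, zero_mul]
  unfold ee
  simp

/-- the local formula near `z0` -/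
noncomputable def DiscB_G (b : ℝ → ℝ) (z0 z : ℂ) : ℂ :=
  z * ee (chi ‖z‖ * avg b ((Complex.arg z0 + (Complex.log (z / z0)).im) / (2 * Real.pi))
    (1 - ‖z‖))

theorem DiscB_eq {b : ℝ → ℝ} (hp : ∀ t, b (t + 1) = b t + 1) {z0 z : ℂ} (h0 : z0 ≠ 0)
    (hz : z ≠ 0) : E0 b z = DiscB_G b z0 z := by
  have hper : Function.Periodic (fun θ => avg b θ (1 - ‖z‖)) 1 := fun θ => avg_add_one hp θ _
  obtain ⟨k, hk⟩ : ∃ k : ℤ, Complex.arg z - (Complex.arg z0 + Complex.arg (z / z0)) =
      2 * Real.pi * k := by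
    rw [← Real.Angle.angle_eq_iff_two_pi_dvd_sub, Real.Angle.coe_add,
      ← Complex.arg_mul_coe_angle h0 (div_ne_zero hz h0), mul_div_cancel₀ z h0]
  have h1 : Complex.arg z / (2 * Real.pi) =
      (Complex.arg z0 + Complex.arg (z / z0)) / (2 * Real.pi) + (k : ℝ) * 1 := by
    have h2 : Complex.arg z = (Complex.arg z0 + Complex.arg (z / z0)) + 2 * Real.pi * k := by
      linarith
    rw [h2]
    have := Real.pi_ne_zero
    field_simp
  have h3 : avg b (Complex.arg z / (2 * Real.pi)) (1 - ‖z‖) =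
      avg b ((Complex.arg z0 + Complex.arg (z / z0)) / (2 * Real.pi)) (1 - ‖z‖) := by
    rw [h1]
    exact hper.int_mul k _
  unfold E0 DiscB_G
  rw [h3, Complex.log_im]

theorem DiscB_slit {z0 : ℂ} (h0 : z0 ≠ 0) : z0 / z0 ∈ Complex.slitPlane := by
  rw [div_self h0]
  exact Complex.one_mem_slitPlane

theorem DiscB_evEq {b : ℝ → ℝ} (hp : ∀ t, b (t + 1) = b t + 1) {z0 : ℂ} (h0 : z0 ≠ 0) :
    E0 b =ᶠ[𝓝 z0] DiscB_G b z0 := by
  filter_upwards [isOpen_ne.mem_nhds h0] with z hz
  exact DiscB_eq hp h0 hz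

theorem DiscB_ee_diff : Differentiable ℝ ee := by
  unfold ee
  have h1 : Differentiable ℝ fun t : ℝ => (t : ℂ) := Complex.ofRealCLM.differentiable
  have h2 : Differentiable ℝ fun t : ℝ => 2 * (Real.pi : ℂ) * (t : ℂ) * Complex.I :=
    (h1.const_mul _).mul_const _
  exact h2.cexp

theorem DiscB_chi_diff : Differentiable ℝ chi := by
  unfold chi
  have h1 : Differentiable ℝ Real.smoothTransition :=
    (Real.smoothTransition.contDiff (n := 1)).differentiable (by norm_num)
  have h2 : Differentiable ℝ fun r : ℝ => 2 * r - 1 :=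
    (differentiable_id.const_mul 2).sub_const 1
  exact h1.comp h2

theorem DiscB_log_diff {z0 : ℂ} (h0 : z0 ≠ 0) :
    DifferentiableAt ℝ (fun z : ℂ => (Complex.log (z / z0)).im) z0 := by
  have h1 : DifferentiableAt ℂ (fun z : ℂ => Complex.log (z / z0)) z0 :=
    (differentiableAt_id.div_const z0).clog (DiscB_slit h0)
  have h2 : DifferentiableAt ℝ (fun z : ℂ => Complex.log (z / z0)) z0 := h1.restrictScalars ℝ
  exact Complex.imCLM.differentiableAt.comp z0 h2

/-- Proof. Near `0` it is the identity. At `z0 ≠ 0`: with a continuous branch of the argument near `z0`,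
`a z = arg z0 + arg (z / z0)`, `a z / (2 π)` differs from `arg z / (2 π)` by an integer, so by the
periodicity of `avg`, `E0 b z = z * ee (chi ‖z‖ * avg b (a z / (2 π)) (1 - ‖z‖))` near `z0`; use
`avg_cont`. -/
theorem E0_cont {b : ℝ → ℝ} (hc : Continuous b) (hp : ∀ t, b (t + 1) = b t + 1) :
    Continuous (E0 b) := by
  rw [continuous_iff_continuousAt]
  intro z0
  by_cases h0 : z0 = 0
  · subst h0
    exact (continuousAt_id.congr (DiscB_near b).symm)
  · refine ContinuousAt.congr ?_ (DiscB_evEq hp h0).symm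
    unfold DiscB_G
    have h1 : ContinuousAt (fun z : ℂ => (Complex.log (z / z0)).im) z0 :=
      (DiscB_log_diff h0).continuousAt
    have h2 : ContinuousAt (fun z : ℂ =>
        avg b ((Complex.arg z0 + (Complex.log (z / z0)).im) / (2 * Real.pi)) (1 - ‖z‖)) z0 := by
      have h3 : ContinuousAt (fun z : ℂ =>
          (((Complex.arg z0 + (Complex.log (z / z0)).im) / (2 * Real.pi), 1 - ‖z‖) : ℝ × ℝ))
          z0 :=
        ((continuousAt_const.add h1).div_const _).prodMk
          (continuousAt_const.sub continuous_norm.continuousAt)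
      exact ContinuousAt.comp (g := fun q : ℝ × ℝ => avg b q.1 q.2)
        (avg_cont hc).continuousAt h3
    have h4 : ContinuousAt (fun z : ℂ => chi ‖z‖) z0 :=
      (DiscB_chi_diff.continuous.comp continuous_norm).continuousAt
    exact continuousAt_id.mul (ContinuousAt.comp (g := ee)
      DiscB_ee_diff.continuous.continuousAt (h4.mul h2))

/-- Proof. The same with `avg_diff`, as `1 - ‖z‖ ≠ 0`. -/
theorem E0_diff {b : ℝ → ℝ} (hc : Continuous b) (hp : ∀ t, b (t + 1) = b t + 1) {z : ℂ}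
    (hz : z ∈ ball (0 : ℂ) 1) : DifferentiableAt ℝ (E0 b) z := by
  by_cases h0 : z = 0
  · subst h0
    exact ((hasFDerivAt_id (𝕜 := ℝ) (0 : ℂ)).congr_of_eventuallyEq
      (DiscB_near b)).differentiableAt
  · refine DifferentiableAt.congr_of_eventuallyEq ?_ (DiscB_evEq hp h0)
    unfold DiscB_G
    rw [mem_ball_zero_iff] at hz
    have hn : DifferentiableAt ℝ (fun w : ℂ => ‖w‖) z :=
      (differentiableAt_id (𝕜 := ℝ)).norm ℝ h0
    have h2 : DifferentiableAt ℝ (fun w : ℂ =>
        avg b ((Complex.arg z + (Complex.log (w / z)).im) / (2 * Real.pi)) (1 - ‖w‖)) z := by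
      have h3 : DifferentiableAt ℝ (fun w : ℂ =>
          (((Complex.arg z + (Complex.log (w / z)).im) / (2 * Real.pi), 1 - ‖w‖) : ℝ × ℝ)) z := by
        simp only [div_eq_mul_inv _ (2 * Real.pi)]
        exact (((differentiableAt_const _).add (DiscB_log_diff h0)).mul_const _).prodMk
          ((differentiableAt_const _).sub hn)
      exact DifferentiableAt.comp (g := fun q : ℝ × ℝ => avg b q.1 q.2) z
        (avg_diff hc (by
          change 1 - ‖z‖ ≠ 0
          linarith)) h3
    have h4 : DifferentiableAt ℝ (fun w : ℂ => chi ‖w‖) z :=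
      DifferentiableAt.comp (g := chi) z (DiscB_chi_diff _) hn
    exact (differentiableAt_id (𝕜 := ℝ)).mul (DifferentiableAt.comp (g := ee) z
      (DiscB_ee_diff _) (h4.mul h2))

/-- Proof. `chi ‖z‖ = 0` near `0`. -/
theorem E0_zero (b : ℝ → ℝ) : HasFDerivAt (E0 b) (ContinuousLinearMap.id ℝ ℂ) 0 := by
  exact (hasFDerivAt_id (𝕜 := ℝ) (0 : ℂ)).congr_of_eventuallyEq (DiscB_near b)

end Pool.Agent.W_cd67d3_h45
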