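import Pool.Agent.W_cd67d3_h45.DiscB
import Pool.Agent.W_cd67d3_h45.CircleLift

/-!
# Extension of a homeomorphism of the circle to the disc
-/

namespace Pool.Agent.W_cd67d3_h45

open Metric Set Filter Topology ComplexConjugate

lemma DiscExt_ee_add (x y : ℝ) : ee (x + y) = ee x * ee y := by
  unfold ee
  rw [← Complex.exp_add]
  congr 1
  push_cast
  ring

lemma DiscExt_conj (x : ℝ) : conj (ee x) = ee (-x) := by
  unfold ee
  rw [← Complex.exp_conj]
  congr 1
  simp only [map_mul, Complex.conj_ofReal, Complex.conj_I, map_ofNat]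
  push_cast
  ring

lemma DiscExt_circle (x : ℝ) : ((Circle.exp (2 * Real.pi * x) : Circle) : ℂ) = ee x := by
  rw [Circle.coe_exp]
  unfold ee
  push_cast
  rfl

lemma DiscExt_surj {z : ℂ} (hz : z ∈ sphere (0 : ℂ) 1) : ∃ t : ℝ, ee t = z := by
  have h1 : ‖z‖ = 1 := by simpa using hz
  refine ⟨Complex.arg z / (2 * Real.pi), ?_⟩
  have h2 : (2 : ℂ) * Real.pi * ((Complex.arg z / (2 * Real.pi) : ℝ) : ℂ) * Complex.I =
      Complex.arg z * Complex.I := by
    have h3 : (Real.pi : ℂ) ≠ 0 := by exact_mod_cast Real.pi_ne_zero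
    push_cast
    field_simp
  unfold ee
  rw [h2]
  have h4 := Complex.norm_mul_exp_arg_mul_I z
  rw [h1] at h4
  simpa using h4

lemma DiscExt_E0 {b : ℝ → ℝ} (hp : ∀ t, b (t + 1) = b t + 1) (t : ℝ) :
    E0 b (ee t) = ee (b t) := by
  have h := E0_polar hp (zero_le_one : (0 : ℝ) ≤ 1) t
  have h1 : chi 1 = 1 := by
    unfold chi
    exact Real.smoothTransition.one_of_one_le (by norm_num)
  rw [h1, sub_self] at h
  have h2 : avg b t 0 = b t - t := by
    unfold avg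
    rw [if_pos rfl]
  rw [h2] at h
  simp only [Complex.ofReal_one, one_mul] at h
  rw [h]
  congr 1
  ring

lemma DiscExt_aux (T : ℂ ≃ₗᵢ[ℝ] ℂ) {s : ℂ → ℂ} {b : ℝ → ℝ} (hc : Continuous b)
    (hm : StrictMono b) (hp : ∀ t, b (t + 1) = b t + 1)
    (h : ∀ t : ℝ, s (ee t) = T (ee (b t))) :
    ∃ E : ℂ → ℂ, ContinuousOn E (closedBall 0 1) ∧ BijOn E (closedBall 0 1) (closedBall 0 1) ∧
      (∀ z ∈ sphere (0 : ℂ) 1, E z = s z) ∧ (∀ z ∈ ball (0 : ℂ) 1, DifferentiableAt ℝ E z) ∧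
      ∃ L : ℂ ≃L[ℝ] ℂ, HasFDerivAt E (L : ℂ →L[ℝ] ℂ) 0 := by
  have hT : BijOn T (closedBall 0 1) (closedBall 0 1) := by
    refine ⟨fun z hz => ?_, T.injective.injOn, fun z hz => ⟨T.symm z, ?_, ?_⟩⟩
    · rw [mem_closedBall_zero_iff] at hz ⊢
      rw [T.norm_map]
      exact hz
    · rw [mem_closedBall_zero_iff] at hz ⊢
      rw [T.symm.norm_map]
      exact hz
    · exact T.apply_symm_apply z
  refine ⟨fun z => T (E0 b z), (T.continuous.comp (E0_cont hc hp)).continuousOn,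
    hT.comp (E0_bij hc hm hp), fun z hz => ?_, fun z hz => ?_,
    T.toContinuousLinearEquiv, ?_⟩
  · obtain ⟨t, rfl⟩ := DiscExt_surj hz
    show T (E0 b (ee t)) = s (ee t)
    rw [DiscExt_E0 hp, h]
  · exact (T.toContinuousLinearEquiv.differentiableAt).comp z (E0_diff hc hp hz)
  · have h1 : HasFDerivAt (T : ℂ → ℂ) (T.toContinuousLinearEquiv : ℂ →L[ℝ] ℂ) (E0 b 0) :=
      T.toContinuousLinearEquiv.hasFDerivAt
    have h2 := h1.comp (0 : ℂ) (E0_zero b)
    rw [ContinuousLinearMap.comp_id] at h2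
    exact h2

/-- Proof. `circle_lift` gives `α`, `b`. In the first case `E z = ee α * E0 b z`, in the second case
`E z = ee α * conj (E0 b z)`; on the circle `z = ee t`, `E0 b (ee t) = ee (t + avg b t 0) = ee (b t)`. -/
theorem disc_ext {s : ℂ → ℂ} (hs : ContinuousOn s (sphere 0 1))
    (hb : BijOn s (sphere 0 1) (sphere 0 1)) :
    ∃ E : ℂ → ℂ, ContinuousOn E (closedBall 0 1) ∧ BijOn E (closedBall 0 1) (closedBall 0 1) ∧
      (∀ z ∈ sphere (0 : ℂ) 1, E z = s z) ∧ (∀ z ∈ ball (0 : ℂ) 1, DifferentiableAt ℝ E z) ∧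
      ∃ L : ℂ ≃L[ℝ] ℂ, HasFDerivAt E (L : ℂ →L[ℝ] ℂ) 0 := by
  obtain ⟨α, b, hp, h | h⟩ := circle_lift hs hb
  · refine DiscExt_aux (rotation (Circle.exp (2 * Real.pi * α))) b.continuous b.strictMono hp
      fun t => ?_
    rw [h t, rotation_apply, DiscExt_circle, DiscExt_ee_add]
  · refine DiscExt_aux (Complex.conjLIE.trans (rotation (Circle.exp (2 * Real.pi * α))))
      b.continuous b.strictMono hp fun t => ?_
    rw [h t, LinearIsometryEquiv.trans_apply, rotation_apply, DiscExt_circle,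
      Complex.conjLIE_apply, DiscExt_conj, ← DiscExt_ee_add, sub_eq_add_neg]

end Pool.Agent.W_cd67d3_h45
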