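import Pool.Agent.W_cd67d3_h45.Defs
import Pool.Agent.W_MP_cd67d3_gt.Mollify

/-!
# The encoding theorem for differentiable homeomorphisms
-/

namespace Pool.Agent.W_cd67d3_h45

open Metric Set Filter Topology
open Pool.Agent.W_MP_cd67d3_gt

attribute [local instance] homeoTopology

theorem EncodeD_diff {E : Type*} [NormedAddCommGroup E] [NormedSpace ℝ E] {v : E} (hv : ‖v‖ = 1)
    {e : ℕ → E → E} (he : ∀ (k : ℕ) (x : E), (k : ℝ) < ‖x‖ → e k x = x)
    (hc : ∀ k, Differentiable ℝ (e k)) : Differentiable ℝ (phiFun v e) := by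
  intro x
  obtain ⟨k, hk⟩ := phiFun_eventuallyEq hv he x
  have h1 : DifferentiableAt ℝ (conjT (center v k) (e k)) x := by
    unfold conjT
    have h2 : DifferentiableAt ℝ (fun x : E => x - center v k) x :=
      differentiableAt_id.sub_const _
    exact (((hc k) (x - center v k)).comp x h2).const_add _
  exact h1.congr_of_eventuallyEq hk

/-- Proof. As `W_MP_cd67d3_gt.encode` (file `Encode.lean`), with the homeomorphism
`phi v hv (encSeq s) (encSeq_supp s)`: it is differentiable because near each point it is equal to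
`conjT (center v k) (e k)` for some `k` (`phiFun_eventuallyEq`). -/
theorem encode_diff {n : ℕ} {v : Eu n} (hv : ‖v‖ = 1) (D : Set (Eu n ≃ₜ Eu n))
    (hD : ∀ h ∈ D, ∃ R : ℝ, ∀ x, R < ‖x‖ → h x = x) (hd : ∀ h ∈ D, Differentiable ℝ (fun x => h x)) :
    ∃ Φ : Eu n ≃ₜ Eu n, Differentiable ℝ (fun x => Φ x) ∧
      D ⊆ closure (Subgroup.closure {transl v, Φ} : Set (Eu n ≃ₜ Eu n)) := by
  have : ProperSpace (Eu n) := FiniteDimensional.proper ℝ (Eu n)
  obtain ⟨S, hSD, hSc, hDS⟩ := exists_countable_dense_subset D
  rcases S.eq_empty_or_nonempty with hS | hS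
  · refine ⟨1, differentiable_id, ?_⟩
    rw [hS, closure_empty] at hDS
    intro h hh
    exact absurd (hDS hh) (Set.notMem_empty _)
  obtain ⟨s, hs⟩ := hSc.exists_eq_range hS
  have hsD : ∀ i, s i ∈ D := fun i => hSD (hs ▸ Set.mem_range_self i)
  refine ⟨phi v hv (encSeq s) (encSeq_supp s), ?_, ?_⟩
  · refine EncodeD_diff hv (e := fun k => encSeq s k) (encSeq_supp s) fun k => ?_
    change Differentiable ℝ (fun x => encSeq s k x)
    unfold encSeq
    split_ifs
    · exact hd _ (hsD _)
    · exact differentiable_id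
  · set G : Set (Eu n ≃ₜ Eu n) :=
      (Subgroup.closure {transl v, phi v hv (encSeq s) (encSeq_supp s)} : Set (Eu n ≃ₜ Eu n))
      with hG
    have h1 : S ⊆ closure G := by
      rw [hs]
      rintro _ ⟨i, rfl⟩
      apply mem_closure_of_agree
      intro R
      obtain ⟨Ri, hRi⟩ := hD _ (hsD i)
      obtain ⟨j, hj⟩ := exists_nat_ge (max R (max Ri 1))
      set k := Nat.pair i j with hk
      have hjk : (j : ℝ) ≤ k := by exact_mod_cast Nat.right_le_pair i j
      have hek : encSeq s k = s i := by
        unfold encSeq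
        rw [hk, Nat.unpair_pair]
        rw [if_pos]
        intro x hx
        apply hRi
        have : Ri ≤ j := le_trans (le_trans (le_max_left _ _) (le_max_right _ _)) hj
        linarith
      have hRk : R < 2 * k := by
        have h1 : R ≤ j := le_trans (le_max_left _ _) hj
        have h2 : (1 : ℝ) ≤ j := le_trans (le_trans (le_max_right _ _) (le_max_right _ _)) hj
        linarith
      refine ⟨(transl v ^ (2 * k ^ 2))⁻¹ * phi v hv (encSeq s) (encSeq_supp s)
        * transl v ^ (2 * k ^ 2), ?_, ?_⟩
      · have m1 : transl v ∈ Subgroup.closure {transl v, phi v hv (encSeq s) (encSeq_supp s)} :=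
          Subgroup.subset_closure (by simp)
        have m2 : phi v hv (encSeq s) (encSeq_supp s) ∈
            Subgroup.closure {transl v, phi v hv (encSeq s) (encSeq_supp s)} :=
          Subgroup.subset_closure (by simp)
        exact mul_mem (mul_mem (inv_mem (pow_mem m1 _)) m2) (pow_mem m1 _)
      · intro x hx
        have := conj_phi hv (encSeq s) (encSeq_supp s) hRk hx
        rw [hek] at this
        exact this
    calc D ⊆ closure S := hDS
      _ ⊆ closure (closure G) := closure_mono h1
      _ = closure G := closure_closure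

end Pool.Agent.W_cd67d3_h45
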