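import Pool.Agent.W_cd67d3_h45.Osc

/-!
# The continuous extension of `v⁻¹ ψ` to the closed disc
-/

namespace Pool.Agent.W_cd67d3_h45

open Metric Set Filter Topology

/-- Proof. By `osc` the filter `map u (𝓝[ball 0 1] ζ)`, `u z = v.symm (ψ z)`, is a Cauchy filter for
each `ζ` in the sphere, so it has a limit; for `ζ` in the ball it has the limit `u ζ`
(`u` is continuous on the open ball). So `F = extendFrom (ball 0 1) u` is continuous on the closed ball
(`continuousOn_extendFrom`), and equals `u` on the ball. `F` maps the closed ball into the closed ball.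
If `ζ` is in the sphere and `F ζ` is in the ball, take `z n → ζ` in the ball; `u (z n) → F ζ`, and
applying the continuous inverse `φ ∘ v` of `u`, `z n → φ (v (F ζ))`, a point of the ball, but
`z n → ζ`. Finally `F '' closedBall 0 1` is compact and contains `u '' ball 0 1 = ball 0 1`
(for `w` in the ball, `u (φ (v w)) = w`), so it contains the closed ball. -/
theorem ext_u {v : ℂ ≃ₜ ℂ} {ψ φ : ℂ → ℂ} (h : Conf v ψ φ) :
    ∃ F : ℂ → ℂ, ContinuousOn F (closedBall 0 1) ∧
      (∀ z ∈ ball (0 : ℂ) 1, F z = v.symm (ψ z)) ∧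
      MapsTo F (sphere 0 1) (sphere 0 1) ∧ closedBall (0 : ℂ) 1 ⊆ F '' closedBall 0 1 := by
  set B : Set ℂ := ball 0 1 with hB
  set u : ℂ → ℂ := fun z => v.symm (ψ z) with hu
  have huB : ∀ z ∈ B, u z ∈ B := by
    intro z hz
    obtain ⟨w, hw, hwz⟩ := h.mψ hz
    have : u z = w := by rw [hu]; simp only [← hwz, Homeomorph.symm_apply_apply]
    rw [this]; exact hw
  have huc : ContinuousOn u B := v.symm.continuous.comp_continuousOn h.dψ.continuousOn
  have hcl : closure B = closedBall 0 1 := closure_ball (0 : ℂ) one_ne_zero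
  have hlim : ∀ x ∈ closedBall (0 : ℂ) 1, ∃ y, Tendsto u (𝓝[B] x) (𝓝 y) := by
    intro x hx
    by_cases hxB : x ∈ B
    · exact ⟨u x, huc x hxB⟩
    · have hxs : x ∈ sphere (0 : ℂ) 1 := by
        rw [mem_sphere]
        rw [hB, mem_ball, not_lt] at hxB
        exact le_antisymm (mem_closedBall.mp hx) hxB
      have hne : (𝓝[B] x).NeBot := by
        rw [← mem_closure_iff_nhdsWithin_neBot, hcl]; exact hx
      rw [← cauchy_map_iff_exists_tendsto, Metric.cauchy_iff]
      refine ⟨inferInstance, fun ε hε => ?_⟩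
      obtain ⟨δ, hδ, hosc⟩ := osc h (half_pos hε)
      refine ⟨u '' (B ∩ ball x δ), image_mem_map ?_, ?_⟩
      · exact inter_mem_nhdsWithin B (ball_mem_nhds x hδ)
      · rintro _ ⟨z, ⟨hz1, hz2⟩, rfl⟩ _ ⟨w, ⟨hw1, hw2⟩, rfl⟩
        exact lt_of_le_of_lt (hosc x hxs z hz1 w hw1 hz2 hw2) (half_lt_self hε)
  have hFlim : ∀ x ∈ closedBall (0 : ℂ) 1, Tendsto u (𝓝[B] x) (𝓝 (extendFrom B u x)) :=
    fun x hx => tendsto_extendFrom (hlim x hx)
  have hFc : ContinuousOn (extendFrom B u) (closedBall 0 1) :=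
    continuousOn_extendFrom hcl.ge hlim
  have hFu : ∀ z ∈ B, extendFrom B u z = u z := extendFrom_extends huc
  refine ⟨extendFrom B u, hFc, hFu, ?_, ?_⟩
  · intro ζ hζ
    have hζc : ζ ∈ closedBall (0 : ℂ) 1 := sphere_subset_closedBall hζ
    have hne : (𝓝[B] ζ).NeBot := by
      rw [← mem_closure_iff_nhdsWithin_neBot, hcl]; exact hζc
    have h1 : extendFrom B u ζ ∈ closedBall (0 : ℂ) 1 := by
      refine isClosed_closedBall.mem_of_tendsto (hFlim ζ hζc) ?_
      filter_upwards [self_mem_nhdsWithin] with z hz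
      exact ball_subset_closedBall (huB z hz)
    rw [mem_sphere]
    refine le_antisymm (mem_closedBall.mp h1) ?_
    by_contra hcon
    rw [not_le] at hcon
    have hFB : extendFrom B u ζ ∈ B := mem_ball.mpr hcon
    have hop : IsOpen (v '' B) := v.isOpenMap _ isOpen_ball
    have hg : ContinuousAt (fun w => φ (v w)) (extendFrom B u ζ) := by
      refine ContinuousAt.comp (f := v) (g := φ) ?_ v.continuous.continuousAt
      exact h.dφ.continuousOn.continuousAt (hop.mem_nhds (mem_image_of_mem _ hFB))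
    have h2 : Tendsto (fun z => φ (v (u z))) (𝓝[B] ζ) (𝓝 (φ (v (extendFrom B u ζ)))) :=
      Tendsto.comp (f := u) (g := fun w => φ (v w)) hg (hFlim ζ hζc)
    have h3 : Tendsto (fun z => φ (v (u z))) (𝓝[B] ζ) (𝓝 ζ) := by
      refine Tendsto.congr' ?_ (tendsto_id.mono_left nhdsWithin_le_nhds)
      filter_upwards [self_mem_nhdsWithin] with z hz
      simp only [hu, Homeomorph.apply_symm_apply, id_eq]
      exact (h.l z hz).symm
    have h4 := tendsto_nhds_unique h3 h2
    have h5 : φ (v (extendFrom B u ζ)) ∈ ball (0 : ℂ) 1 := h.mφ (mem_image_of_mem _ hFB)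
    rw [← h4] at h5
    exact absurd (mem_sphere.mp hζ) (mem_ball.mp h5).ne
  · have hcomp : IsCompact (extendFrom B u '' closedBall 0 1) :=
      (isCompact_closedBall (0 : ℂ) 1).image_of_continuousOn hFc
    rw [← hcl]
    refine closure_minimal ?_ (hcl ▸ hcomp.isClosed)
    intro w hw
    have h1 : φ (v w) ∈ ball (0 : ℂ) 1 := h.mφ (mem_image_of_mem _ hw)
    refine ⟨φ (v w), subset_closure h1, ?_⟩
    rw [hFu _ h1]
    simp only [hu]
    rw [h.r _ (mem_image_of_mem _ hw), Homeomorph.symm_apply_apply]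

end Pool.Agent.W_cd67d3_h45
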