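import Pool.Agent.W_cd67d3_h45.MontelA

/-!
# Montel's theorem
-/

namespace Pool.Agent.W_cd67d3_h45

open Metric Set Filter Topology

theorem MontelB_diag {U : Set ℂ} {F : ℕ → ℂ → ℂ} (hb : ∀ n, ∀ z ∈ U, ‖F n z‖ ≤ 1)
    (D : Set ℂ) (hD : D ⊆ U) (hc : D.Countable) :
    ∃ (φ : ℕ → ℕ), StrictMono φ ∧ ∀ d ∈ D, CauchySeq (fun n => F (φ n) d) := by
  have : Countable D := hc.to_subtype
  let x : ℕ → (D → closedBall (0 : ℂ) 1) := fun n d =>
    ⟨F n d, mem_closedBall_zero_iff.2 (hb n d (hD d.2))⟩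
  have : CompactSpace (closedBall (0 : ℂ) 1) :=
    isCompact_iff_compactSpace.1 (isCompact_closedBall 0 1)
  obtain ⟨a, φ, hφ, ha⟩ := CompactSpace.tendsto_subseq x
  refine ⟨φ, hφ, ?_⟩
  intro d hd
  have h1 := (tendsto_pi_nhds.1 ha) ⟨d, hd⟩
  have h2 : Tendsto (fun n => ((x (φ n) ⟨d, hd⟩ : closedBall (0 : ℂ) 1) : ℂ)) atTop
      (𝓝 ((a ⟨d, hd⟩ : closedBall (0 : ℂ) 1) : ℂ)) :=
    (continuous_subtype_val.tendsto _).comp h1
  exact h2.cauchySeq

/-- Proof. Let `D` be a countable dense subset of `U`. By the diagonal argument (or: the product of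
countably many copies of the compact metrisable space `closedBall 0 1` is compact and metrisable, so
sequentially compact) there is a subsequence which converges at every point of `D`. By
`montel_equi` it converges (Cauchy) uniformly near each point of `U`; the pointwise limit `f` is the
limit locally uniformly. (Or use Arzelà-Ascoli from Mathlib.) -/
theorem montel {U : Set ℂ} (hU : IsOpen U) {F : ℕ → ℂ → ℂ}
    (hF : ∀ n, DifferentiableOn ℂ (F n) U) (hb : ∀ n, ∀ z ∈ U, ‖F n z‖ ≤ 1) :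
    ∃ (f : ℂ → ℂ) (φ : ℕ → ℕ), StrictMono φ ∧
      TendstoLocallyUniformlyOn (fun n => F (φ n)) f atTop U := by
  obtain ⟨D, hDU, hDc, hDd⟩ :=
    (TopologicalSpace.IsSeparable.of_separableSpace U).exists_countable_dense_subset
  obtain ⟨φ, hφ, hC⟩ := MontelB_diag hb D hDU hDc
  have key : ∀ x ∈ U, ∀ ε : ℝ, 0 < ε → ∃ δ > 0, ball x δ ⊆ U ∧ ∃ N : ℕ, ∀ n, N ≤ n →
      ∀ m, N ≤ m → ∀ y ∈ ball x δ, ‖F (φ n) y - F (φ m) y‖ ≤ 3 * ε := by
    intro x hx ε hε
    obtain ⟨δ, hδ, hsub, hδF⟩ := montel_equi hU hx ε hε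
    obtain ⟨d, hdb, hdD⟩ := Metric.mem_closure_iff.1 (hDd hx) δ hδ
    have hdball : d ∈ ball x δ := by
      rw [mem_ball, dist_comm]
      exact hdD
    obtain ⟨N, hN⟩ := Metric.cauchySeq_iff.1 (hC d hdb) ε hε
    refine ⟨δ, hδ, hsub, N, ?_⟩
    intro n hn m hm y hy
    have h1 := hδF (F (φ n)) (hF _) (hb _) y hy d hdball
    have h2 := hδF (F (φ m)) (hF _) (hb _) d hdball y hy
    have h3 := hN n hn m hm
    rw [dist_eq_norm] at h3
    have h4 : F (φ n) y - F (φ m) y = (F (φ n) y - F (φ n) d) + (F (φ n) d - F (φ m) d) +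
        (F (φ m) d - F (φ m) y) := by ring
    rw [h4]
    calc ‖(F (φ n) y - F (φ n) d) + (F (φ n) d - F (φ m) d) + (F (φ m) d - F (φ m) y)‖
        ≤ ‖F (φ n) y - F (φ n) d‖ + ‖F (φ n) d - F (φ m) d‖ + ‖F (φ m) d - F (φ m) y‖ :=
          norm_add₃_le
      _ ≤ 3 * ε := by linarith
  have hlim : ∀ y, ∃ l : ℂ, y ∈ U → Tendsto (fun n => F (φ n) y) atTop (𝓝 l) := by
    intro y
    by_cases hy : y ∈ U
    · have hcs : CauchySeq (fun n => F (φ n) y) := by
        rw [Metric.cauchySeq_iff]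
        intro ε hε
        obtain ⟨δ, hδ, -, N, hN⟩ := key y hy (ε / 4) (by positivity)
        refine ⟨N, fun m hm n hn => ?_⟩
        rw [dist_eq_norm]
        have := hN m hm n hn y (mem_ball_self hδ)
        linarith
      obtain ⟨l, hl⟩ := cauchySeq_tendsto_of_complete hcs
      exact ⟨l, fun _ => hl⟩
    · exact ⟨0, fun h => absurd h hy⟩
  choose f hf using hlim
  refine ⟨f, φ, hφ, ?_⟩
  rw [Metric.tendstoLocallyUniformlyOn_iff]
  intro ε hε x hx
  obtain ⟨δ, hδ, hsub, N, hN⟩ := key x hx (ε / 4) (by positivity)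
  refine ⟨ball x δ, mem_nhdsWithin_of_mem_nhds (ball_mem_nhds x hδ), ?_⟩
  filter_upwards [eventually_ge_atTop N] with n hn
  intro y hy
  have h1 : Tendsto (fun m => ‖F (φ m) y - F (φ n) y‖) atTop (𝓝 ‖f y - F (φ n) y‖) :=
    ((hf y (hsub hy)).sub_const _).norm
  have h2 : ‖f y - F (φ n) y‖ ≤ 3 * (ε / 4) := by
    refine le_of_tendsto h1 ?_
    filter_upwards [eventually_ge_atTop N] with m hm
    exact hN m hm n hn y hy
  rw [dist_eq_norm]
  linarith

end Pool.Agent.W_cd67d3_h45
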