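import Pool.Agent.W_cd67d3_h45.Hurwitz
import Pool.Agent.W_cd67d3_h45.MontelB

/-!
# The extremal problem of Riemann's mapping theorem has a solution
-/

namespace Pool.Agent.W_cd67d3_h45

open Metric Set Filter Topology

/-- Proof. Let `M` be the supremum of `‖deriv g a‖` over the family (finite by `deriv_bdd`),
`M ≥ ‖deriv f0 a‖ > 0`. Take `F n` in the family with `‖deriv (F n) a‖ → M`, a locally uniformly
convergent subsequence (`montel`) with limit `f`. `f` is holomorphic, `‖f‖ ≤ 1`, `f a = 0`,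
`‖deriv f a‖ = M` (`TendstoLocallyUniformlyOn.deriv`), so `f` is not constant on `U` (otherwise the
derivative at `a` would be `0`), so `f` is injective (`hurwitz_inj`) and `‖f‖ < 1` on `U` by the maximum
modulus principle (`Complex.eqOn_of_isPreconnected_of_isMaxOn_norm`). -/
theorem exists_extremal {U : Set ℂ} (hU : IsOpen U) (hc : IsPreconnected U) {a : ℂ} (ha : a ∈ U)
    {f0 : ℂ → ℂ} (hf0 : Fam U a f0) (hd : deriv f0 a ≠ 0) :
    ∃ f, Fam U a f ∧ deriv f a ≠ 0 ∧ ∀ g, Fam U a g → ‖deriv g a‖ ≤ ‖deriv f a‖ := by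
  obtain ⟨C, hC⟩ := deriv_bdd hU ha
  have hbd : ∀ g, Fam U a g → ∀ z ∈ U, ‖g z‖ ≤ 1 := by
    intro g hg z hz
    have := hg.m hz
    rw [mem_ball_zero_iff] at this
    exact this.le
  set S : Set ℝ := {t | ∃ g, Fam U a g ∧ t = ‖deriv g a‖} with hS
  have hne : S.Nonempty := ⟨_, f0, hf0, rfl⟩
  have hbdd : BddAbove S := by
    refine ⟨C, ?_⟩
    rintro t ⟨g, hg, rfl⟩
    exact hC g hg.d (hbd g hg)
  obtain ⟨u, -, hu, huS⟩ := exists_seq_tendsto_sSup hne hbdd
  choose F hF hFu using huS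
  obtain ⟨f, φ, hφ, hlim⟩ := montel hU (fun n => (hF n).d) (fun n => hbd _ (hF n))
  have hdiff : DifferentiableOn ℂ f U :=
    hlim.differentiableOn (Eventually.of_forall fun n => (hF (φ n)).d) hU
  have hder : Tendsto (fun n => deriv (F (φ n)) a) atTop (𝓝 (deriv f a)) := by
    have h1 := hlim.deriv (Eventually.of_forall fun n => (hF (φ n)).d) hU
    exact h1.tendsto_at ha
  have hM : ‖deriv f a‖ = sSup S := by
    have h1 : Tendsto (fun n => ‖deriv (F (φ n)) a‖) atTop (𝓝 ‖deriv f a‖) := hder.norm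
    have h2 : Tendsto (fun n => u (φ n)) atTop (𝓝 (sSup S)) := hu.comp hφ.tendsto_atTop
    have h3 : (fun n => u (φ n)) = fun n => ‖deriv (F (φ n)) a‖ := by
      funext n
      exact hFu (φ n)
    rw [h3] at h2
    exact tendsto_nhds_unique h1 h2
  have hmax : ∀ g, Fam U a g → ‖deriv g a‖ ≤ ‖deriv f a‖ := by
    intro g hg
    rw [hM]
    exact le_csSup hbdd ⟨g, hg, rfl⟩
  have hpos : deriv f a ≠ 0 := by
    intro h0
    have h1 := hmax f0 hf0
    rw [h0, norm_zero] at h1
    exact hd (norm_le_zero_iff.mp h1)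
  have hfa : f a = 0 := by
    have h1 : Tendsto (fun n => F (φ n) a) atTop (𝓝 (f a)) := hlim.tendsto_at ha
    have h2 : (fun n => F (φ n) a) = fun _ => (0 : ℂ) := by
      funext n
      exact (hF (φ n)).z
    rw [h2] at h1
    exact (tendsto_nhds_unique h1 tendsto_const_nhds)
  have hle : ∀ z ∈ U, ‖f z‖ ≤ 1 := by
    intro z hz
    have h1 : Tendsto (fun n => ‖F (φ n) z‖) atTop (𝓝 ‖f z‖) := (hlim.tendsto_at hz).norm
    exact le_of_tendsto h1 (Eventually.of_forall fun n => hbd _ (hF (φ n)) z hz)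
  have hnc : ∃ x ∈ U, ∃ y ∈ U, f x ≠ f y := by
    by_contra hcon
    push Not at hcon
    apply hpos
    have h1 : f =ᶠ[𝓝 a] fun _ => f a := by
      filter_upwards [hU.mem_nhds ha] with z hz
      exact hcon z hz a ha
    rw [h1.deriv_eq]
    exact deriv_const a (f a)
  refine ⟨f, ⟨hdiff, ?_, ?_, hfa⟩, hpos, hmax⟩
  · intro z hz
    rw [mem_ball_zero_iff]
    refine lt_of_le_of_ne (hle z hz) fun h1 => ?_
    have hm : IsMaxOn (norm ∘ f) U z := by
      intro w hw
      change ‖f w‖ ≤ ‖f z‖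
      rw [h1]
      exact hle w hw
    have h2 := Complex.norm_eqOn_of_isPreconnected_of_isMaxOn hc hU hdiff hz hm ha
    simp only [Function.comp_apply, Function.const_apply, hfa, norm_zero, h1] at h2
    exact absurd h2 zero_ne_one
  · exact hurwitz_inj hU hc (fun n => (hF (φ n)).d) (fun n => (hF (φ n)).i) hlim hnc

end Pool.Agent.W_cd67d3_h45
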