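import Pool.Agent.W_cd67d3_h45.Blowup

/-!
# Closed subgroups which contain the compactly supported homeomorphisms
-/

namespace Pool.Agent.W_cd67d3_h45

open Metric Set Filter Topology
open Pool.Agent.W_MP_cd67d3_gt

attribute [local instance] homeoTopology

/-- The compactly supported homeomorphisms. -/
def MTrick_C (n : ℕ) : Subgroup (Eu n ≃ₜ Eu n) where
  carrier := {g | ∃ R : ℝ, ∀ x, R < ‖x‖ → g x = x}
  mul_mem' := by
    rintro g h ⟨R1, hg⟩ ⟨R2, hh⟩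
    refine ⟨max R1 R2, fun x hx => ?_⟩
    rw [Homeomorph.mul_apply, hh x (lt_of_le_of_lt (le_max_right _ _) hx),
      hg x (lt_of_le_of_lt (le_max_left _ _) hx)]
  one_mem' := ⟨0, fun _ _ => rfl⟩
  inv_mem' := by
    rintro g ⟨R, hg⟩
    refine ⟨R, fun x hx => ?_⟩
    rw [Homeomorph.inv_apply, g.symm_apply_eq, hg x hx]

lemma MTrick_mem_C {n : ℕ} {g : Eu n ≃ₜ Eu n} :
    g ∈ MTrick_C n ↔ ∃ R : ℝ, ∀ x, R < ‖x‖ → g x = x := Iff.rfl

instance MTrick_normal (n : ℕ) : (MTrick_C n).Normal := by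
  refine ⟨fun c hc h => ?_⟩
  obtain ⟨R1, hc2⟩ := hc
  have hK : IsCompact (h '' (Metric.closedBall 0 R1)) :=
    (isCompact_closedBall 0 R1).image h.continuous
  obtain ⟨R2, hR2⟩ := hK.isBounded.exists_norm_le
  refine ⟨R2, fun x hx => ?_⟩
  have h1 : R1 < ‖h⁻¹ x‖ := by
    by_contra hcon
    push Not at hcon
    have h2 := hR2 (h (h⁻¹ x)) ⟨h⁻¹ x, mem_closedBall_zero_iff.2 hcon, rfl⟩
    rw [Homeomorph.inv_apply, h.apply_symm_apply] at h2
    linarith
  rw [Homeomorph.mul_apply, Homeomorph.mul_apply, hc2 _ h1, Homeomorph.inv_apply,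
    h.apply_symm_apply]

lemma MTrick_zero {n : ℕ} {H : Subgroup (Eu n ≃ₜ Eu n)} (hcl : IsClosed (H : Set (Eu n ≃ₜ Eu n)))
    (hCS : ∀ g : Eu n ≃ₜ Eu n, (∃ R : ℝ, ∀ x, R < ‖x‖ → g x = x) → g ∈ H)
    {i₀ : Fin n} (hrefl : scale i₀ (-1) (by norm_num) ∈ H) (f : Eu n ≃ₜ Eu n)
    (L : Eu n ≃L[ℝ] Eu n) (h0 : f 0 = 0)
    (hf : HasFDerivAt (fun x => f x) (L : Eu n →L[ℝ] Eu n) 0) : f ∈ H := by
  have : IsTopologicalGroup (Eu n ≃ₜ Eu n) := isTopologicalGroup
  have hDM : compDiffeo (Eu n) ⊤ ⊆ ((MTrick_C n).topologicalClosure : Set (Eu n ≃ₜ Eu n)) :=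
    fun h hh => (MTrick_C n).le_topologicalClosure hh.2
  have hDH : compDiffeo (Eu n) ⊤ ⊆ (H : Set (Eu n ≃ₜ Eu n)) := fun h hh => hCS h hh.2
  have hMH : (MTrick_C n).topologicalClosure ≤ H :=
    (MTrick_C n).topologicalClosure_minimal (fun g hg => hCS g hg) hcl
  have hMcl : IsClosed ((MTrick_C n).topologicalClosure : Set (Eu n ≃ₜ Eu n)) :=
    (MTrick_C n).isClosed_topologicalClosure
  have hMn : (MTrick_C n).topologicalClosure.Normal :=
    Subgroup.is_normal_topologicalClosure (MTrick_C n)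
  have hmem : ∀ k : ℕ, ((ho n k)⁻¹ * f * ho n k) * f⁻¹ ∈ (MTrick_C n).topologicalClosure := by
    intro k
    have h1 : ho n k ∈ (MTrick_C n).topologicalClosure := ho_mem hMcl hDM k
    have h2 : ((ho n k)⁻¹ * f * ho n k) * f⁻¹ = (ho n k)⁻¹ * (f * ho n k * f⁻¹) := by
      group
    rw [h2]
    exact mul_mem (inv_mem h1) (hMn.conj_mem _ h1 f)
  have hlim : Tendsto (fun k : ℕ => ((ho n k)⁻¹ * f * ho n k) * f⁻¹) atTop
      (𝓝 (L.toHomeomorph * f⁻¹)) := (blowup f L h0 hf).mul tendsto_const_nhds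
  have hL1 : L.toHomeomorph * f⁻¹ ∈ H :=
    hMH (hMcl.mem_of_tendsto hlim (Eventually.of_forall hmem))
  have hL2 : L.toHomeomorph ∈ H := linear_mem (r := ⊤) le_top hcl hDH hrefl L
  have h3 : f = (L.toHomeomorph * f⁻¹)⁻¹ * L.toHomeomorph := by group
  rw [h3]
  exact mul_mem (inv_mem hL1) hL2

/-- Proof. The compactly supported homeomorphisms form a normal subgroup `C` (cf. `compDiffeo_conj`), so
its topological closure `M` is a closed normal subgroup (`Subgroup.is_normal_topologicalClosure`), and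
`M ≤ H`. By translations (`transl_mem`, for `H` and the points `x`, `f x`) we may assume `x = 0`,
`f 0 = 0`. `ho n k ∈ M` by `ho_mem`. So
`((ho n k)⁻¹ * f * ho n k) * f⁻¹ = (ho n k)⁻¹ * (f * ho n k * f⁻¹) ∈ M`, and in the limit (`blowup`)
`L.toHomeomorph * f⁻¹ ∈ M ≤ H`. `L.toHomeomorph ∈ H` by `linear_mem`, so `f ∈ H`. -/
theorem mtrick {n : ℕ} {H : Subgroup (Eu n ≃ₜ Eu n)} (hcl : IsClosed (H : Set (Eu n ≃ₜ Eu n)))
    (hCS : ∀ g : Eu n ≃ₜ Eu n, (∃ R : ℝ, ∀ x, R < ‖x‖ → g x = x) → g ∈ H)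
    {i₀ : Fin n} (hrefl : scale i₀ (-1) (by norm_num) ∈ H) (f : Eu n ≃ₜ Eu n) (x : Eu n)
    (L : Eu n ≃L[ℝ] Eu n) (hf : HasFDerivAt (fun x => f x) (L : Eu n →L[ℝ] Eu n) x) : f ∈ H := by
  have hDH : compDiffeo (Eu n) ⊤ ⊆ (H : Set (Eu n ≃ₜ Eu n)) := fun h hh => hCS h hh.2
  have ht : ∀ v : Eu n, transl v ∈ H := fun v => transl_mem (r := ⊤) le_top hcl hDH v
  have hval : ∀ y : Eu n, ((transl (f x))⁻¹ * f * transl x) y = f (x + y) - f x := by
    intro y
    rw [Homeomorph.mul_apply, Homeomorph.mul_apply, Homeomorph.inv_apply, transl_symm_apply,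
      transl_apply]
  have h1 : (transl (f x))⁻¹ * f * transl x ∈ H := by
    refine MTrick_zero hcl hCS hrefl _ L ?_ ?_
    · rw [hval, add_zero, sub_self]
    · have h2 : (fun y => ((transl (f x))⁻¹ * f * transl x) y) = fun y => f (x + y) - f x :=
        funext hval
      rw [h2]
      have h3 : HasFDerivAt (fun y : Eu n => x + y) (ContinuousLinearMap.id ℝ (Eu n)) 0 :=
        (hasFDerivAt_id _).const_add x
      have h4 : HasFDerivAt (fun x => f x) (L : Eu n →L[ℝ] Eu n) (x + 0) := by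
        rw [add_zero]
        exact hf
      have h5 := (h4.comp (0 : Eu n) h3).sub_const (f x)
      rw [ContinuousLinearMap.comp_id] at h5
      exact h5
  have h2 : f = transl (f x) * ((transl (f x))⁻¹ * f * transl x) * (transl x)⁻¹ := by group
  rw [h2]
  exact mul_mem (mul_mem (ht _) h1) (inv_mem (ht _))

end Pool.Agent.W_cd67d3_h45
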