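import Pool.Agent.W_cd67d3_h45.Density
import Pool.Agent.W_MP_cd67d3_gt.Mollify

/-!
# Transfer from the complex plane to the Euclidean plane
-/

namespace Pool.Agent.W_cd67d3_h45

open Metric Set Filter Topology
open Pool.Agent.W_MP_cd67d3_gt

attribute [local instance] homeoTopology

/-- The isometry between the complex plane and the Euclidean plane. -/
noncomputable def Transfer_e : ℂ ≃ₗᵢ[ℝ] Eu 2 := Complex.orthonormalBasisOneI.repr

/-- `e⁻¹ h e`. -/
noncomputable def Transfer_down (h : Eu 2 ≃ₜ Eu 2) : ℂ ≃ₜ ℂ :=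
  (Transfer_e.toHomeomorph.trans h).trans Transfer_e.symm.toHomeomorph

/-- `e f e⁻¹`. -/
noncomputable def Transfer_up (f : ℂ ≃ₜ ℂ) : Eu 2 ≃ₜ Eu 2 :=
  (Transfer_e.symm.toHomeomorph.trans f).trans Transfer_e.toHomeomorph

theorem Transfer_down_apply (h : Eu 2 ≃ₜ Eu 2) (z : ℂ) :
    Transfer_down h z = Transfer_e.symm (h (Transfer_e z)) := rfl

theorem Transfer_up_apply (f : ℂ ≃ₜ ℂ) (x : Eu 2) :
    Transfer_up f x = Transfer_e (f (Transfer_e.symm x)) := rfl

theorem Transfer_up_symm_apply (f : ℂ ≃ₜ ℂ) (x : Eu 2) :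
    (Transfer_up f).symm x = Transfer_e (f.symm (Transfer_e.symm x)) := rfl

/-- Proof. Let `e : ℂ ≃ₗᵢ[ℝ] Eu 2` be `Complex.orthonormalBasisOneI.repr`. Apply `density` with
`ε = 1 / (k + 1)` to `e⁻¹ g e`; this gives differentiable `f k` on `Eu 2`, the identity outside a ball,
with `‖((f k)⁻¹ * g) x - x‖ ≤ 1 / (k + 1)`. So `(f k)⁻¹ * g → 1` (`tendsto_one`), and
`f k = g * ((f k)⁻¹ * g)⁻¹ → g` (`isTopologicalGroup`). -/
theorem cs_mem_closure (g : Eu 2 ≃ₜ Eu 2) (hg : ∃ R : ℝ, ∀ x, R < ‖x‖ → g x = x) :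
    g ∈ closure {f : Eu 2 ≃ₜ Eu 2 | Differentiable ℝ (fun x => f x) ∧
      ∃ R : ℝ, ∀ x, R < ‖x‖ → f x = x} := by
  have hG : IsTopologicalGroup (Eu 2 ≃ₜ Eu 2) := isTopologicalGroup
  obtain ⟨R, hR⟩ := hg
  have hg' : ∀ z : ℂ, R + 1 ≤ ‖z‖ → Transfer_down g z = z := by
    intro z hz
    rw [Transfer_down_apply, hR (Transfer_e z) (by rw [LinearIsometryEquiv.norm_map]; linarith),
      LinearIsometryEquiv.symm_apply_apply]
  have hk : ∀ k : ℕ, (0 : ℝ) < 1 / ((k : ℝ) + 1) := fun k => by positivity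
  choose f hf1 hf2 hf3 using fun k : ℕ => density (Transfer_down g) hg' (hk k)
  set F : ℕ → (Eu 2 ≃ₜ Eu 2) := fun k => Transfer_up (f k) with hF
  have hP : ∀ (k : ℕ) (x : Eu 2), ‖((F k)⁻¹ * g) x - x‖ ≤ 1 / ((k : ℝ) + 1) := by
    intro k x
    have h1 := hf3 k (Transfer_e.symm x)
    rw [dist_eq_norm, Transfer_down_apply, LinearIsometryEquiv.apply_symm_apply] at h1
    have h2 : ((F k)⁻¹ * g) x = Transfer_e ((f k).symm (Transfer_e.symm (g x))) := rfl
    have h3 : x = Transfer_e (Transfer_e.symm x) := by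
      rw [LinearIsometryEquiv.apply_symm_apply]
    rw [h2]
    nth_rw 2 [h3]
    rw [← map_sub, LinearIsometryEquiv.norm_map]
    exact h1
  have ht : Tendsto (fun k => (F k)⁻¹ * g) atTop (𝓝 1) :=
    tendsto_one tendsto_one_div_add_atTop_nhds_zero_nat hP
  have ht2 : Tendsto (fun k => g * ((F k)⁻¹ * g)⁻¹) atTop (𝓝 (g * 1⁻¹)) :=
    ht.inv.const_mul g
  have he : (fun k => g * ((F k)⁻¹ * g)⁻¹) = F := by
    funext k
    group
  rw [he, inv_one, mul_one] at ht2
  refine mem_closure_of_tendsto ht2 (Filter.Eventually.of_forall fun k => ⟨?_, R + 1 + 1 / ((k : ℝ) + 1), fun x hx => ?_⟩)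
  · have h1 : (fun x => F k x) = (fun x => Transfer_e (f k (Transfer_e.symm x))) := rfl
    rw [h1]
    exact Transfer_e.differentiable.comp ((hf1 k).comp Transfer_e.symm.differentiable)
  · have h1 : F k x = Transfer_e (f k (Transfer_e.symm x)) := rfl
    rw [h1, hf2 k (Transfer_e.symm x) (by rw [LinearIsometryEquiv.norm_map]; exact hx.le),
      LinearIsometryEquiv.apply_symm_apply]

/-- Proof. `lemma_M` for `e⁻¹ f e`, `c = 0`, `R = 1`. -/
theorem lemma_M_two (f : Eu 2 ≃ₜ Eu 2) : ∃ a : Eu 2 ≃ₜ Eu 2, (∀ x, 1 < ‖x‖ → a x = x) ∧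
    ∃ L : Eu 2 ≃L[ℝ] Eu 2, HasFDerivAt (fun x => (f * a) x) (L : Eu 2 →L[ℝ] Eu 2) 0 := by
  obtain ⟨a, ha1, -, L, hL⟩ := lemma_M (Transfer_down f) 0 one_pos
  refine ⟨Transfer_up a, fun x hx => ?_, ?_⟩
  · rw [Transfer_up_apply, ha1 (Transfer_e.symm x)
      (by rw [dist_zero_right, LinearIsometryEquiv.norm_map]; exact hx.le),
      LinearIsometryEquiv.apply_symm_apply]
  · refine ⟨(Transfer_e.symm.toContinuousLinearEquiv.trans L).trans
      Transfer_e.toContinuousLinearEquiv, ?_⟩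
    have h1 : (fun x => (f * Transfer_up a) x) =
        (fun x => Transfer_e (Transfer_down f (a (Transfer_e.symm x)))) := by
      funext x
      rw [Transfer_down_apply, LinearIsometryEquiv.apply_symm_apply]
      rfl
    rw [h1]
    have h2 : HasFDerivAt (fun x : Eu 2 => Transfer_e.symm x)
        (Transfer_e.symm.toContinuousLinearEquiv : Eu 2 →L[ℝ] ℂ) 0 :=
      Transfer_e.symm.toContinuousLinearEquiv.hasFDerivAt
    have h3 : HasFDerivAt (fun z : ℂ => Transfer_e z)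
        (Transfer_e.toContinuousLinearEquiv : ℂ →L[ℝ] Eu 2)
        (Transfer_down f (a (Transfer_e.symm 0))) :=
      Transfer_e.toContinuousLinearEquiv.hasFDerivAt
    have hL' : HasFDerivAt (fun y => Transfer_down f (a y)) (L : ℂ →L[ℝ] ℂ) (Transfer_e.symm 0) := by
      rw [map_zero]; exact hL
    have h4 := h3.comp (0 : Eu 2) (hL'.comp (0 : Eu 2) h2)
    exact h4

end Pool.Agent.W_cd67d3_h45
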