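import Pool.Agent.W_cd67d3_h45.EncodeD
import Pool.Agent.W_cd67d3_h45.MTrick
import Pool.Agent.W_cd67d3_h45.Transfer
import Pool.Agent.W_cd67d3_h45.DimOneB

/-!
# Three differentiable homeomorphisms generate a dense subgroup in dimensions one and two
-/

namespace Pool.Agent.W_cd67d3_h45

open Metric Set Filter Topology
open Pool.Agent.W_MP_cd67d3_gt

attribute [local instance] homeoTopology

theorem Final_two : ∃ h₁ h₂ h₃ : Eu 2 ≃ₜ Eu 2, Differentiable ℝ (fun x => h₁ x) ∧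
    Differentiable ℝ (fun x => h₂ x) ∧ Differentiable ℝ (fun x => h₃ x) ∧
    ∀ g : Eu 2 ≃ₜ Eu 2, g ∈ closure (Subgroup.closure {h₁, h₂, h₃} : Set (Eu 2 ≃ₜ Eu 2)) := by
  have : IsTopologicalGroup (Eu 2 ≃ₜ Eu 2) := isTopologicalGroup
  set i₀ : Fin 2 := 0
  set v : Eu 2 := EuclideanSpace.single i₀ 1 with hv
  have hv1 : ‖v‖ = 1 := by rw [hv, PiLp.norm_single, norm_one]
  obtain ⟨Φ, hΦ1, hΦ2⟩ := encode_diff hv1 {f : Eu 2 ≃ₜ Eu 2 | Differentiable ℝ (fun x => f x) ∧
      ∃ R : ℝ, ∀ x, R < ‖x‖ → f x = x} (fun h hh => hh.2) (fun h hh => hh.1)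
  set ρ : Eu 2 ≃ₜ Eu 2 := scale i₀ (-1) (by norm_num) with hρ
  refine ⟨transl v, Φ, ρ, ?_, hΦ1, ?_, ?_⟩
  · change Differentiable ℝ (fun x => v + x)
    fun_prop
  · change Differentiable ℝ (fun x : Eu 2 => x + elem i₀ i₀ (-1 - 1) x)
    fun_prop
  · set H : Subgroup (Eu 2 ≃ₜ Eu 2) :=
      (Subgroup.closure {transl v, Φ, ρ}).topologicalClosure with hH
    have hcl : IsClosed (H : Set (Eu 2 ≃ₜ Eu 2)) :=
      (Subgroup.closure {transl v, Φ, ρ}).isClosed_topologicalClosure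
    have hsub : (closure (Subgroup.closure {transl v, Φ} : Set (Eu 2 ≃ₜ Eu 2))) ⊆ H := by
      apply closure_mono
      have : ({transl v, Φ} : Set (Eu 2 ≃ₜ Eu 2)) ⊆ {transl v, Φ, ρ} := by
        intro x hx
        rcases hx with rfl | rfl
        · simp
        · simp
      exact Subgroup.closure_mono this
    have hCS : ∀ g : Eu 2 ≃ₜ Eu 2, (∃ R : ℝ, ∀ x, R < ‖x‖ → g x = x) → g ∈ H := by
      intro g hg
      exact closure_minimal (hΦ2.trans hsub) hcl (cs_mem_closure g hg)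
    have hrefl : ρ ∈ H := subset_closure (Subgroup.subset_closure (by simp))
    intro g
    obtain ⟨a, ha, L, hL⟩ := lemma_M_two g
    have h1 : g * a ∈ H := mtrick hcl hCS hrefl _ _ L hL
    have h2 : a ∈ H := hCS a ⟨1, ha⟩
    have h3 : g = (g * a) * a⁻¹ := by group
    change g ∈ H
    rw [h3]
    exact mul_mem h1 (inv_mem h2)

theorem Final_one : ∃ h₁ h₂ h₃ : Eu 1 ≃ₜ Eu 1, Differentiable ℝ (fun x => h₁ x) ∧
    Differentiable ℝ (fun x => h₂ x) ∧ Differentiable ℝ (fun x => h₃ x) ∧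
    ∀ g : Eu 1 ≃ₜ Eu 1, g ∈ closure (Subgroup.closure {h₁, h₂, h₃} : Set (Eu 1 ≃ₜ Eu 1)) := by
  obtain ⟨h₁, h₂, h₃, hh₁, hh₂, hh₃, h⟩ := main 1
  refine ⟨h₁, h₂, h₃, ?_, ?_, ?_, ?_⟩
  · exact hh₁.1.differentiable (by simp)
  · exact hh₂.1.differentiable (by simp)
  · exact hh₃.1.differentiable (by simp)
  · intro g
    exact closure_minimal (fun f hf => h f hf) isClosed_closure (dim_one_dense g)

/-- In dimensions at most two there are three differentiable homeomorphisms which generate a dense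
subgroup of the homeomorphism group of Euclidean space. -/
theorem final (n : ℕ) (hn : n ≤ 2) : ∃ h₁ h₂ h₃ : Eu n ≃ₜ Eu n,
    Differentiable ℝ (fun x => h₁ x) ∧ Differentiable ℝ (fun x => h₂ x) ∧
    Differentiable ℝ (fun x => h₃ x) ∧
    ∀ g : Eu n ≃ₜ Eu n, g ∈ closure (Subgroup.closure {h₁, h₂, h₃} : Set (Eu n ≃ₜ Eu n)) := by
  interval_cases n
  · refine ⟨1, 1, 1, differentiable_id, differentiable_id, differentiable_id, fun g => ?_⟩
    have : g = 1 := by
      ext x i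
      exact i.elim0
    rw [this]
    exact subset_closure (one_mem _)
  · exact Final_one
  · exact Final_two

end Pool.Agent.W_cd67d3_h45
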