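import Pool.Agent.W_cd67d3_h45.Defs

/-!
# Radial homeomorphisms
-/

namespace Pool.Agent.W_cd67d3_h45

open Metric Set Filter Topology

/-- the radial map -/
noncomputable def Radial_f (R : ℝ) (c : ℂ) (q : ℝ → ℝ) (x : ℂ) : ℂ :=
  c + ((R + q (dist x c - R)) / dist x c) • (x - c)

lemma Radial_nonneg {q : ℝ → ℝ} (hm : StrictMono q) {R η : ℝ} (hη : 0 < η) (hR : η < R)
    (hq : ∀ s, η ≤ |s| → q s = s) {ρ : ℝ} (hρ : 0 ≤ ρ) : 0 ≤ R + q (ρ - R) := by
  have h1 : q (-R) = -R := hq _ (by rw [abs_neg, abs_of_pos (hη.trans hR)]; exact hR.le)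
  have h2 : q (-R) ≤ q (ρ - R) := hm.monotone (by linarith)
  linarith

lemma Radial_pos {q : ℝ → ℝ} (hm : StrictMono q) {R η : ℝ} (hη : 0 < η) (hR : η < R)
    (hq : ∀ s, η ≤ |s| → q s = s) {ρ : ℝ} (hρ : 0 < ρ) : 0 < R + q (ρ - R) := by
  have h1 : q (-R) = -R := hq _ (by rw [abs_neg, abs_of_pos (hη.trans hR)]; exact hR.le)
  have h2 : q (-R) < q (ρ - R) := hm (by linarith)
  linarith

lemma Radial_center (R : ℝ) (c : ℂ) (q : ℝ → ℝ) : Radial_f R c q c = c := by
  unfold Radial_f
  rw [sub_self, smul_zero, add_zero]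

lemma Radial_dist {q : ℝ → ℝ} (hm : StrictMono q) {R η : ℝ} (hη : 0 < η) (hR : η < R)
    (hq : ∀ s, η ≤ |s| → q s = s) (c : ℂ) {x : ℂ} (hx : x ≠ c) :
    dist (Radial_f R c q x) c = R + q (dist x c - R) := by
  have hd : 0 < dist x c := dist_pos.mpr hx
  unfold Radial_f
  rw [dist_eq_norm, add_sub_cancel_left, norm_smul, Real.norm_eq_abs,
    abs_of_nonneg (div_nonneg (Radial_nonneg hm hη hR hq hd.le) hd.le), ← dist_eq_norm,
    div_mul_cancel₀ _ hd.ne']

lemma Radial_inv {q q' : ℝ → ℝ} (hm : StrictMono q) {R η : ℝ} (hη : 0 < η) (hR : η < R)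
    (hq : ∀ s, η ≤ |s| → q s = s) (hqq : ∀ s, q' (q s) = s) (c x : ℂ) :
    Radial_f R c q' (Radial_f R c q x) = x := by
  by_cases hx : x = c
  · rw [hx, Radial_center, Radial_center]
  · have hd : 0 < dist x c := dist_pos.mpr hx
    have h1 := Radial_dist hm hη hR hq c hx
    have h2 := Radial_pos hm hη hR hq hd
    have h3 : Radial_f R c q x - c = ((R + q (dist x c - R)) / dist x c) • (x - c) := by
      unfold Radial_f
      rw [add_sub_cancel_left]
    have h4 : Radial_f R c q' (Radial_f R c q x) =
        c + ((R + q' (dist (Radial_f R c q x) c - R)) / dist (Radial_f R c q x) c) •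
          (Radial_f R c q x - c) := rfl
    rw [h4, h3, h1, smul_smul, show R + q (dist x c - R) - R = q (dist x c - R) by ring, hqq,
      show (R + (dist x c - R)) / (R + q (dist x c - R)) * ((R + q (dist x c - R)) / dist x c) = 1 by
        field_simp
        ring, one_smul]
    ring

lemma Radial_near {q : ℝ → ℝ} {R η : ℝ} (hq : ∀ s, η ≤ |s| → q s = s) (c : ℂ) {x : ℂ}
    (hx : dist x c ≤ R - η) : Radial_f R c q x = x := by
  by_cases hxc : x = c
  · rw [hxc, Radial_center]
  · have hd : 0 < dist x c := dist_pos.mpr hxc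
    unfold Radial_f
    have h1 : q (dist x c - R) = dist x c - R := by
      apply hq
      rw [abs_sub_comm]
      exact le_trans (by linarith) (le_abs_self _)
    rw [h1, show R + (dist x c - R) = dist x c by ring, div_self hd.ne', one_smul]
    ring

lemma Radial_cont {q : ℝ → ℝ} (hc : Continuous q) {R η : ℝ} (hR : η < R)
    (hq : ∀ s, η ≤ |s| → q s = s) (c : ℂ) : Continuous (Radial_f R c q) := by
  rw [continuous_iff_continuousAt]
  intro x
  by_cases hx : x = c
  · have h1 : Radial_f R c q =ᶠ[𝓝 x] id := by
      rw [hx]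
      filter_upwards [closedBall_mem_nhds c (sub_pos.mpr hR)] with y hy
      exact Radial_near hq c hy
    exact (continuousAt_id (x := x)).congr h1.symm
  · have hd : dist x c ≠ 0 := dist_ne_zero.mpr hx
    unfold Radial_f
    have h1 : Continuous fun y : ℂ => dist y c := by fun_prop
    have h2 : Continuous fun y : ℂ => R + q (dist y c - R) := by fun_prop
    have h3 : ContinuousAt (fun y : ℂ => (R + q (dist y c - R)) / dist y c) x :=
      ContinuousAt.div h2.continuousAt h1.continuousAt hd
    have h4 : ContinuousAt (fun y : ℂ => y - c) x := by fun_prop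
    exact continuousAt_const.add (h3.smul h4)

lemma Radial_diff {q : ℝ → ℝ} (hd : Differentiable ℝ q) {R η : ℝ} (hR : η < R)
    (hq : ∀ s, η ≤ |s| → q s = s) (c : ℂ) : Differentiable ℝ (Radial_f R c q) := by
  intro x
  by_cases hx : x = c
  · have h1 : Radial_f R c q =ᶠ[𝓝 x] id := by
      rw [hx]
      filter_upwards [closedBall_mem_nhds c (sub_pos.mpr hR)] with y hy
      exact Radial_near hq c hy
    exact (differentiableAt_id (𝕜 := ℝ) (x := x)).congr_of_eventuallyEq h1
  · have hdx : dist x c ≠ 0 := dist_ne_zero.mpr hx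
    unfold Radial_f
    have h1 : DifferentiableAt ℝ (fun y : ℂ => dist y c) x :=
      DifferentiableAt.dist ℝ differentiableAt_id (differentiableAt_const c) hx
    have h2 : DifferentiableAt ℝ (fun y : ℂ => R + q (dist y c - R)) x := by
      refine (differentiableAt_const R).add ?_
      exact (hd (dist x c - R)).comp x (h1.sub (differentiableAt_const R))
    have h3 : DifferentiableAt ℝ (fun y : ℂ => (R + q (dist y c - R)) / dist y c) x :=
      h2.mul (h1.inv hdx)
    have h4 : DifferentiableAt ℝ (fun y : ℂ => y - c) x :=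
      differentiableAt_id.sub (differentiableAt_const c)
    exact (differentiableAt_const c).add (h3.smul h4)

/-- Proof. `p` is a continuous strictly increasing bijection of `ℝ` (`p s = s` for large `|s|`), with
continuous inverse `q`, and `q s = s` for `η ≤ |s|`. The map in the statement preserves the rays from `c`
and maps `dist x c = ρ` to `dist = R + p (ρ - R)` (which is positive for `ρ > 0`: for
`ρ ≤ R - η` it is `ρ`, for `ρ ≥ R - η` it is at least `R - η > 0`). The inverse is the same map with `q`.
It is the identity near `c` (as `η < R`), and differentiable elsewhere since `dist x c` is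
differentiable for `x ≠ c`. -/
theorem radial {p : ℝ → ℝ} (hd : Differentiable ℝ p) (hm : StrictMono p) {R η : ℝ}
    (hη : 0 < η) (hR : η < R) (hp : ∀ s, η ≤ |s| → p s = s) (c : ℂ) :
    ∃ τ : ℂ ≃ₜ ℂ, Differentiable ℝ (fun x => τ x) ∧
      ∀ x, τ x = c + ((R + p (dist x c - R)) / dist x c) • (x - c) := by
  have htop : Tendsto p atTop atTop := by
    refine tendsto_id.congr' ?_
    filter_upwards [eventually_ge_atTop η] with s hs
    exact (hp s (hs.trans (le_abs_self s))).symm
  have hbot : Tendsto p atBot atBot := by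
    refine tendsto_id.congr' ?_
    filter_upwards [eventually_le_atBot (-η)] with s hs
    refine (hp s ?_).symm
    rw [abs_of_nonpos (by linarith)]
    linarith
  have hsurj : Function.Surjective p := hd.continuous.surjective htop hbot
  let o : ℝ ≃o ℝ := hm.orderIsoOfSurjective p hsurj
  have ho : ∀ s, o s = p s := fun s => rfl
  have h1 : ∀ s, o.symm (p s) = s := fun s => by rw [← ho, OrderIso.symm_apply_apply]
  have h2 : ∀ s, p (o.symm s) = s := fun s => by rw [← ho, OrderIso.apply_symm_apply]
  have h3 : ∀ s, η ≤ |s| → o.symm s = s := fun s hs => by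
    have := h1 s
    rwa [hp s hs] at this
  have h4 : StrictMono (fun s => o.symm s) := o.symm.strictMono
  have h5 : Continuous (fun s => o.symm s) := o.symm.continuous
  refine ⟨{ toFun := Radial_f R c p
            invFun := Radial_f R c (fun s => o.symm s)
            left_inv := fun x => Radial_inv hm hη hR hp h1 c x
            right_inv := fun x => Radial_inv h4 hη hR h3 h2 c x
            continuous_toFun := Radial_cont hd.continuous hR hp c
            continuous_invFun := Radial_cont h5 hR h3 c }, ?_, fun x => rfl⟩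
  exact Radial_diff hd hR hp c

end Pool.Agent.W_cd67d3_h45
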