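import Pool.Agent.W_cd67d3_h45.Profile
import Pool.Agent.W_cd67d3_h45.Radial

/-!
# Flattening a continuous map at a circle
-/

namespace Pool.Agent.W_cd67d3_h45

open Metric Set Filter Topology

/-- a monotone modulus -/
lemma Flatten_kappa (f : ℂ → ℂ) (hf : Continuous f) (c : ℂ) (R : ℝ) :
    ∃ κ : ℝ → ℝ, (∀ s, 0 < s → 0 < κ s) ∧ MonotoneOn κ (Ioi 0) ∧
      ∀ s, 0 < s → ∀ x ∈ closedBall c (2 * R), ∀ y ∈ closedBall c (2 * R), dist x y ≤ κ s →
        dist (f x) (f y) ≤ s ^ 2 := by
  set T : ℝ → Set ℝ := fun s => {t | 0 < t ∧ t ≤ 1 ∧ ∀ x ∈ closedBall c (2 * R),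
    ∀ y ∈ closedBall c (2 * R), dist x y ≤ t → dist (f x) (f y) ≤ s ^ 2} with hT
  have hbdd : ∀ s, BddAbove (T s) := fun s => ⟨1, fun t ht => ht.2.1⟩
  have huc : UniformContinuousOn f (closedBall c (2 * R)) :=
    (isCompact_closedBall c (2 * R)).uniformContinuousOn_of_continuous hf.continuousOn
  have hne : ∀ s, 0 < s → ∃ t, t ∈ T s := by
    intro s hs
    obtain ⟨δ, hδ, h1⟩ := (uniformContinuousOn_iff_le.mp huc) (s ^ 2) (by positivity)
    refine ⟨min δ 1, lt_min hδ one_pos, min_le_right _ _, ?_⟩
    intro x hx y hy hxy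
    exact h1 x hx y hy (hxy.trans (min_le_left _ _))
  have hpos : ∀ s, 0 < s → 0 < sSup (T s) := by
    intro s hs
    obtain ⟨t, ht⟩ := hne s hs
    exact lt_of_lt_of_le ht.1 (le_csSup (hbdd s) ht)
  refine ⟨fun s => 1 / 2 * sSup (T s), ?_, ?_, ?_⟩
  · intro s hs
    have h1 := hpos s hs
    show 0 < 1 / 2 * sSup (T s)
    positivity
  · intro s hs s' hs' hss
    have hs0 : 0 < s := hs
    have h1 : sSup (T s) ≤ sSup (T s') := by
      refine csSup_le_csSup (hbdd s') (hne s hs) ?_
      rintro t ⟨h2, h3, h4⟩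
      refine ⟨h2, h3, fun x hx y hy hxy => (h4 x hx y hy hxy).trans ?_⟩
      exact pow_le_pow_left₀ hs0.le hss 2
    show 1 / 2 * sSup (T s) ≤ 1 / 2 * sSup (T s')
    linarith
  · intro s hs x hx y hy hxy
    have h1 := hpos s hs
    obtain ⟨t, ht, htl⟩ := exists_lt_of_lt_csSup (hne s hs)
      (show 1 / 2 * sSup (T s) < sSup (T s) by linarith)
    exact ht.2.2 x hx y hy (hxy.trans htl.le)

/-- Proof. `f` is uniformly continuous on `closedBall c (2 * R)`. For `s > 0` let
`κ s = (1 / 2) * sSup {t | 0 < t ∧ t ≤ 1 ∧ ∀ x ∈ closedBall c (2 * R), ∀ y ∈ closedBall c (2 * R), dist x y ≤ t →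
dist (f x) (f y) ≤ s ^ 2}`: positive and monotone, and `dist x y ≤ κ s` implies
`dist (f x) (f y) ≤ s ^ 2` in the ball. Let `p` be the profile from `exists_profile` and `τ` from `radial`.
`dist (τ x) x = |p s - s|` and `dist (τ x) c = R + p s` with `s = dist x c - R`; the first
properties follow (`|p s - s| ≤ |s|` as `p s` is between `0` and `s`, and `p s = s` for `|s| ≥ η`).
Let `dist x₀ c = R` and let `f` restricted to the sphere have the derivative `L` at `x₀`. Let
`π x = c + (R / dist x c) • (x - c)`, which maps a neighbourhood of `x₀` into the sphere, is differentiable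
at `x₀` with `π x₀ = x₀`; so `f ∘ π` is differentiable at `x₀`
(`HasFDerivWithinAt.comp_hasFDerivAt`-like). For `x` near `x₀` and `s = dist x c - R`,
`dist (τ x) (π x) = |p s| ≤ κ |s|` if `s ≠ 0`, so
`dist (f (τ x)) (f (π x)) ≤ s ^ 2 ≤ dist x x₀ ^ 2` (also for `s = 0`). So `f ∘ τ - f ∘ π` is
`O(dist x x₀ ^ 2)` and `f ∘ τ` is differentiable at `x₀`. -/
theorem flatten (f : ℂ → ℂ) (hf : Continuous f) (c : ℂ) {R η : ℝ} (hη : 0 < η) (hR : η < R) :
    ∃ τ : ℂ ≃ₜ ℂ, Differentiable ℝ (fun x => τ x) ∧
      (∀ x, η ≤ |dist x c - R| → τ x = x) ∧ (∀ x, dist (τ x) x ≤ η) ∧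
      (∀ x, dist x c = R → τ x = x) ∧ (∀ x, dist x c < R → dist (τ x) c < R) ∧
      (∀ x, R < dist x c → R < dist (τ x) c) ∧
      ∀ (x : ℂ) (L : ℂ →L[ℝ] ℂ), dist x c = R → HasFDerivWithinAt f L (sphere c R) x →
        DifferentiableAt ℝ (fun y => f (τ y)) x := by
  obtain ⟨κ, hκ, hm, hκf⟩ := Flatten_kappa f hf c R
  obtain ⟨p, hpd, hpm, hodd, hpid, hpabs, s0, hs0, hpκ⟩ := exists_profile hκ hm hη
  obtain ⟨τ, hτd, hτ⟩ := radial hpd hpm hη hR hpid c
  have hR0 : 0 < R := hη.trans hR
  have hp0 : p 0 = 0 := by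
    have h1 := hodd 0
    rw [neg_zero] at h1
    linarith
  have hppos : ∀ s, 0 < s → 0 < p s := fun s hs => by
    have h1 := hpm hs
    rwa [hp0] at h1
  have hpneg : ∀ s, s < 0 → p s < 0 := fun s hs => by
    have h1 := hpm hs
    rwa [hp0] at h1
  have hid : ∀ x, p (dist x c - R) = dist x c - R → τ x = x := by
    intro x hx
    rw [hτ, hx]
    by_cases h : dist x c = 0
    · have h1 : x = c := dist_eq_zero.mp h
      rw [h1]
      simp
    · rw [add_sub_cancel, div_self h, one_smul]
      ring
  have hcen : ∀ x, 0 < dist x c → dist (τ x) c = |R + p (dist x c - R)| := by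
    intro x hx
    rw [hτ, dist_eq_norm, add_sub_cancel_left, norm_smul, Real.norm_eq_abs, abs_div,
      abs_of_pos hx, ← dist_eq_norm, div_mul_cancel₀ _ hx.ne']
  have hmove : ∀ x, 0 < dist x c → dist (τ x) x = |p (dist x c - R) - (dist x c - R)| := by
    intro x hx
    have h1 : τ x - x = (((R + p (dist x c - R)) - dist x c) / dist x c) • (x - c) := by
      rw [hτ, sub_div, div_self hx.ne', sub_smul, one_smul]
      ring
    rw [dist_eq_norm, h1, norm_smul, Real.norm_eq_abs, abs_div, abs_of_pos hx, ← dist_eq_norm,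
      div_mul_cancel₀ _ hx.ne']
    congr 1
    ring
  have hbetween : ∀ s, |p s - s| ≤ |s| := by
    intro s
    have h1 := hpabs s
    rcases lt_trichotomy s 0 with h | h | h
    · have h2 := hpneg s h
      rw [abs_of_neg h] at h1 ⊢
      rw [abs_of_neg h2] at h1
      rw [abs_le]
      constructor <;> linarith
    · rw [h, hp0]
      simp
    · have h2 := hppos s h
      rw [abs_of_pos h] at h1 ⊢
      rw [abs_of_pos h2] at h1
      rw [abs_le]
      constructor <;> linarith
  have hfix : ∀ x, η ≤ |dist x c - R| → τ x = x := fun x hx => hid x (hpid _ hx)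
  have hzero : ∀ x, ¬ 0 < dist x c → τ x = x := by
    intro x hx
    have h1 : dist x c = 0 := le_antisymm (not_lt.mp hx) dist_nonneg
    refine hfix x ?_
    rw [h1, zero_sub, abs_neg, abs_of_pos hR0]
    exact hR.le
  have hcirc : ∀ x, dist x c = R → τ x = x := fun x hx => hid x (by rw [hx, sub_self, hp0])
  refine ⟨τ, hτd, hfix, ?_, hcirc, ?_, ?_, ?_⟩
  · intro x
    by_cases hx : 0 < dist x c
    · by_cases h : η ≤ |dist x c - R|
      · rw [hfix x h, dist_self]
        exact hη.le
      · rw [hmove x hx]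
        exact (hbetween _).trans (not_le.mp h).le
    · rw [hzero x hx, dist_self]
      exact hη.le
  · intro x hxR
    by_cases hx : 0 < dist x c
    · rw [hcen x hx]
      have h1 := hpneg (dist x c - R) (by linarith)
      have h2 := hpabs (dist x c - R)
      rw [abs_of_neg h1, abs_of_neg (by linarith : dist x c - R < 0)] at h2
      rw [abs_lt]
      constructor <;> linarith
    · rw [hzero x hx]
      exact hxR
  · intro x hxR
    have hx : 0 < dist x c := hR0.trans hxR
    rw [hcen x hx]
    have h1 := hppos (dist x c - R) (by linarith)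
    rw [abs_of_pos (by linarith)]
    linarith
  · intro x L hxR hL
    have hxc : x ≠ c := by
      rintro rfl
      rw [dist_self] at hxR
      linarith
    set π : ℂ → ℂ := fun y => c + (R / dist y c) • (y - c) with hπ
    have hπx : π x = x := by
      rw [hπ]
      show c + (R / dist x c) • (x - c) = x
      rw [hxR, div_self hR0.ne', one_smul]
      ring
    have hπd : DifferentiableAt ℝ π x := by
      have h1 : DifferentiableAt ℝ (fun y : ℂ => dist y c) x :=
        differentiableAt_id.dist ℝ (differentiableAt_const c) hxc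
      have h2 : DifferentiableAt ℝ (fun y : ℂ => R / dist y c) x := by
        simp only [div_eq_mul_inv]
        exact (h1.fun_inv (dist_ne_zero.mpr hxc)).const_mul R
      exact (differentiableAt_const c).add (h2.smul (differentiableAt_id.sub_const c))
    have hπdist : ∀ y, 0 < dist y c → dist (π y) c = R := by
      intro y hy
      show dist (c + (R / dist y c) • (y - c)) c = R
      rw [dist_eq_norm, add_sub_cancel_left, norm_smul, Real.norm_eq_abs, abs_div,
        abs_of_pos hy, ← dist_eq_norm, div_mul_cancel₀ _ hy.ne', abs_of_pos hR0]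
    have hev : ∀ᶠ y in 𝓝 x, 0 < dist y c := by
      have h1 : ContinuousAt (fun y => dist y c) x :=
        (continuous_id.dist continuous_const).continuousAt
      exact h1.eventually (lt_mem_nhds (dist_pos.mpr hxc))
    have h1 : HasFDerivAt (f ∘ π) (L ∘L fderiv ℝ π x) x :=
      HasFDerivWithinAt.comp_hasFDerivAt_of_eq (t := sphere c R) (y := x) x hL
        hπd.hasFDerivAt (by
          filter_upwards [hev] with y hy
          exact hπdist y hy) hπx.symm
    have h2 : HasFDerivAt (fun y => f (τ y) - f (π y)) (0 : ℂ →L[ℝ] ℂ) x := by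
      refine Asymptotics.IsBigO.hasFDerivAt (n := 2) ?_ (by norm_num)
      refine Asymptotics.IsBigO.of_bound 1 ?_
      have hev2 : ∀ᶠ y in 𝓝 x, |dist y c - R| < min s0 R := by
        have h3 : ContinuousAt (fun y => |dist y c - R|) x :=
          ((continuous_id.dist continuous_const).sub continuous_const).abs.continuousAt
        have h4 : |dist x c - R| < min s0 R := by
          rw [hxR, sub_self, abs_zero]
          exact lt_min hs0 hR0
        exact h3.eventually (gt_mem_nhds h4)
      filter_upwards [hev, hev2] with y hy hy2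
      have hb1 : π y ∈ closedBall c (2 * R) := by
        rw [mem_closedBall, hπdist y hy]
        linarith
      have hab := hpabs (dist y c - R)
      have hb2 : τ y ∈ closedBall c (2 * R) := by
        rw [mem_closedBall, hcen y hy]
        have h5 : |dist y c - R| < R := lt_of_lt_of_le hy2 (min_le_right _ _)
        calc |R + p (dist y c - R)| ≤ |R| + |p (dist y c - R)| := abs_add_le _ _
          _ ≤ R + R := by
            rw [abs_of_pos hR0]
            linarith
          _ = 2 * R := by ring
      have hdst : dist (τ y) (π y) = |p (dist y c - R)| := by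
        have h6 : τ y - π y = (p (dist y c - R) / dist y c) • (y - c) := by
          rw [hτ]
          show c + ((R + p (dist y c - R)) / dist y c) • (y - c) -
            (c + (R / dist y c) • (y - c)) = _
          rw [add_div, add_smul]
          ring
        rw [dist_eq_norm, h6, norm_smul, Real.norm_eq_abs, abs_div, abs_of_pos hy,
          ← dist_eq_norm, div_mul_cancel₀ _ hy.ne']
      have hyx : |dist y c - R| ≤ ‖y - x‖ := by
        rw [← hxR, ← dist_eq_norm]
        exact abs_dist_sub_le y x c
      rw [one_mul, Real.norm_eq_abs, abs_of_nonneg (by positivity : (0 : ℝ) ≤ ‖y - x‖ ^ 2),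
        ← dist_eq_norm]
      by_cases hs : dist y c - R = 0
      · rw [hs, hp0, abs_zero, dist_eq_zero] at hdst
        rw [hdst, dist_self]
        positivity
      · have hspos : 0 < |dist y c - R| := abs_pos.mpr hs
        have h7 : |p (dist y c - R)| = p |dist y c - R| := by
          rcases lt_or_gt_of_ne hs with h | h
          · rw [abs_of_neg (hpneg _ h), abs_of_neg h, hodd]
          · rw [abs_of_pos (hppos _ h), abs_of_pos h]
        have h8 : p |dist y c - R| ≤ κ |dist y c - R| :=
          hpκ _ ⟨hspos, (hy2.trans_le (min_le_left _ _)).le⟩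
        have h9 := hκf _ hspos (τ y) hb2 (π y) hb1 (by rw [hdst, h7]; exact h8)
        exact h9.trans (pow_le_pow_left₀ (abs_nonneg _) hyx 2)
    have h3 := (h2.add h1).differentiableAt
    refine h3.congr_of_eventuallyEq (Filter.Eventually.of_forall fun y => ?_)
    show f (τ y) = f (τ y) - f (π y) + f (π y)
    ring

end Pool.Agent.W_cd67d3_h45
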