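import Pool.Agent.W_cd67d3_h45.Defs

/-!
# Extending a homeomorphism of a disc by the identity
-/

namespace Pool.Agent.W_cd67d3_h45

open Metric Set Filter Topology

/-- Proof. `a z = F z` on the closed ball and `z` elsewhere: continuous (two closed sets), bijective;
the inverse is continuous in the same way (the inverse of `F` on the compact set `closedBall c R` is
continuous), or use a closed map argument. -/
theorem glue {F : ℂ → ℂ} {c : ℂ} {R : ℝ} (hF : ContinuousOn F (closedBall c R))
    (hb : BijOn F (closedBall c R) (closedBall c R)) (hs : ∀ z ∈ sphere c R, F z = z) :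
    ∃ a : ℂ ≃ₜ ℂ, (∀ z ∈ closedBall c R, a z = F z) ∧ ∀ z, R ≤ dist z c → a z = z := by
  classical
  have hin : ∀ z ∈ closedBall c R, (closedBall c R).piecewise F id z = F z := fun z hz =>
    Set.piecewise_eq_of_mem _ _ _ hz
  have hout : ∀ z, R ≤ dist z c → (closedBall c R).piecewise F id z = z := by
    intro z hz
    by_cases h : z ∈ closedBall c R
    · rw [Set.piecewise_eq_of_mem _ _ _ h]
      exact hs z (le_antisymm h hz)
    · rw [Set.piecewise_eq_of_notMem _ _ _ h]
      rfl
  have hcl : IsClosed {z : ℂ | R ≤ dist z c} :=
    isClosed_le continuous_const (continuous_id.dist continuous_const)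
  have hcov : closedBall c R ∪ {z : ℂ | R ≤ dist z c} = univ := by
    ext z
    simp only [Set.mem_union, mem_closedBall, Set.mem_ofPred_eq, Set.mem_univ, iff_true]
    exact le_total _ _
  have hcont : Continuous ((closedBall c R).piecewise F id) := by
    rw [← continuousOn_univ, ← hcov]
    refine ContinuousOn.union_of_isClosed (hF.congr hin) ?_ isClosed_closedBall hcl
    exact continuousOn_id.congr (fun z hz => hout z hz)
  have hbij : Function.Bijective ((closedBall c R).piecewise F id) := by
    constructor
    · intro x y hxy
      by_cases hx : x ∈ closedBall c R <;> by_cases hy : y ∈ closedBall c R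
      · rw [hin x hx, hin y hy] at hxy
        exact hb.injOn hx hy hxy
      · have hy' : R ≤ dist y c := by
          rw [mem_closedBall, not_le] at hy
          exact hy.le
        rw [hin x hx, hout y hy'] at hxy
        exact absurd (hxy ▸ hb.mapsTo hx) hy
      · have hx' : R ≤ dist x c := by
          rw [mem_closedBall, not_le] at hx
          exact hx.le
        rw [hin y hy, hout x hx'] at hxy
        exact absurd (hxy ▸ hb.mapsTo hy) hx
      · have hx' : R ≤ dist x c := by
          rw [mem_closedBall, not_le] at hx
          exact hx.le
        have hy' : R ≤ dist y c := by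
          rw [mem_closedBall, not_le] at hy
          exact hy.le
        rw [hout x hx', hout y hy'] at hxy
        exact hxy
    · intro y
      by_cases hy : y ∈ closedBall c R
      · obtain ⟨x, hx, hxy⟩ := hb.surjOn hy
        exact ⟨x, by rw [hin x hx, hxy]⟩
      · rw [mem_closedBall, not_le] at hy
        exact ⟨y, hout y hy.le⟩
  have hclosed : IsClosedMap ((closedBall c R).piecewise F id) := by
    intro S hS
    have h1 : (closedBall c R).piecewise F id '' S =
        (closedBall c R).piecewise F id '' (S ∩ closedBall c R) ∪
          (S ∩ {z : ℂ | R ≤ dist z c}) := by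
      have h2 : (closedBall c R).piecewise F id '' (S ∩ {z : ℂ | R ≤ dist z c}) =
          S ∩ {z : ℂ | R ≤ dist z c} := by
        ext z
        constructor
        · rintro ⟨w, hw, hwz⟩
          rw [hout w hw.2] at hwz
          rw [← hwz]
          exact hw
        · intro hz
          exact ⟨z, hz, hout z hz.2⟩
      rw [← h2, ← Set.image_union, ← Set.inter_union_distrib_left, hcov, Set.inter_univ]
    rw [h1]
    refine IsClosed.union ?_ (hS.inter hcl)
    exact (((isCompact_closedBall c R).inter_left hS).image hcont).isClosed
  refine ⟨(Equiv.ofBijective _ hbij).toHomeomorphOfContinuousClosed hcont hclosed, ?_, ?_⟩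
  · intro z hz
    exact hin z hz
  · intro z hz
    exact hout z hz

end Pool.Agent.W_cd67d3_h45
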