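import Pool.Agent.W_cd67d3_h45.Defs

/-!
# Hurwitz's theorem for injective holomorphic functions
-/

namespace Pool.Agent.W_cd67d3_h45

open Metric Set Filter Topology

/-- Proof. Suppose `f a = f b` with `a ≠ b` in `U`. `f` is holomorphic
(`TendstoLocallyUniformlyOn.differentiableOn`). `g = f - f a` is not identically `0` on the
connected set `U`, so (identity theorem, `AnalyticOnNhd.eqOn_zero_of_preconnected_of_frequently_eq_zero`)
`b` is an isolated zero: there is `r > 0` with `closedBall b r ⊆ U`, `a ∉ closedBall b r` and `g ≠ 0` on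
the sphere `S` of radius `r`. Let `m > 0` be the minimum of `‖g‖` on `S`. The functions
`g n z = F n z - F n a` converge uniformly on `closedBall b r` to `g`, so for large `n`, `‖g n‖ ≥ m / 2`
on `S`, and `g n ≠ 0` on `closedBall b r` by injectivity; the maximum principle for `1 / g n`
(`Complex.norm_le_of_forall_mem_frontier_norm_le`) gives `‖g n b‖ ≥ m / 2`, in the limit `‖g b‖ ≥ m / 2`,
but `g b = 0`. -/
theorem hurwitz_inj {U : Set ℂ} (hU : IsOpen U) (hc : IsPreconnected U) {F : ℕ → ℂ → ℂ}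
    {f : ℂ → ℂ} (hF : ∀ n, DifferentiableOn ℂ (F n) U) (hi : ∀ n, InjOn (F n) U)
    (hf : TendstoLocallyUniformlyOn F f atTop U) (hn : ∃ x ∈ U, ∃ y ∈ U, f x ≠ f y) :
    InjOn f U := by
  intro a ha b hb hab
  by_contra hne
  have hfd : DifferentiableOn ℂ f U := hf.differentiableOn (Eventually.of_forall hF) hU
  have hfa : AnalyticOnNhd ℂ (fun z => f z - f a) U := (hfd.sub_const _).analyticOnNhd hU
  have hev : ∀ᶠ z in 𝓝[≠] b, f z - f a ≠ 0 := by
    by_contra hcon
    rw [Filter.not_eventually] at hcon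
    have hz0 := hfa.eqOn_zero_of_preconnected_of_frequently_eq_zero hc hb
      (hcon.mono fun z hz => not_not.1 hz)
    obtain ⟨x, hx, y, hy, hxy⟩ := hn
    exact hxy ((sub_eq_zero.1 (hz0 hx)).trans (sub_eq_zero.1 (hz0 hy)).symm)
  have h1 : ∀ᶠ z in 𝓝 b, z ∈ ({b}ᶜ : Set ℂ) → f z - f a ≠ 0 := eventually_nhdsWithin_iff.1 hev
  have h2 : ∀ᶠ z in 𝓝 b, z ∈ U := hU.mem_nhds hb
  have h3 : ∀ᶠ z in 𝓝 b, z ≠ a := isOpen_ne.mem_nhds (Ne.symm hne)
  obtain ⟨ε, hε, hball⟩ := Metric.eventually_nhds_iff_ball.1 (h1.and (h2.and h3))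
  obtain ⟨r, hr, hrε⟩ : ∃ r : ℝ, 0 < r ∧ r < ε := ⟨ε / 2, half_pos hε, half_lt_self hε⟩
  have hcb : closedBall b r ⊆ ball b ε := closedBall_subset_ball hrε
  have hcU : closedBall b r ⊆ U := fun z hz => (hball z (hcb hz)).2.1
  have hS : IsCompact (sphere b r) := isCompact_sphere b r
  have hSne : (sphere b r).Nonempty := NormedSpace.sphere_nonempty.2 hr.le
  have hcont : ContinuousOn (fun z => ‖f z - f a‖) (sphere b r) :=
    ((hfd.continuousOn.mono (sphere_subset_closedBall.trans hcU)).sub continuousOn_const).norm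
  obtain ⟨z0, hz0, hmin⟩ := hS.exists_isMinOn hSne hcont
  have hm : 0 < ‖f z0 - f a‖ := by
    refine norm_pos_iff.2 ((hball z0 (hcb (sphere_subset_closedBall hz0))).1 ?_)
    intro h
    rw [mem_singleton_iff.1 h, mem_sphere, dist_self] at hz0
    exact hr.ne hz0
  obtain ⟨m, hmdef⟩ : ∃ m, m = ‖f z0 - f a‖ := ⟨_, rfl⟩
  rw [← hmdef] at hm
  have hmin' : ∀ z ∈ sphere b r, m ≤ ‖f z - f a‖ := fun z hz => hmdef ▸ hmin hz
  have hK : TendstoUniformlyOn F f atTop (closedBall b r) :=
    (tendstoLocallyUniformlyOn_iff_forall_isCompact hU).1 hf _ hcU (isCompact_closedBall b r)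
  have hA : Tendsto (fun n => F n a) atTop (𝓝 (f a)) := hf.tendsto_at ha
  have hB : Tendsto (fun n => F n b) atTop (𝓝 (f b)) := hf.tendsto_at hb
  have hK' := Metric.tendstoUniformlyOn_iff.1 hK (m / 4) (by positivity)
  have hA' := Metric.tendsto_nhds.1 hA (m / 4) (by positivity)
  have key : ∀ᶠ n in atTop, m / 2 ≤ ‖F n b - F n a‖ := by
    filter_upwards [hK', hA'] with n hn1 hn2
    have hsph : ∀ z ∈ sphere b r, m / 2 ≤ ‖F n z - F n a‖ := by
      intro z hz
      have e1 := hn1 z (sphere_subset_closedBall hz)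
      have e2 := hmin' z hz
      rw [dist_eq_norm] at e1 hn2
      have e3 : f z - f a = (f z - F n z) + (F n z - F n a) + (F n a - f a) := by ring
      have e4 : ‖f z - f a‖ ≤ ‖f z - F n z‖ + ‖F n z - F n a‖ + ‖F n a - f a‖ := by
        rw [e3]
        exact norm_add₃_le
      linarith
    have hnz : ∀ z ∈ closedBall b r, F n z - F n a ≠ 0 := by
      intro z hz h
      exact (hball z (hcb hz)).2.2 (hi n (hcU hz) ha (sub_eq_zero.1 h))
    have hclos : closure (ball b r) = closedBall b r := closure_ball b hr.ne'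
    have hd : DiffContOnCl ℂ (fun z => (F n z - F n a)⁻¹) (ball b r) := by
      refine ⟨?_, ?_⟩
      · exact (((hF n).mono (ball_subset_closedBall.trans hcU)).sub_const _).inv
          fun z hz => hnz z (ball_subset_closedBall hz)
      · rw [hclos]
        exact (((hF n).continuousOn.mono hcU).sub continuousOn_const).inv₀ hnz
    have hfr : frontier (ball b r) = sphere b r := frontier_ball b hr.ne'
    have hb' : b ∈ closure (ball b r) := subset_closure (mem_ball_self hr)
    have hC : ∀ z ∈ frontier (ball b r), ‖(F n z - F n a)⁻¹‖ ≤ (m / 2)⁻¹ := by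
      intro z hz
      rw [hfr] at hz
      rw [norm_inv]
      exact inv_anti₀ (by positivity) (hsph z hz)
    have hfin := Complex.norm_le_of_forall_mem_frontier_norm_le isBounded_ball hd hC hb'
    rw [norm_inv] at hfin
    exact (inv_le_inv₀ (norm_pos_iff.2 (hnz b (mem_closedBall_self hr.le)))
      (by positivity)).1 hfin
  have hlim : Tendsto (fun n => ‖F n b - F n a‖) atTop (𝓝 ‖f b - f a‖) := (hB.sub hA).norm
  have hfin := ge_of_tendsto hlim key
  rw [← hab, sub_self, norm_zero] at hfin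
  linarith

end Pool.Agent.W_cd67d3_h45
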