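import Pool.Agent.W_cd67d3_h45.Defs

/-!
# The inverse of an injective holomorphic function is holomorphic
-/

namespace Pool.Agent.W_cd67d3_h45

open Metric Set Filter Topology

theorem InvDiff_nhds {U : Set ℂ} (hU : IsOpen U) {f : ℂ → ℂ} (hf : DifferentiableOn ℂ f U)
    (hi : InjOn f U) {z : ℂ} (hz : z ∈ U) : 𝓝 (f z) ≤ map f (𝓝 z) := by
  refine (hf.analyticAt (hU.mem_nhds hz)).eventually_constant_or_nhds_le_map_nhds.resolve_left ?_
  intro h
  have h2 : ∀ᶠ w in 𝓝[≠] z, False := by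
    rw [eventually_nhdsWithin_iff]
    filter_upwards [h, hU.mem_nhds hz] with w hw hwU hne
    exact hne (hi hwU hz hw)
  exact (h2.exists).elim fun _ h => h

theorem InvDiff_isOpen {U : Set ℂ} (hU : IsOpen U) {f : ℂ → ℂ} (hf : DifferentiableOn ℂ f U)
    (hi : InjOn f U) : IsOpen (f '' U) := by
  rw [isOpen_iff_mem_nhds]
  rintro _ ⟨z, hz, rfl⟩
  refine InvDiff_nhds hU hf hi hz ?_
  rw [mem_map]
  exact mem_of_superset (hU.mem_nhds hz) (subset_preimage_image f U)

theorem InvDiff_cont {U : Set ℂ} (hU : IsOpen U) {f : ℂ → ℂ} (hf : DifferentiableOn ℂ f U)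
    (hi : InjOn f U) {g : ℂ → ℂ} (hg : ∀ z ∈ U, g (f z) = z) {z : ℂ} (hz : z ∈ U) :
    ContinuousAt g (f z) := by
  intro N hN
  rw [hg z hz] at hN
  rw [mem_map]
  have h1 : f '' (N ∩ U) ∈ 𝓝 (f z) := by
    refine InvDiff_nhds hU hf hi hz ?_
    rw [mem_map]
    exact mem_of_superset (inter_mem hN (hU.mem_nhds hz)) (subset_preimage_image f _)
  refine mem_of_superset h1 ?_
  rintro _ ⟨w, hw, rfl⟩
  rw [mem_preimage, hg w hw.2]
  exact hw.1

theorem InvDiff_zeros {U : Set ℂ} (hU : IsOpen U) {f : ℂ → ℂ} (hf : DifferentiableOn ℂ f U)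
    (hi : InjOn f U) {z : ℂ} (hz : z ∈ U) : ∀ᶠ w in 𝓝[≠] z, deriv f w ≠ 0 := by
  refine (hf.analyticAt (hU.mem_nhds hz)).deriv.eventually_eq_zero_or_eventually_ne_zero.resolve_left
    ?_
  intro h
  have h1 : ∀ᶠ w in 𝓝 z, deriv f w = 0 ∧ w ∈ U := h.and (hU.mem_nhds hz)
  obtain ⟨r, hr, hb⟩ := Metric.eventually_nhds_iff_ball.1 h1
  have h2 : ∀ᶠ w in 𝓝[≠] z, False := by
    rw [eventually_nhdsWithin_iff]
    filter_upwards [ball_mem_nhds z hr] with w hw hne
    refine hne (hi (hb w hw).2 hz ?_)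
    exact isOpen_ball.is_const_of_deriv_eq_zero (convex_ball z r).isPreconnected
      (fun v hv => (hf.differentiableAt (hU.mem_nhds (hb v hv).2)).differentiableWithinAt)
      (fun v hv => (hb v hv).1) hw (mem_ball_self hr)
  exact (h2.exists).elim fun _ h => h

theorem InvDiff_diff {U : Set ℂ} (hU : IsOpen U) {f : ℂ → ℂ} (hf : DifferentiableOn ℂ f U)
    (hi : InjOn f U) {g : ℂ → ℂ} (hg : ∀ z ∈ U, g (f z) = z) {z : ℂ} (hz : z ∈ U)
    (hd : deriv f z ≠ 0) : DifferentiableAt ℂ g (f z) := by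
  have hc := InvDiff_cont hU hf hi hg hz
  have h1 : HasDerivAt f (deriv f z) (g (f z)) := by
    rw [hg z hz]
    exact (hf.differentiableAt (hU.mem_nhds hz)).hasDerivAt
  refine (HasDerivAt.of_local_left_inverse hc h1 hd ?_).differentiableAt
  filter_upwards [(InvDiff_isOpen hU hf hi).mem_nhds (mem_image_of_mem f hz)] with y hy
  obtain ⟨w, hw, rfl⟩ := hy
  rw [hg w hw]

theorem InvDiff_diffAll {U : Set ℂ} (hU : IsOpen U) {f : ℂ → ℂ} (hf : DifferentiableOn ℂ f U)
    (hi : InjOn f U) {g : ℂ → ℂ} (hg : ∀ z ∈ U, g (f z) = z) {z : ℂ} (hz : z ∈ U) :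
    DifferentiableAt ℂ g (f z) := by
  have hc := InvDiff_cont hU hf hi hg hz
  refine (Complex.analyticAt_of_differentiable_on_punctured_nhds_of_continuousAt ?_
    hc).differentiableAt
  have h1 := InvDiff_zeros hU hf hi hz
  rw [eventually_nhdsWithin_iff] at h1 ⊢
  have hc' : Tendsto g (𝓝 (f z)) (𝓝 z) := by
    have := hc.tendsto
    rwa [hg z hz] at this
  filter_upwards [hc'.eventually h1,
    (InvDiff_isOpen hU hf hi).mem_nhds (mem_image_of_mem f hz)] with y h2 hy hne
  obtain ⟨w, hw, rfl⟩ := hy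
  refine InvDiff_diff hU hf hi hg hw ?_
  rw [hg w hw] at h2
  refine h2 ?_
  intro h3
  apply hne
  rw [mem_singleton_iff] at h3 ⊢
  rw [h3]

/-- Proof. `V = f '' U` is open and the inverse `g` is continuous on `V` (open mapping theorem,
`AnalyticOnNhd.is_constant_or_isOpen` on balls; an injective function is not constant on any ball). At
points `f z` with `deriv f z ≠ 0` the inverse is differentiable
(`HasDerivAt.of_local_left_inverse`). The zeros of `deriv f` are isolated in `U` (otherwise `f` is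
constant on a ball), so near each point of `V` the function `g` is holomorphic except possibly at the point,
and continuous at the point, hence holomorphic
(`Complex.differentiableOn_compl_singleton_and_continuousAt_iff`). -/
theorem inverse_diff {U : Set ℂ} (hU : IsOpen U) {f : ℂ → ℂ} (hf : DifferentiableOn ℂ f U)
    (hi : InjOn f U) : IsOpen (f '' U) ∧
      ∃ g : ℂ → ℂ, DifferentiableOn ℂ g (f '' U) ∧ ∀ z ∈ U, g (f z) = z := by
  have hg : ∀ z ∈ U, Function.invFunOn f U (f z) = z := fun z hz => hi.leftInvOn_invFunOn hz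
  refine ⟨InvDiff_isOpen hU hf hi, Function.invFunOn f U, ?_, hg⟩
  rintro _ ⟨z, hz, rfl⟩
  exact (InvDiff_diffAll hU hf hi hg hz).differentiableWithinAt

/-- Consequence: the derivative of an injective holomorphic function has no zero
(differentiate `g (f z) = z`). -/
theorem deriv_ne_zero_of_inj {U : Set ℂ} (hU : IsOpen U) {f : ℂ → ℂ}
    (hf : DifferentiableOn ℂ f U) (hi : InjOn f U) {z : ℂ} (hz : z ∈ U) : deriv f z ≠ 0 := by
  obtain ⟨hV, g, hgd, hg⟩ := inverse_diff hU hf hi
  intro h0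
  have h1 : HasDerivAt g (deriv g (f z)) (f z) :=
    (hgd.differentiableAt (hV.mem_nhds (mem_image_of_mem f hz))).hasDerivAt
  have h2 : HasDerivAt f (deriv f z) z := (hf.differentiableAt (hU.mem_nhds hz)).hasDerivAt
  have h3 : HasDerivAt (g ∘ f) (deriv g (f z) * deriv f z) z := h1.comp z h2
  have h4 : HasDerivAt (fun w : ℂ => w) (1 : ℂ) z := hasDerivAt_id z
  have h5 : HasDerivAt (g ∘ f) 1 z := by
    refine h4.congr_of_eventuallyEq ?_
    filter_upwards [hU.mem_nhds hz] with w hw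
    exact hg w hw
  have h6 := h3.unique h5
  rw [h0, mul_zero] at h6
  exact zero_ne_one h6

end Pool.Agent.W_cd67d3_h45
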