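import Pool.Agent.W_cd67d3_h45.Defs

/-!
# Koebe's square root trick
-/

namespace Pool.Agent.W_cd67d3_h45

open Metric Set Filter Topology ComplexConjugate

/-- The disc automorphism `z ↦ (z - w) / (1 - conj w * z)`. -/
noncomputable def mob (w z : ℂ) : ℂ := (z - w) / (1 - conj w * z)

lemma KoebeStep_ne {w z : ℂ} (hw : w ∈ ball (0 : ℂ) 1) (hz : z ∈ ball (0 : ℂ) 1) :
    1 - conj w * z ≠ 0 := by
  rw [mem_ball_zero_iff] at hw hz
  intro h
  have h1 : conj w * z = 1 := (sub_eq_zero.1 h).symm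
  have h2 : ‖conj w * z‖ = 1 := by rw [h1, norm_one]
  rw [norm_mul, Complex.norm_conj] at h2
  nlinarith [norm_nonneg w, norm_nonneg z]

lemma KoebeStep_id (w z : ℂ) :
    ‖1 - conj w * z‖ ^ 2 - ‖z - w‖ ^ 2 = (1 - ‖w‖ ^ 2) * (1 - ‖z‖ ^ 2) := by
  simp only [Complex.sq_norm, Complex.normSq_apply, Complex.sub_re, Complex.sub_im,
    Complex.mul_re, Complex.mul_im, Complex.one_re, Complex.one_im, Complex.conj_re,
    Complex.conj_im]
  ring

theorem mob_maps {w : ℂ} (hw : w ∈ ball (0 : ℂ) 1) : MapsTo (mob w) (ball 0 1) (ball 0 1) := by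
  intro z hz
  have h0 := KoebeStep_ne hw hz
  have h1 := KoebeStep_id w z
  rw [mem_ball_zero_iff] at hw hz ⊢
  have h2 : 0 < (1 - ‖w‖ ^ 2) * (1 - ‖z‖ ^ 2) := by
    apply mul_pos
    · nlinarith [norm_nonneg w]
    · nlinarith [norm_nonneg z]
  rw [mob, norm_div, div_lt_one (norm_pos_iff.2 h0)]
  nlinarith [norm_nonneg (1 - conj w * z), norm_nonneg (z - w)]

theorem mob_inj {w : ℂ} (hw : w ∈ ball (0 : ℂ) 1) : InjOn (mob w) (ball 0 1) := by
  intro z hz z' hz' h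
  rw [mob, mob, div_eq_div_iff (KoebeStep_ne hw hz) (KoebeStep_ne hw hz')] at h
  have h1 : (z - z') * (1 - conj w * w) = 0 := by linear_combination h
  rcases mul_eq_zero.1 h1 with h2 | h2
  · exact sub_eq_zero.1 h2
  · exact absurd h2 (KoebeStep_ne hw hw)

theorem mob_deriv {w z : ℂ} (hw : w ∈ ball (0 : ℂ) 1) (hz : z ∈ ball (0 : ℂ) 1) :
    HasDerivAt (mob w) ((1 - ‖w‖ ^ 2) / (1 - conj w * z) ^ 2) z := by
  have h1 : HasDerivAt (fun z : ℂ => z - w) 1 z := (hasDerivAt_id z).sub_const w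
  have h2 : HasDerivAt (fun z : ℂ => 1 - conj w * z) (-(conj w * 1)) z :=
    ((hasDerivAt_id z).const_mul (conj w)).const_sub 1
  have h3 := h1.div h2 (KoebeStep_ne hw hz)
  refine h3.congr_deriv ?_
  rw [← Complex.conj_mul']
  congr 1
  ring

lemma KoebeStep_sqrt {s h : ℂ → ℂ} {h' z : ℂ} (hs : ContinuousAt s z) (hz : s z ≠ 0)
    (hsq : ∀ x, s x ^ 2 = h x) (hh : HasDerivAt h h' z) : HasDerivAt s (h' / (2 * s z)) z := by
  rw [hasDerivAt_iff_tendsto_slope] at hh ⊢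
  have h1 : Tendsto (fun y => s y + s z) (𝓝[≠] z) (𝓝 (2 * s z)) := by
    have h2 : Tendsto (fun y => s y + s z) (𝓝 z) (𝓝 (s z + s z)) := hs.tendsto.add_const (s z)
    rw [← two_mul] at h2
    exact h2.mono_left nhdsWithin_le_nhds
  have hne : (2 * s z) ≠ 0 := mul_ne_zero two_ne_zero hz
  refine (hh.div h1 hne).congr' ?_
  filter_upwards [h1.eventually_ne hne] with y hy
  rw [Pi.div_apply, slope_def_field, slope_def_field, ← hsq, ← hsq, div_div,
    mul_comm (y - z), ← div_div]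
  congr 1
  rw [div_eq_iff hy]
  ring

/-- Proof. `h = mob w ∘ f` has no zero on `U`; let `s` be a continuous branch of its square root
(`Complex.exists_continuousOn_pow_eq`); it is holomorphic (`HasStrictDerivAt.of_local_left_inverse` as in
Mathlib's RiemannMapping file, or: near a point of `U` it is a composition with a branch of the square
root; or `s` is continuous and `s ^ 2 = h`, difference quotients), injective (as `s ^ 2` is), with values
in the unit disc. Put `g = mob (s a) ∘ s`. Then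
`deriv g a = deriv s a / (1 - ‖s a‖^2)`, `deriv s a = deriv h a / (2 s a)`,
`deriv h a = (1 - ‖w‖^2) deriv f a`, `‖s a‖^2 = ‖w‖`, `w ≠ 0` (as `f a = 0` and `w ∉ f '' U`), so
`‖deriv g a‖ = ‖deriv f a‖ (1 + ‖w‖) / (2 √‖w‖) > ‖deriv f a‖`. -/
theorem koebe_step {U : Set ℂ} (hU : IsOpen U) (hs : IsSimplyConnected U) {a : ℂ} (ha : a ∈ U)
    {f : ℂ → ℂ} (hf : Fam U a f) (hd : deriv f a ≠ 0) {w : ℂ} (hw : w ∈ ball (0 : ℂ) 1)
    (hwf : w ∉ f '' U) : ∃ g, Fam U a g ∧ ‖deriv f a‖ < ‖deriv g a‖ := by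
  have hmob : ∀ {w : ℂ}, w ∈ ball (0 : ℂ) 1 → DifferentiableOn ℂ (mob w) (ball 0 1) :=
    fun hw z hz => (mob_deriv hw hz).differentiableAt.differentiableWithinAt
  have hfd : ∀ z ∈ U, HasDerivAt f (deriv f z) z := fun z hz =>
    (hf.d.differentiableAt (hU.mem_nhds hz)).hasDerivAt
  set h : ℂ → ℂ := fun z => mob w (f z) with hh
  have hhd : ∀ z ∈ U, HasDerivAt h ((1 - ‖w‖ ^ 2) / (1 - conj w * f z) ^ 2 * deriv f z) z :=
    fun z hz => (mob_deriv hw (hf.m hz)).comp z (hfd z hz)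
  have hh0 : ∀ z ∈ U, h z ≠ 0 := by
    intro z hz h0
    rcases div_eq_zero_iff.1 h0 with h1 | h1
    · exact hwf ⟨z, hz, sub_eq_zero.1 h1⟩
    · exact KoebeStep_ne hw (hf.m hz) h1
  have hhc : ContinuousOn h U := fun z hz => (hhd z hz).continuousAt.continuousWithinAt
  obtain ⟨s, hsc, hsq⟩ := Complex.exists_continuousOn_pow_eq hs hU hhc
    (by rintro ⟨z, hz, h0⟩; exact hh0 z hz h0) two_ne_zero
  have hs0 : ∀ z ∈ U, s z ≠ 0 := by
    intro z hz h0
    apply hh0 z hz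
    rw [← hsq, h0]
    ring
  have hsd : ∀ z ∈ U, HasDerivAt s
      (((1 - ‖w‖ ^ 2) / (1 - conj w * f z) ^ 2 * deriv f z) / (2 * s z)) z := fun z hz =>
    KoebeStep_sqrt (hsc.continuousAt (hU.mem_nhds hz)) (hs0 z hz) hsq (hhd z hz)
  have hsm : MapsTo s U (ball 0 1) := by
    intro z hz
    have h1 : h z ∈ ball (0 : ℂ) 1 := mob_maps hw (hf.m hz)
    rw [mem_ball_zero_iff] at h1 ⊢
    rw [← hsq, norm_pow] at h1
    nlinarith [norm_nonneg (s z)]
  have hsi : InjOn s U := by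
    intro z hz z' hz' h1
    have h2 : h z = h z' := by rw [← hsq, ← hsq, h1]
    exact hf.i hz hz' (mob_inj hw (hf.m hz) (hf.m hz') h2)
  have hga : HasDerivAt (fun z => mob (s a) (s z)) _ a :=
    (mob_deriv (hsm ha) (hsm ha)).comp a (hsd a ha)
  refine ⟨fun z => mob (s a) (s z), ⟨?_, ?_, ?_, ?_⟩, ?_⟩
  · exact (hmob (hsm ha)).comp (fun z hz => (hsd z hz).differentiableAt.differentiableWithinAt) hsm
  · exact (mob_maps (hsm ha)).comp hsm
  · exact (mob_inj (hsm ha)).comp hsi hsm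
  · rw [mob, sub_self, zero_div]
  · rw [hga.deriv]
    have hw0 : w ≠ 0 := by
      rintro rfl
      exact hwf ⟨a, ha, hf.z⟩
    have hha : h a = -w := by
      change mob w (f a) = -w
      rw [hf.z, mob, mul_zero, sub_zero, div_one, zero_sub]
    have ht : ‖s a‖ ^ 2 = ‖w‖ := by
      rw [← norm_pow, hsq, hha, norm_neg]
    have ht0 : 0 < ‖s a‖ := norm_pos_iff.2 (hs0 a ha)
    have ht1 : ‖s a‖ < 1 := mem_ball_zero_iff.1 (hsm ha)
    set t : ℝ := ‖s a‖ with hts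
    have hd0 : 0 < ‖deriv f a‖ := norm_pos_iff.2 hd
    rw [hf.z, mul_zero, sub_zero, one_pow, div_one, Complex.conj_mul', norm_mul, norm_div,
      norm_div, norm_mul, norm_mul, norm_pow, ← hts]
    have e1 : ‖(1 - (t : ℂ) ^ 2)‖ = 1 - t ^ 2 := by
      rw [show (1 - (t : ℂ) ^ 2) = ((1 - t ^ 2 : ℝ) : ℂ) by push_cast; ring,
        Complex.norm_real, Real.norm_of_nonneg (by nlinarith)]
    have e2 : ‖(1 - (‖w‖ : ℂ) ^ 2)‖ = 1 - t ^ 4 := by
      rw [← ht, show (1 - (((t ^ 2 : ℝ)) : ℂ) ^ 2) = ((1 - t ^ 4 : ℝ) : ℂ) by push_cast; ring,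
        Complex.norm_real, Real.norm_of_nonneg
          (sub_nonneg.2 (pow_lt_one₀ ht0.le ht1 (by norm_num)).le)]
    rw [e1, e2, Complex.norm_ofNat]
    have h2 : 0 < 1 - t ^ 2 := by nlinarith
    have e3 : (1 - t ^ 2) / (1 - t ^ 2) ^ 2 * ((1 - t ^ 4) * ‖deriv f a‖ / (2 * t)) =
        (1 + t ^ 2) / (2 * t) * ‖deriv f a‖ := by
      field_simp
      ring
    rw [e3]
    have h3 : 1 < (1 + t ^ 2) / (2 * t) := by
      rw [lt_div_iff₀ (by linarith)]
      nlinarith [mul_pos (sub_pos.2 ht1) (sub_pos.2 ht1)]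
    nlinarith

end Pool.Agent.W_cd67d3_h45
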