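import Pool.Agent.W_cd67d3_h45.Riemann
import Pool.Agent.W_cd67d3_h45.Carath
import Pool.Agent.W_cd67d3_h45.DiscExt
import Pool.Agent.W_cd67d3_h45.Glue

/-!
# Making a homeomorphism differentiable in a disc
-/

namespace Pool.Agent.W_cd67d3_h45

open Metric Set Filter Topology

/-- the inverse on a compact set of a continuous bijection -/
lemma LemmaM_inv {F : ℂ → ℂ} {S : Set ℂ} (hS : IsCompact S) (hF : ContinuousOn F S)
    (hb : BijOn F S S) :
    ∃ s : ℂ → ℂ, ContinuousOn s S ∧ BijOn s S S ∧ ∀ z ∈ S, F (s z) = z := by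
  classical
  have : CompactSpace S := isCompact_iff_compactSpace.1 hS
  let f : S → S := hb.mapsTo.restrict F S S
  have hf : Continuous f := hF.mapsToRestrict hb.mapsTo
  have hbij : Function.Bijective f := by
    constructor
    · intro x y hxy
      exact Subtype.ext (hb.injOn x.2 y.2 (congrArg Subtype.val hxy))
    · intro y
      obtain ⟨x, hx, hxy⟩ := hb.surjOn y.2
      exact ⟨⟨x, hx⟩, Subtype.ext hxy⟩
  let e : S ≃ₜ S := Continuous.homeoOfEquivCompactToT2 (f := Equiv.ofBijective f hbij) hf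
  have he : ∀ x : S, ((e x : S) : ℂ) = F x := fun x => rfl
  let s : ℂ → ℂ := fun z => if hz : z ∈ S then ((e.symm ⟨z, hz⟩ : S) : ℂ) else 0
  have hs : ∀ z (hz : z ∈ S), s z = ((e.symm ⟨z, hz⟩ : S) : ℂ) := fun z hz => dif_pos hz
  have hFs : ∀ z ∈ S, F (s z) = z := by
    intro z hz
    rw [hs z hz, ← he, e.apply_symm_apply]
  refine ⟨s, ?_, ⟨?_, ?_, ?_⟩, hFs⟩
  · rw [continuousOn_iff_continuous_domRestrict]
    have : S.domRestrict s = fun x : S => ((e.symm x : S) : ℂ) := by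
      funext x
      exact hs x.1 x.2
    rw [this]
    exact continuous_subtype_val.comp e.symm.continuous
  · intro z hz
    rw [hs z hz]
    exact (e.symm ⟨z, hz⟩).2
  · intro z hz w hw h
    rw [← hFs z hz, ← hFs w hw, h]
  · intro z hz
    refine ⟨F z, hb.mapsTo hz, ?_⟩
    refine hb.injOn ?_ hz (hFs _ (hb.mapsTo hz))
    rw [hs _ (hb.mapsTo hz)]
    exact (e.symm _).2

/-- Proof. Let `v z = h (c + R z)`, `ψ`, `φ` from `exists_conf v`, `F` from `carath`, `s` = the inverse of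
`F` on the sphere (continuous, as the sphere is compact), `E` from `disc_ext s`. `F ∘ E` is a continuous
bijection of the closed unit ball, the identity on the sphere; let `a₁` be the homeomorphism of `ℂ` from
`glue` and `a x = c + R * a₁ ((x - c) / R)`. For `x` in the ball, `z = (x - c) / R`,
`h (a x) = v (F (E z)) = ψ (E z)` (`E` maps the open ball into the open ball: it maps the closed ball
bijectively onto itself and the sphere onto the sphere). `ψ` is holomorphic in the ball and `E` is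
differentiable. At `x = c`: `E` has an invertible derivative at `0`, and `deriv ψ (E 0) ≠ 0`
(`deriv_ne_zero_of_inj`), so the composition has an invertible derivative. -/
theorem lemma_M (h : ℂ ≃ₜ ℂ) (c : ℂ) {R : ℝ} (hR : 0 < R) :
    ∃ a : ℂ ≃ₜ ℂ, (∀ x, R ≤ dist x c → a x = x) ∧
      (∀ x ∈ ball c R, DifferentiableAt ℝ (fun y => h (a y)) x) ∧
      ∃ L : ℂ ≃L[ℝ] ℂ, HasFDerivAt (fun y => h (a y)) (L : ℂ →L[ℝ] ℂ) c := by
  have hRc : (R : ℂ) ≠ 0 := by exact_mod_cast hR.ne'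
  let T : ℂ ≃ₜ ℂ := (Homeomorph.mulLeft₀ (R : ℂ) hRc).trans (Homeomorph.addLeft c)
  have hT : ∀ z, T z = c + R * z := fun z => rfl
  have hTs : ∀ x, T.symm x = (R : ℂ)⁻¹ * (x - c) := by
    intro x
    rw [Homeomorph.symm_apply_eq, hT]
    field_simp
    ring
  let v : ℂ ≃ₜ ℂ := T.trans h
  have hv : ∀ z, v z = h (T z) := fun z => rfl
  obtain ⟨ψ, φ, hc⟩ := exists_conf v
  obtain ⟨F, hFc, hFb, hFs, hFv⟩ := carath hc
  obtain ⟨s, hsc, hsb, hsF⟩ := LemmaM_inv (isCompact_sphere (0 : ℂ) 1)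
    (hFc.mono sphere_subset_closedBall) hFs
  obtain ⟨E, hEc, hEb, hEs, hEd, L₀, hL₀⟩ := disc_ext hsc hsb
  obtain ⟨a₁, ha₁, ha₂⟩ := glue (F := fun z => F (E z)) (c := 0) (R := 1)
    (hFc.comp hEc hEb.mapsTo) (hFb.comp hEb) (by
      intro z hz
      show F (E z) = z
      rw [hEs z hz, hsF z hz])
  have hEball : ∀ z ∈ ball (0 : ℂ) 1, E z ∈ ball (0 : ℂ) 1 := by
    intro z hz
    have h1 := hEb.mapsTo (ball_subset_closedBall hz)
    by_contra h2
    have h3 : E z ∈ sphere (0 : ℂ) 1 := by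
      rw [mem_sphere]
      exact le_antisymm h1 (not_lt.1 h2)
    obtain ⟨w, hw, hw2⟩ := hsb.surjOn h3
    have h4 : E w = E z := by rw [hEs w hw, hw2]
    have h5 := hEb.injOn (sphere_subset_closedBall hw) (ball_subset_closedBall hz) h4
    rw [h5, mem_sphere] at hw
    rw [mem_ball, hw] at hz
    exact lt_irrefl _ hz
  have hdist : ∀ x, dist (T.symm x) 0 = R⁻¹ * dist x c := by
    intro x
    rw [hTs, dist_zero_right, norm_mul, norm_inv, Complex.norm_real, Real.norm_eq_abs,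
      abs_of_pos hR, dist_eq_norm]
  have hTball : ∀ x ∈ ball c R, T.symm x ∈ ball (0 : ℂ) 1 := by
    intro x hx
    rw [mem_ball, hdist, inv_mul_lt_iff₀ hR, mul_one]
    exact hx
  let a : ℂ ≃ₜ ℂ := T.symm.trans (a₁.trans T)
  have ha : ∀ x, a x = T (a₁ (T.symm x)) := fun x => rfl
  have hkey : ∀ x ∈ ball c R, h (a x) = ψ (E (T.symm x)) := by
    intro x hx
    have h1 := hTball x hx
    rw [ha, ha₁ _ (ball_subset_closedBall h1), ← hv, hFv _ (hEball _ h1), v.apply_symm_apply]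
  have hev : ∀ x ∈ ball c R, (fun y => h (a y)) =ᶠ[𝓝 x] fun y => ψ (E ((R : ℂ)⁻¹ * (y - c))) := by
    intro x hx
    filter_upwards [isOpen_ball.mem_nhds hx] with y hy
    rw [hkey y hy, hTs]
  refine ⟨a, ?_, ?_, ?_⟩
  · intro x hx
    rw [ha, ha₂, T.apply_symm_apply]
    rw [hdist, le_inv_mul_iff₀ hR, mul_one]
    exact hx
  · intro x hx
    rw [(hev x hx).differentiableAt_iff]
    have h1 := hTball x hx
    have h2 := hEball _ h1
    rw [hTs] at h1 h2
    have h3 : DifferentiableAt ℝ ψ (E ((R : ℂ)⁻¹ * (x - c))) :=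
      (hc.dψ.differentiableAt (isOpen_ball.mem_nhds h2)).restrictScalars ℝ
    have h4 : DifferentiableAt ℝ (fun y : ℂ => (R : ℂ)⁻¹ * (y - c)) x := by fun_prop
    exact h3.comp x ((hEd _ h1).comp x h4)
  · have h0 : T.symm c = 0 := by rw [hTs, sub_self, mul_zero]
    have hcb : c ∈ ball c R := mem_ball_self hR
    have h2 : E 0 ∈ ball (0 : ℂ) 1 := hEball 0 (mem_ball_self one_pos)
    have hne : deriv ψ (E 0) ≠ 0 := by
      refine deriv_ne_zero_of_inj isOpen_ball hc.dψ ?_ h2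
      intro z hz w hw hzw
      rw [← hc.l z hz, ← hc.l w hw, hzw]
    have hψ : HasDerivAt ψ (deriv ψ (E 0)) (E 0) :=
      (hc.dψ.differentiableAt (isOpen_ball.mem_nhds h2)).hasDerivAt
    have hRi : (R : ℂ)⁻¹ ≠ 0 := inv_ne_zero hRc
    let M1 : ℂ ≃L[ℝ] ℂ := (ContinuousLinearEquiv.smulLeft
      (R₁ := ℂ) (Units.mk0 (R : ℂ)⁻¹ hRi)).restrictScalars ℝ
    let M2 : ℂ ≃L[ℝ] ℂ := (ContinuousLinearEquiv.smulLeft
      (R₁ := ℂ) (Units.mk0 (deriv ψ (E 0)) hne)).restrictScalars ℝ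
    refine ⟨(M1.trans L₀).trans M2, ?_⟩
    refine HasFDerivAt.congr_of_eventuallyEq ?_ (hev c hcb)
    have e0 : (R : ℂ)⁻¹ * (c - c) = 0 := by rw [sub_self, mul_zero]
    have g1 : HasFDerivAt (fun y : ℂ => (R : ℂ)⁻¹ * (y - c)) (M1 : ℂ →L[ℝ] ℂ) c := by
      have i1 : HasFDerivAt (fun y : ℂ => y - c) (ContinuousLinearMap.id ℝ ℂ) c :=
        hasFDerivAt_sub_const c
      have i2 : HasFDerivAt (fun y : ℂ => M1 y) (M1 : ℂ →L[ℝ] ℂ) (c - c) := M1.hasFDerivAt
      exact HasFDerivAt.comp (f := fun y : ℂ => y - c) c i2 i1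
    have g2 : HasFDerivAt (fun y : ℂ => E ((R : ℂ)⁻¹ * (y - c)))
        ((L₀ : ℂ →L[ℝ] ℂ).comp (M1 : ℂ →L[ℝ] ℂ)) c := by
      have : HasFDerivAt E (L₀ : ℂ →L[ℝ] ℂ) ((R : ℂ)⁻¹ * (c - c)) := by
        rw [e0]
        exact hL₀
      exact this.comp c g1
    have g3 : HasFDerivAt ψ (M2 : ℂ →L[ℝ] ℂ) (E ((R : ℂ)⁻¹ * (c - c))) := by
      rw [e0]
      have h5 := hψ.hasFDerivAt.restrictScalars ℝ
      have h6 : (M2 : ℂ →L[ℝ] ℂ) = (ContinuousLinearMap.toSpanSingleton ℂ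
          (deriv ψ (E 0))).restrictScalars ℝ := by
        refine ContinuousLinearMap.ext fun x => ?_
        show deriv ψ (E 0) * x = x • deriv ψ (E 0)
        rw [smul_eq_mul, mul_comm]
      rw [h6]
      exact h5
    exact g3.comp c g2

end Pool.Agent.W_cd67d3_h45
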