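import Pool.Agent.W_cd67d3_h45.Defs

/-!
# Equicontinuity of bounded families of holomorphic functions
-/

namespace Pool.Agent.W_cd67d3_h45

open Metric Set Filter Topology

lemma MontelA_bound {U : Set ℂ} {z0 : ℂ} {r : ℝ} (hr : 0 < r)
    (hU : closedBall z0 (2 * r) ⊆ U) (hUo : IsOpen U) {f : ℂ → ℂ} (hf : DifferentiableOn ℂ f U)
    (hb : ∀ z ∈ U, ‖f z‖ ≤ 1) {z : ℂ} (hz : z ∈ ball z0 r) : ‖deriv f z‖ ≤ 1 / r := by
  have hsub : closedBall z r ⊆ U := by
    refine Subset.trans ?_ hU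
    intro w hw
    rw [mem_closedBall] at hw ⊢
    rw [mem_ball] at hz
    have := dist_triangle w z z0
    linarith
  refine Complex.norm_deriv_le_of_forall_mem_sphere_norm_le hr ?_ ?_
  · have h1 : DifferentiableOn ℂ f (closedBall z r) := hf.mono hsub
    exact h1.diffContOnCl_ball Subset.rfl
  · intro w hw
    exact hb w (hsub (sphere_subset_closedBall hw))

/-- Proof. `closedBall z0 (2 * r) ⊆ U`; on `ball z0 r` the derivative is bounded by `1 / r` (Cauchy:
`Complex.norm_deriv_le_of_forall_mem_sphere_norm_le`), and the mean value inequality on the convex set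
`ball z0 δ`, `δ = min r (ε r / 2)`. -/
theorem montel_equi {U : Set ℂ} (hU : IsOpen U) {z0 : ℂ} (hz0 : z0 ∈ U) (ε : ℝ) (hε : 0 < ε) :
    ∃ δ > 0, ball z0 δ ⊆ U ∧ ∀ f : ℂ → ℂ, DifferentiableOn ℂ f U → (∀ z ∈ U, ‖f z‖ ≤ 1) →
      ∀ z ∈ ball z0 δ, ∀ w ∈ ball z0 δ, ‖f z - f w‖ ≤ ε := by
  obtain ⟨ρ, hρ, hρU⟩ := (nhds_basis_closedBall.mem_iff).1 (hU.mem_nhds hz0)
  set r := ρ / 2 with hr
  have hr0 : 0 < r := by positivity
  have h2r : closedBall z0 (2 * r) ⊆ U := by
    have : 2 * r = ρ := by rw [hr]; ring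
    rw [this]
    exact hρU
  have hδ : 0 < min r (ε * r / 2) := lt_min hr0 (by positivity)
  refine ⟨min r (ε * r / 2), hδ, ?_, ?_⟩
  · refine Subset.trans (ball_subset_ball (min_le_left _ _)) (Subset.trans ?_ h2r)
    refine Subset.trans ball_subset_closedBall (closedBall_subset_closedBall ?_)
    linarith
  · intro f hf hb z hz w hw
    have h1 : ball z0 (min r (ε * r / 2)) ⊆ ball z0 r := ball_subset_ball (min_le_left _ _)
    have hbU : ball z0 r ⊆ U := by
      refine Subset.trans ball_subset_closedBall (Subset.trans ?_ h2r)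
      exact closedBall_subset_closedBall (by linarith)
    have h2 := Convex.norm_image_sub_le_of_norm_deriv_le (f := f) (C := 1 / r)
      (s := ball z0 (min r (ε * r / 2))) (x := w) (y := z)
      (fun x hx => hf.differentiableAt (hU.mem_nhds (hbU (h1 hx))))
      (fun x hx => MontelA_bound hr0 h2r hU hf hb (h1 hx)) (convex_ball _ _) hw hz
    refine h2.trans ?_
    have h3 : ‖z - w‖ ≤ 2 * (ε * r / 2) := by
      rw [← dist_eq_norm]
      rw [mem_ball] at hz hw
      have h4 := dist_triangle z z0 w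
      rw [dist_comm z0 w] at h4
      have h5 := min_le_right r (ε * r / 2)
      linarith
    calc 1 / r * ‖z - w‖ ≤ 1 / r * (2 * (ε * r / 2)) :=
          mul_le_mul_of_nonneg_left h3 (by positivity)
      _ = ε := by field_simp

/-- The same for the derivative at the point: it is bounded. -/
theorem deriv_bdd {U : Set ℂ} (hU : IsOpen U) {z0 : ℂ} (hz0 : z0 ∈ U) :
    ∃ C : ℝ, ∀ f : ℂ → ℂ, DifferentiableOn ℂ f U → (∀ z ∈ U, ‖f z‖ ≤ 1) → ‖deriv f z0‖ ≤ C := by
  obtain ⟨ρ, hρ, hρU⟩ := (nhds_basis_closedBall.mem_iff).1 (hU.mem_nhds hz0)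
  have hr0 : 0 < ρ / 2 := by positivity
  have h2r : closedBall z0 (2 * (ρ / 2)) ⊆ U := by
    have : 2 * (ρ / 2) = ρ := by ring
    rw [this]
    exact hρU
  exact ⟨1 / (ρ / 2), fun f hf hb => MontelA_bound hr0 h2r hU hf hb (mem_ball_self hr0)⟩

end Pool.Agent.W_cd67d3_h45
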