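import Pool.Agent.W_cd67d3_h45.ColorStep

/-!
# The step for finitely many families of disjoint discs
-/

namespace Pool.Agent.W_cd67d3_h45

open Metric Set Filter Topology

/-- Proof. Induction on `l`, with `color_step` for the head applied to `g ∘ A'`, where `A'` belongs to
`g` and the tail: `A = A' ∘ A''`. A bad point `x` of `g ∘ A' ∘ A''` has `R ≤ dist x c` for all `c` in
the head, and `τ'' x`, at distance at most `η` from `x`, is bad for `g ∘ A'`. -/
theorem multi_step (g : ℂ ≃ₜ ℂ) {R η : ℝ} (hη : 0 < η) (hR : η < R) (l : List (Finset ℂ))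
    (hl : ∀ C ∈ l, ∀ c ∈ C, ∀ c' ∈ C, c ≠ c' → 2 * (R + η) < dist c c') :
    ∃ A : ℂ ≃ₜ ℂ, (∀ x, (∀ C ∈ l, ∀ c ∈ C, R + η ≤ dist x c) → A x = x) ∧
      (∀ x, dist (A x) x ≤ l.length * (2 * (R + η))) ∧
      ∀ x, ¬ DifferentiableAt ℝ (fun y => g (A y)) x →
        (∃ x₀, dist x x₀ ≤ l.length * η ∧ ¬ DifferentiableAt ℝ (fun y => g y) x₀) ∧
        ∀ C ∈ l, ∃ y, dist x y ≤ l.length * η ∧ ∀ c ∈ C, R ≤ dist y c := by
  induction l with
  | nil =>
    refine ⟨Homeomorph.refl ℂ, fun x _ => rfl, fun x => ?_, fun x hx => ⟨⟨x, ?_, hx⟩, ?_⟩⟩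
    · simp
    · simp
    · intro C hC
      exact absurd hC List.not_mem_nil
  | cons C l ih =>
    obtain ⟨A', h1, h2, h3⟩ := ih (fun C' hC' => hl C' (List.mem_cons_of_mem _ hC'))
    obtain ⟨A'', τ, k1, k2, k3, k4⟩ := color_step (A'.trans g) C hη hR (hl C List.mem_cons_self)
    have hlen : (((C :: l).length : ℕ) : ℝ) = (l.length : ℝ) + 1 := by
      rw [List.length_cons]; push_cast; ring
    have hl0 : (0 : ℝ) ≤ (l.length : ℝ) := Nat.cast_nonneg _
    refine ⟨A''.trans A', fun x hx => ?_, fun x => ?_, fun x hx => ?_⟩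
    · have e1 : A'' x = x := (k1 x (fun c hc => hx C List.mem_cons_self c hc)).1
      have e2 : A' x = x := h1 x (fun C' hC' => hx C' (List.mem_cons_of_mem _ hC'))
      show A' (A'' x) = x
      rw [e1, e2]
    · show dist (A' (A'' x)) x ≤ _
      have e1 := dist_triangle (A' (A'' x)) (A'' x) x
      have e2 := h2 (A'' x)
      have e3 := k2 x
      rw [hlen]
      linarith
    · have hx' : ¬ DifferentiableAt ℝ (fun y => (A'.trans g) (A'' y)) x := hx
      obtain ⟨m1, m2⟩ := k4 x hx'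
      have m2' : ¬ DifferentiableAt ℝ (fun y => g (A' y)) (τ x) := m2
      obtain ⟨⟨x₀, n1, n2⟩, n3⟩ := h3 (τ x) m2'
      have e0 : dist x (τ x) ≤ η := by rw [dist_comm]; exact k3 x
      refine ⟨⟨x₀, ?_, n2⟩, fun C' hC' => ?_⟩
      · have e1 := dist_triangle x (τ x) x₀
        rw [hlen]
        linarith
      · rcases List.mem_cons.1 hC' with h | h
        · subst h
          refine ⟨x, ?_, m1⟩
          rw [dist_self, hlen]
          positivity
        · obtain ⟨y, p1, p2⟩ := n3 C' h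
          refine ⟨y, ?_, p2⟩
          have e1 := dist_triangle x (τ x) y
          rw [hlen]
          linarith

end Pool.Agent.W_cd67d3_h45
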