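import Pool.Agent.W_cd67d3_h45.AreaD
import Pool.Agent.W_cd67d3_h45.BallCompl

/-!
# The oscillation of `v⁻¹ ψ` near the boundary
-/

namespace Pool.Agent.W_cd67d3_h45

open Metric Set Filter Topology MeasureTheory

theorem Osc_delta {A ε : ℝ} (hA : 0 ≤ A) (hε : 0 < ε) :
    ∃ δ : ℝ, 0 < δ ∧ δ < 1 / 4 ∧ 2 * Real.pi * A / Real.log (1 / δ) < ε ^ 2 := by
  have hpi := Real.pi_pos
  have hq : 0 ≤ 2 * Real.pi * A / ε ^ 2 := by positivity
  refine ⟨min (1 / 8) (Real.exp (-(2 * Real.pi * A / ε ^ 2 + 1))), ?_, ?_, ?_⟩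
  · exact lt_min (by norm_num) (Real.exp_pos _)
  · exact lt_of_le_of_lt (min_le_left _ _) (by norm_num)
  · have h0 : 0 < min (1 / 8) (Real.exp (-(2 * Real.pi * A / ε ^ 2 + 1))) :=
      lt_min (by norm_num) (Real.exp_pos _)
    have h1 : Real.log (min (1 / 8) (Real.exp (-(2 * Real.pi * A / ε ^ 2 + 1)))) ≤
        -(2 * Real.pi * A / ε ^ 2 + 1) := by
      have h2 := Real.log_le_log h0 (min_le_right (1 / 8 : ℝ)
        (Real.exp (-(2 * Real.pi * A / ε ^ 2 + 1))))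
      rwa [Real.log_exp] at h2
    rw [one_div, Real.log_inv, div_lt_iff₀ (by linarith)]
    have h3 : ε ^ 2 * (2 * Real.pi * A / ε ^ 2 + 1) ≤
        ε ^ 2 * -Real.log (min (1 / 8) (Real.exp (-(2 * Real.pi * A / ε ^ 2 + 1)))) :=
      mul_le_mul_of_nonneg_left (by linarith) (by positivity)
    have h4 : ε ^ 2 * (2 * Real.pi * A / ε ^ 2 + 1) = 2 * Real.pi * A + ε ^ 2 := by
      have h5 : ε ≠ 0 := hε.ne'
      field_simp
    have h6 : 0 < ε ^ 2 := by positivity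
    linarith

/-- Proof. Put `u z = v.symm (ψ z)`, a homeomorphism of the unit ball onto itself with inverse
`φ ∘ v` (continuous on the ball, as `φ` is continuous on `v '' ball 0 1`). Let
`d0 = dist (u 0) (u (1/2)) > 0` (`u` is injective) and
`η' = min (η / 2) (min (d0 / 5) (1 / 2))`. `v.symm` is uniformly continuous on the compact set
`v '' closedBall 0 1`: there is `ε > 0` such that points of this set at distance at most `ε` have
images at distance at most `η'`. The area of `ψ '' ball 0 1 = v '' ball 0 1` is at most some real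
`A ≥ 0` (bounded set). Choose `δ < 1 / 4` with `2 π A / log (1 / δ) ≤ ε ^ 2`. Let `ζ` be given and let
`r` in `(δ, √δ)` be as in `length_area`, `c` = the set of `z` in the ball with `dist z ζ = r`; it
contains `z0 = (1 - r) ζ`. All `dist (ψ z) (ψ z0) ≤ ε` for `z` in `c`, so
`u '' c ⊆ closedBall (u z0) η'`. The set `Y = ball 0 1 \ closedBall (u z0) η'` is preconnected
(`ball_compl_preconn`); its image `Z` under `φ ∘ v` is a preconnected subset of the ball, disjoint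
from `c`. So `Z` lies in `{z | dist z ζ < r}` or in `{z | r < dist z ζ}`. As `dist (u 0) (u (1/2)) > 2 η'`,
one of `u 0`, `u (1/2)` is in `Y`, so one of `0`, `1 / 2` is in `Z`; both have distance at least
`1 / 2 > √δ > r` from `ζ`; so `Z ⊆ {z | r < dist z ζ}`. Hence each `z` of the ball with
`dist z ζ < δ < r` is not in `Z`, i.e. `u z ∈ closedBall (u z0) η'`. -/
theorem osc {v : ℂ ≃ₜ ℂ} {ψ φ : ℂ → ℂ} (h : Conf v ψ φ) {η : ℝ} (hη : 0 < η) :
    ∃ δ > 0, ∀ ζ ∈ sphere (0 : ℂ) 1, ∀ z ∈ ball (0 : ℂ) 1, ∀ z' ∈ ball (0 : ℂ) 1,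
      dist z ζ < δ → dist z' ζ < δ → dist (v.symm (ψ z)) (v.symm (ψ z')) ≤ η := by
  have hmu : ∀ z ∈ ball (0 : ℂ) 1, v.symm (ψ z) ∈ ball (0 : ℂ) 1 := by
    intro z hz
    obtain ⟨w, hw, hwz⟩ := h.mψ hz
    rw [← hwz, v.symm_apply_apply]
    exact hw
  have hK : ∀ z ∈ ball (0 : ℂ) 1, ψ z ∈ v '' closedBall (0 : ℂ) 1 := fun z hz =>
    image_mono ball_subset_closedBall (h.mψ hz)
  have hinj : InjOn ψ (ball 0 1) := by
    intro z hz z' hz' he
    rw [← h.l z hz, he, h.l z' hz']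
  have hgu : ∀ z ∈ ball (0 : ℂ) 1, φ (v (v.symm (ψ z))) = z := by
    intro z hz
    rw [v.apply_symm_apply, h.l z hz]
  have hug : ∀ w ∈ ball (0 : ℂ) 1, v.symm (ψ (φ (v w))) = w := by
    intro w hw
    rw [h.r (v w) (mem_image_of_mem v hw), v.symm_apply_apply]
  have hmg : ∀ w ∈ ball (0 : ℂ) 1, φ (v w) ∈ ball (0 : ℂ) 1 := fun w hw =>
    h.mφ (mem_image_of_mem v hw)
  have hcg : ContinuousOn (fun w => φ (v w)) (ball 0 1) :=
    h.dφ.continuousOn.comp v.continuous.continuousOn (fun w hw => mem_image_of_mem v hw)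
  have m0 : (0 : ℂ) ∈ ball (0 : ℂ) 1 := mem_ball_self one_pos
  have m1 : (1 / 2 : ℂ) ∈ ball (0 : ℂ) 1 := by
    rw [mem_ball_zero_iff]
    norm_num
  set d0 : ℝ := dist (v.symm (ψ 0)) (v.symm (ψ (1 / 2))) with hd0
  have hd0pos : 0 < d0 := by
    rw [hd0, dist_pos]
    intro he
    have h1 := hinj m0 m1 (v.symm.injective he)
    norm_num at h1
  set η' : ℝ := min (η / 2) (min (d0 / 5) (1 / 2)) with hη'
  have hη0 : 0 < η' := lt_min (by linarith) (lt_min (by linarith) (by norm_num))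
  have hη1 : η' < 1 := by
    have h1 : η' ≤ 1 / 2 := (min_le_right _ _).trans (min_le_right _ _)
    linarith
  have hη2 : 2 * η' < d0 := by
    have h1 : η' ≤ d0 / 5 := (min_le_right _ _).trans (min_le_left _ _)
    linarith
  have hη3 : 2 * η' ≤ η := by
    have h1 : η' ≤ η / 2 := min_le_left _ _
    linarith
  have hcomp : IsCompact (v '' closedBall (0 : ℂ) 1) :=
    (isCompact_closedBall _ _).image v.continuous
  have huc := hcomp.uniformContinuousOn_of_continuous (f := fun w => v.symm w)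
    v.symm.continuous.continuousOn
  rw [Metric.uniformContinuousOn_iff] at huc
  obtain ⟨ε, hε, huc⟩ := huc η' hη0
  have hfin : volume (v '' closedBall (0 : ℂ) 1) ≠ ⊤ := hcomp.measure_lt_top.ne
  have hA : volume (ψ '' ball 0 1) ≤
      ENNReal.ofReal (volume (v '' closedBall (0 : ℂ) 1)).toReal := by
    rw [ENNReal.ofReal_toReal hfin]
    refine measure_mono ?_
    rintro _ ⟨z, hz, rfl⟩
    exact hK z hz
  obtain ⟨δ, hδ0, hδ1, hδ2⟩ := Osc_delta
    (ENNReal.toReal_nonneg (a := volume (v '' closedBall (0 : ℂ) 1))) hε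
  refine ⟨δ, hδ0, fun ζ hζ => ?_⟩
  obtain ⟨r, hr, hlen⟩ := length_area h.dψ hinj ENNReal.toReal_nonneg hA hδ0 (by linarith) hζ
  have hsq : √δ < 1 / 2 := by
    rw [Real.sqrt_lt' (by norm_num)]
    linarith
  have hr0 : 0 < r := hδ0.trans hr.1
  have hr1 : r < 1 / 2 := hr.2.trans hsq
  have hζn : ‖ζ‖ = 1 := by rwa [mem_sphere_zero_iff_norm] at hζ
  set z0 : ℂ := ((1 - r : ℝ) : ℂ) * ζ with hz0
  have hz0b : z0 ∈ ball (0 : ℂ) 1 := by
    rw [mem_ball_zero_iff, hz0, norm_mul, hζn, mul_one, Complex.norm_real, Real.norm_eq_abs,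
      abs_of_pos (by linarith)]
    linarith
  have hz0d : dist z0 ζ = r := by
    have h1 : z0 - ζ = ((-r : ℝ) : ℂ) * ζ := by
      rw [hz0]
      push_cast
      ring
    rw [dist_eq_norm, h1, norm_mul, hζn, mul_one, Complex.norm_real, Real.norm_eq_abs, abs_neg,
      abs_of_pos hr0]
  have hcirc : ∀ z ∈ ball (0 : ℂ) 1, dist z ζ = r →
      v.symm (ψ z) ∈ closedBall (v.symm (ψ z0)) η' := by
    intro z hz hzr
    have h1 := hlen z hz z0 hz0b hzr hz0d
    have h2 : dist (ψ z) (ψ z0) ^ 2 < ε ^ 2 := h1.trans_lt hδ2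
    have h3 : dist (ψ z) (ψ z0) < ε := lt_of_pow_lt_pow_left₀ 2 hε.le h2
    exact (huc _ (hK z hz) _ (hK z0 hz0b) h3).le
  have hYc := ball_compl_preconn (v.symm (ψ z0)) hη0 hη1
  have hZc : IsPreconnected ((fun w => φ (v w)) ''
      (ball (0 : ℂ) 1 \ closedBall (v.symm (ψ z0)) η')) :=
    hYc.image _ (hcg.mono diff_subset)
  have hmemZ : ∀ z ∈ ball (0 : ℂ) 1, v.symm (ψ z) ∉ closedBall (v.symm (ψ z0)) η' →
      z ∈ (fun w => φ (v w)) '' (ball (0 : ℂ) 1 \ closedBall (v.symm (ψ z0)) η') := by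
    intro z hz hzn
    exact ⟨v.symm (ψ z), ⟨hmu z hz, hzn⟩, hgu z hz⟩
  have hZr : ∀ z ∈ (fun w => φ (v w)) '' (ball (0 : ℂ) 1 \ closedBall (v.symm (ψ z0)) η'),
      dist z ζ ≠ r := by
    rintro _ ⟨w, hw, rfl⟩ he
    have h1 := hcirc _ (hmg w hw.1) he
    rw [hug w hw.1] at h1
    exact hw.2 h1
  obtain ⟨z1, hz1, hz1r⟩ : ∃ z1 ∈ (fun w => φ (v w)) ''
      (ball (0 : ℂ) 1 \ closedBall (v.symm (ψ z0)) η'), r < dist z1 ζ := by
    by_cases h0 : v.symm (ψ 0) ∈ closedBall (v.symm (ψ z0)) η'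
    · by_cases h1 : v.symm (ψ (1 / 2)) ∈ closedBall (v.symm (ψ z0)) η'
      · exfalso
        rw [mem_closedBall] at h0 h1
        have h2 := dist_triangle_right (v.symm (ψ 0)) (v.symm (ψ (1 / 2))) (v.symm (ψ z0))
        linarith
      · refine ⟨1 / 2, hmemZ _ m1 h1, ?_⟩
        have h2 : ‖ζ‖ ≤ ‖(1 / 2 : ℂ)‖ + dist (1 / 2 : ℂ) ζ := by
          have h3 := norm_sub_le (1 / 2 : ℂ) ((1 / 2 : ℂ) - ζ)
          rw [sub_sub_cancel] at h3
          rwa [dist_eq_norm]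
        rw [hζn] at h2
        have h4 : ‖(1 / 2 : ℂ)‖ = 1 / 2 := by norm_num
        linarith
    · refine ⟨0, hmemZ _ m0 h0, ?_⟩
      rw [dist_zero_left, hζn]
      linarith
  have hall : ∀ z ∈ (fun w => φ (v w)) '' (ball (0 : ℂ) 1 \ closedBall (v.symm (ψ z0)) η'),
      r < dist z ζ := by
    intro z hz
    by_contra hcon
    have h1 : dist z ζ < r := lt_of_le_of_ne (not_lt.1 hcon) (hZr z hz)
    have h2 := hZc.intermediate_value hz hz1 (f := fun z => dist z ζ)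
      (Continuous.continuousOn (by fun_prop))
    obtain ⟨z2, hz2, hz2r⟩ := h2 ⟨h1.le, hz1r.le⟩
    exact hZr z2 hz2 hz2r
  have hfinal : ∀ z ∈ ball (0 : ℂ) 1, dist z ζ < δ →
      v.symm (ψ z) ∈ closedBall (v.symm (ψ z0)) η' := by
    intro z hz hzd
    by_contra hcon
    have h1 := hall z (hmemZ z hz hcon)
    linarith [hr.1]
  intro z hz z' hz' hd hd'
  have h1 := hfinal z hz hd
  have h2 := hfinal z' hz' hd'
  rw [mem_closedBall] at h1 h2
  have h3 := dist_triangle_right (v.symm (ψ z)) (v.symm (ψ z')) (v.symm (ψ z0))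
  linarith

end Pool.Agent.W_cd67d3_h45
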