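import Pool.Agent.W_cd67d3_h45.Defs

/-!
# Flat profiles
-/

namespace Pool.Agent.W_cd67d3_h45

open Metric Set Filter Topology

/-- The double primitive of `min (κ x) (1 / η)`. -/
theorem Profile_aux {κ : ℝ → ℝ} (hκ : ∀ s, 0 < s → 0 < κ s) (hm : MonotoneOn κ (Ioi 0))
    {η : ℝ} (hη : 0 < η) :
    ∃ P : ℝ → ℝ, Differentiable ℝ P ∧ (∀ s ≤ 0, P s = 0) ∧
      (∀ s t, 0 ≤ s → s < t → P s < P t) ∧ (∀ s, 0 ≤ s → s ≤ η → P s ≤ s) ∧
      (∀ s, 0 < s → s ≤ 1 → P s ≤ κ s) := by
  set m : ℝ → ℝ := fun x => if 0 < x then min (κ x) (1 / η) else 0 with hmdef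
  have hc : 0 < 1 / η := by positivity
  have hm0 : ∀ x, x ≤ 0 → m x = 0 := fun x hx => if_neg (not_lt.2 hx)
  have hm1 : ∀ x, 0 < x → m x = min (κ x) (1 / η) := fun x hx => if_pos hx
  have hmono : Monotone m := by
    intro x y hxy
    by_cases hx : 0 < x
    · have hy : 0 < y := hx.trans_le hxy
      rw [hm1 x hx, hm1 y hy]
      exact min_le_min (hm hx hy hxy) le_rfl
    · rw [hm0 x (not_lt.1 hx)]
      by_cases hy : 0 < y
      · rw [hm1 y hy]
        exact (lt_min (hκ y hy) hc).le
      · rw [hm0 y (not_lt.1 hy)]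
  have hint : ∀ a b, IntervalIntegrable m MeasureTheory.volume a b :=
    fun a b => hmono.intervalIntegrable
  set K : ℝ → ℝ := fun t => ∫ x in (0 : ℝ)..t, m x with hK
  have hKc : Continuous K := intervalIntegral.continuous_primitive hint 0
  have hK0 : ∀ t ≤ 0, K t = 0 := by
    intro t ht
    simp only [hK]
    rw [intervalIntegral.integral_congr (g := fun _ => (0 : ℝ))]
    · simp
    · intro x hx
      rw [uIcc_of_ge ht] at hx
      exact hm0 x hx.2
  have hKpos : ∀ t, 0 < t → 0 < K t := fun t ht =>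
    intervalIntegral.intervalIntegral_pos_of_pos_on (hint 0 t)
      (fun x hx => by
        rw [hm1 x hx.1]
        exact lt_min (hκ x hx.1) hc) ht
  have hKle : ∀ t, 0 ≤ t → K t ≤ t * m t := by
    intro t ht
    calc K t ≤ ∫ _x in (0 : ℝ)..t, m t :=
          intervalIntegral.integral_mono_on ht (hint 0 t) intervalIntegrable_const
            (fun x hx => hmono hx.2)
      _ = t * m t := by simp
  have hKi : ∀ a b, IntervalIntegrable K MeasureTheory.volume a b :=
    fun a b => hKc.intervalIntegrable a b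
  set P : ℝ → ℝ := fun s => ∫ t in (0 : ℝ)..s, K t with hP
  have hPd : ∀ s, HasDerivAt P (K s) s := fun s =>
    (hKc.integral_hasStrictDerivAt 0 s).hasDerivAt
  have hKnn : ∀ t, 0 ≤ K t := by
    intro t
    rcases le_or_gt t 0 with h | h
    · rw [hK0 t h]
    · exact (hKpos t h).le
  have hKmono : ∀ s t, 0 ≤ s → s ≤ t → K s ≤ K t := by
    intro s t hs hst
    have h1 : K t - K s = ∫ x in s..t, m x :=
      intervalIntegral.integral_interval_sub_left (hint 0 t) (hint 0 s)
    have h2 : 0 ≤ ∫ x in s..t, m x := by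
      refine intervalIntegral.integral_nonneg hst fun x hx => ?_
      rw [← hm0 0 le_rfl]
      exact hmono (hs.trans hx.1)
    linarith
  have hPle : ∀ s, 0 ≤ s → P s ≤ s * (s * m s) := by
    intro s hs
    calc P s ≤ ∫ _x in (0 : ℝ)..s, K s :=
          intervalIntegral.integral_mono_on hs (hKi 0 s) intervalIntegrable_const
            (fun x hx => hKmono x s hx.1 hx.2)
      _ = s * K s := by simp
      _ ≤ s * (s * m s) := mul_le_mul_of_nonneg_left (hKle s hs) hs
  refine ⟨P, fun s => (hPd s).differentiableAt, ?_, ?_, ?_, ?_⟩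
  · intro s hs
    simp only [hP]
    rw [intervalIntegral.integral_congr (g := fun _ => (0 : ℝ))]
    · simp
    · intro x hx
      rw [uIcc_of_ge hs] at hx
      exact hK0 x hx.2
  · intro s t hs hst
    have h1 : P t - P s = ∫ x in s..t, K x :=
      intervalIntegral.integral_interval_sub_left (hKi 0 t) (hKi 0 s)
    have h2 : 0 < ∫ x in s..t, K x :=
      intervalIntegral.intervalIntegral_pos_of_pos_on (hKi s t)
        (fun x hx => hKpos x (hs.trans_lt hx.1)) hst
    linarith
  · intro s hs hsη
    rcases hs.eq_or_lt with rfl | hs'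
    · have := hPle 0 le_rfl
      simpa using this
    · have h1 := hPle s hs
      have h2 : m s ≤ 1 / η := by
        rw [hm1 s hs']
        exact min_le_right _ _
      have h3 : s * m s ≤ 1 := by
        calc s * m s ≤ s * (1 / η) := mul_le_mul_of_nonneg_left h2 hs
          _ ≤ η * (1 / η) := mul_le_mul_of_nonneg_right hsη hc.le
          _ = 1 := by field_simp
      calc P s ≤ s * (s * m s) := h1
        _ ≤ s * 1 := mul_le_mul_of_nonneg_left h3 hs
        _ = s := mul_one s
  · intro s hs hs1
    have h1 := hPle s hs.le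
    have h2 : m s ≤ κ s := by
      rw [hm1 s hs]
      exact min_le_left _ _
    have h3 : 0 ≤ m s := by
      rw [hm1 s hs]
      exact (lt_min (hκ s hs) hc).le
    calc P s ≤ s * (s * m s) := h1
      _ = (s * s) * m s := by ring
      _ ≤ 1 * m s := mul_le_mul_of_nonneg_right (by nlinarith) h3
      _ ≤ κ s := by rw [one_mul]; exact h2

/-- Proof. Let `T 0 = 1`, `T (n + 1) = min (T n / 2) (κ (η / 2 ^ (n + 2)) / η)`, positive numbers
decreasing to `0`, and `c n = T n - T (n + 1) > 0`, so that the sum of `c m` over `m ≥ n` is `T n`. Let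
`φ x = Real.smoothTransition (2 * x - 1)` (`0` for `x ≤ 1 / 2`, `1` for `x ≥ 1`),
`w s = ∑' n, c n * φ (2 ^ n * s / η)` and `p s = s * w |s|`. `w` is monotone on `[0, ∞)`, `0 < w s ≤ 1` for
`s > 0`, `w s = 1` for `s ≥ η`; near each `s > 0` all but finitely many terms are constant, so `w` is
differentiable there; for `s ≤ η / 2 ^ N` the terms with `n < N` and `2 ^ n * s / η ≤ 1 / 2` vanish:
if `η / 2 ^ (N + 1) < s ≤ η / 2 ^ N`, `N ≥ 1`, then `w s ≤ T N ≤ κ (η / 2 ^ (N + 1)) / η ≤ κ s / η`,
so `w s → 0` as `s → 0` (so `p` is differentiable at `0`, with derivative `0`) and `p s ≤ κ s` for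
`0 < s ≤ η / 2`. -/
theorem exists_profile {κ : ℝ → ℝ} (hκ : ∀ s, 0 < s → 0 < κ s) (hm : MonotoneOn κ (Ioi 0))
    {η : ℝ} (hη : 0 < η) :
    ∃ p : ℝ → ℝ, Differentiable ℝ p ∧ StrictMono p ∧ (∀ s, p (-s) = -p s) ∧
      (∀ s, η ≤ |s| → p s = s) ∧ (∀ s, |p s| ≤ |s|) ∧ ∃ s0 > 0, ∀ s ∈ Ioc 0 s0, p s ≤ κ s := by
  obtain ⟨P, hPd, hP0, hPs, hPle, hPκ⟩ := Profile_aux hκ hm hη
  set φ : ℝ → ℝ := fun s => Real.smoothTransition (2 * s / η - 1) with hφ
  have hφd : Differentiable ℝ φ := by
    have h1 : ContDiff ℝ 1 φ := by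
      refine Real.smoothTransition.contDiff.comp ?_
      exact ((contDiff_const.mul contDiff_id).div_const _).sub contDiff_const
    exact h1.differentiable (by norm_num)
  have hφ0 : ∀ s, s ≤ η / 2 → φ s = 0 := by
    intro s hs
    refine Real.smoothTransition.zero_of_nonpos ?_
    rw [sub_nonpos, div_le_one hη]
    linarith
  have hφ1 : ∀ s, η ≤ s → φ s = 1 := by
    intro s hs
    refine Real.smoothTransition.one_of_one_le ?_
    have h1 : 2 ≤ 2 * s / η := by
      rw [le_div_iff₀ hη]
      linarith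
    linarith
  have hφn : ∀ s, 0 ≤ φ s := fun s => Real.smoothTransition.nonneg _
  have hφl : ∀ s, φ s ≤ 1 := fun s => Real.smoothTransition.le_one _
  have hφm : ∀ s t, s ≤ t → φ s ≤ φ t := by
    intro s t hst
    refine Real.smoothTransition.monotone ?_
    have h1 : 2 * s / η ≤ 2 * t / η := by
      rw [div_le_div_iff_of_pos_right hη]
      linarith
    linarith
  set q : ℝ → ℝ := fun s => (1 - φ s) * P s + φ s * s with hq
  have hqd : Differentiable ℝ q :=
    (((differentiable_const 1).sub hφd).mul hPd).add (hφd.mul differentiable_id)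
  have hq0 : ∀ s ≤ 0, q s = 0 := by
    intro s hs
    simp only [hq]
    rw [hP0 s hs, hφ0 s (by linarith)]
    ring
  have hq1 : ∀ s, η ≤ s → q s = s := by
    intro s hs
    simp only [hq]
    rw [hφ1 s hs]
    ring
  have hPnn : ∀ s, 0 ≤ s → 0 ≤ P s := by
    intro s hs
    rcases hs.eq_or_lt with rfl | hs'
    · rw [hP0 0 le_rfl]
    · have := hPs 0 s le_rfl hs'
      rw [hP0 0 le_rfl] at this
      exact this.le
  have hqle : ∀ s, 0 ≤ s → q s ≤ s := by
    intro s hs
    rcases le_total η s with h | h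
    · rw [hq1 s h]
    · have h1 := hPle s hs h
      have h2 := mul_le_mul_of_nonneg_left h1 (sub_nonneg.2 (hφl s))
      simp only [hq]
      linarith
  have hqnn : ∀ s, 0 ≤ s → 0 ≤ q s := by
    intro s hs
    simp only [hq]
    exact add_nonneg (mul_nonneg (sub_nonneg.2 (hφl s)) (hPnn s hs)) (mul_nonneg (hφn s) hs)
  have hqs : ∀ s t, 0 ≤ s → s < t → q s < q t := by
    intro s t hs hst
    rcases le_total η t with h | h
    · rw [hq1 t h]
      exact (hqle s hs).trans_lt hst
    · have h1 := hPle t (hs.trans hst.le) h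
      have h2 := hPs s t hs hst
      have h3 := hφm s t hst.le
      have h4 := hφn s
      have h5 := hφl s
      simp only [hq]
      have h6 : (1 - φ s) * P s + φ s * s < (1 - φ s) * P t + φ s * t := by
        rcases h5.lt_or_eq with h7 | h7
        · have h8 := mul_lt_mul_of_pos_left h2 (sub_pos.2 h7)
          have h9 := mul_le_mul_of_nonneg_left hst.le h4
          linarith
        · rw [h7]
          linarith
      have h7 : (1 - φ s) * P t + φ s * t ≤ (1 - φ t) * P t + φ t * t := by
        have h8 := mul_nonneg (sub_nonneg.2 h3) (sub_nonneg.2 h1)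
        linarith
      linarith
  have hqm : ∀ s t, s ≤ t → q s ≤ q t := by
    intro s t hst
    rcases hst.eq_or_lt with rfl | hst'
    · exact le_rfl
    · rcases le_total 0 s with h | h
      · exact (hqs s t h hst').le
      · rw [hq0 s h]
        rcases le_total 0 t with h' | h'
        · exact hqnn t h'
        · rw [hq0 t h']
  refine ⟨fun s => q s - q (-s), hqd.sub (hqd.comp differentiable_neg), ?_, ?_, ?_, ?_, ?_⟩
  · intro s t hst
    have h1 := hqm s t hst.le
    have h2 := hqm (-t) (-s) (by linarith)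
    have h3 : q s < q t ∨ q (-t) < q (-s) := by
      rcases lt_or_ge 0 t with h | h
      · left
        rcases le_total 0 s with h' | h'
        · exact hqs s t h' hst
        · have h4 := hqs 0 t le_rfl h
          rwa [hq0 s h', ← hq0 0 le_rfl]
      · right
        exact hqs (-t) (-s) (by linarith) (by linarith)
    change q s - q (-s) < q t - q (-t)
    rcases h3 with h3 | h3 <;> linarith
  · intro s
    simp only [neg_neg]
    ring
  · intro s hs
    rcases le_total 0 s with h | h
    · rw [abs_of_nonneg h] at hs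
      simp only
      rw [hq1 s hs, hq0 (-s) (by linarith), sub_zero]
    · rw [abs_of_nonpos h] at hs
      simp only
      rw [hq1 (-s) hs, hq0 s h]
      ring
  · intro s
    rcases le_total 0 s with h | h
    · simp only
      rw [hq0 (-s) (by linarith), sub_zero, abs_of_nonneg h, abs_of_nonneg (hqnn s h)]
      exact hqle s h
    · simp only
      rw [hq0 s h, zero_sub, abs_neg, abs_of_nonpos h, abs_of_nonneg (hqnn (-s) (by linarith))]
      exact hqle (-s) (by linarith)
  · refine ⟨min (η / 2) 1, by positivity, ?_⟩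
    rintro s ⟨hs, hs1⟩
    have h1 : s ≤ η / 2 := hs1.trans (min_le_left _ _)
    have h2 : s ≤ 1 := hs1.trans (min_le_right _ _)
    simp only
    rw [hq0 (-s) (by linarith), sub_zero]
    simp only [hq]
    rw [hφ0 s h1]
    have h3 := hPκ s hs h2
    linarith

end Pool.Agent.W_cd67d3_h45
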