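import Pool.Agent.W_cd67d3_h45.Extremal
import Pool.Agent.W_cd67d3_h45.KoebeStep
import Pool.Agent.W_cd67d3_h45.InvDiff

/-!
# Riemann's mapping theorem for bounded simply connected domains
-/

namespace Pool.Agent.W_cd67d3_h45

open Metric Set Filter Topology

/-- Proof. `f0 z = (z - a) / B` with `B` large is in the family; take the extremal function
(`exists_extremal`); if it omits a value `w` of the disc, `koebe_step` gives a contradiction. -/
theorem riemann_map {U : Set ℂ} (hU : IsOpen U) (hs : IsSimplyConnected U)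
    (hb : Bornology.IsBounded U) {a : ℂ} (ha : a ∈ U) :
    ∃ f, Fam U a f ∧ f '' U = ball 0 1 := by
  obtain ⟨B, hB0, hB⟩ : ∃ B : ℝ, 0 < B ∧ U ⊆ ball a B := by
    obtain ⟨B, hB⟩ := hb.subset_ball a
    exact ⟨max B 1, lt_max_of_lt_right one_pos, hB.trans (ball_subset_ball (le_max_left _ _))⟩
  have hBc : (B : ℂ) ≠ 0 := by
    rw [Ne, Complex.ofReal_eq_zero]
    exact hB0.ne'
  have hder : ∀ z : ℂ, HasDerivAt (fun z : ℂ => (z - a) / (B : ℂ)) (1 / (B : ℂ)) z := fun z =>
    ((hasDerivAt_id z).sub_const a).div_const (B : ℂ)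
  have hf0 : Fam U a (fun z : ℂ => (z - a) / (B : ℂ)) := by
    refine ⟨fun z _ => (hder z).differentiableAt.differentiableWithinAt, fun z hz => ?_,
      fun z _ w _ h => ?_, ?_⟩
    · have h1 : ‖z - a‖ < B := by
        have := hB hz
        rwa [mem_ball, dist_eq_norm] at this
      rw [mem_ball_zero_iff, norm_div, Complex.norm_real, Real.norm_of_nonneg hB0.le,
        div_lt_one hB0]
      exact h1
    · have h1 : z - a = w - a := by
        have h2 : (z - a) / (B : ℂ) = (w - a) / (B : ℂ) := h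
        rwa [div_left_inj' hBc] at h2
      exact sub_left_inj.1 h1
    · simp
  have hd0 : deriv (fun z : ℂ => (z - a) / (B : ℂ)) a ≠ 0 := by
    rw [(hder a).deriv]
    exact one_div_ne_zero hBc
  obtain ⟨f, hf, hfd, hmax⟩ := exists_extremal hU
    hs.isPathConnected.isConnected.isPreconnected ha hf0 hd0
  refine ⟨f, hf, Set.Subset.antisymm (Set.image_subset_iff.2 hf.m) fun w hw => ?_⟩
  by_contra hwf
  obtain ⟨g, hg, hlt⟩ := koebe_step hU hs ha hf hfd hw hwf
  exact absurd (hmax g hg) (not_le.2 hlt)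

/-- Proof. `U = v '' ball 0 1` is open, bounded (`closedBall` is compact) and simply connected
(`Homeomorph.isSimplyConnected_image`; the ball is convex, hence contractible, hence simply
connected). Take `φ` = the Riemann map, `ψ` = its inverse (`inverse_diff`). -/
theorem exists_conf (v : ℂ ≃ₜ ℂ) : ∃ ψ φ, Conf v ψ φ := by
  have hU : IsOpen (v '' ball (0 : ℂ) 1) := v.isOpenMap _ isOpen_ball
  have hball : IsSimplyConnected (ball (0 : ℂ) 1) := by
    have h1 : ContractibleSpace (ball (0 : ℂ) 1) := contractibleSpace_ball one_pos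
    have h2 : SimplyConnectedSpace (ball (0 : ℂ) 1) := inferInstance
    exact h2
  have hs : IsSimplyConnected (v '' ball (0 : ℂ) 1) := v.isSimplyConnected_image.2 hball
  have hb : Bornology.IsBounded (v '' ball (0 : ℂ) 1) :=
    ((isCompact_closedBall (0 : ℂ) 1).image v.continuous).isBounded.subset
      (Set.image_mono ball_subset_closedBall)
  have ha : v 0 ∈ v '' ball (0 : ℂ) 1 := ⟨0, mem_ball_self one_pos, rfl⟩
  obtain ⟨φ, hφ, hφU⟩ := riemann_map hU hs hb ha
  obtain ⟨-, ψ, hψ, hψφ⟩ := inverse_diff hU hφ.d hφ.i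
  rw [hφU] at hψ
  refine ⟨ψ, φ, hψ, hφ.d, ?_, hφ.m, ?_, hψφ⟩
  · intro w hw
    rw [← hφU] at hw
    obtain ⟨z, hz, rfl⟩ := hw
    rw [hψφ z hz]
    exact hz
  · intro w hw
    rw [← hφU] at hw
    obtain ⟨z, hz, rfl⟩ := hw
    rw [hψφ z hz]

end Pool.Agent.W_cd67d3_h45
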