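import Pool.Agent.W_cd67d3_h45.Defs

/-!
# The two sectors of a disc
-/

namespace Pool.Agent.W_cd67d3_h45

open Metric Set Filter Topology

theorem Sector_norm (t : ℝ) : ‖Complex.exp (t * Complex.I)‖ = 1 := Complex.norm_exp_ofReal_mul_I t

theorem Sector_arg {r t : ℝ} (hr : 0 < r) (ht : t ∈ Ioc (-Real.pi) Real.pi) :
    Complex.arg (r * Complex.exp (t * Complex.I)) = t := by
  rw [Complex.exp_mul_I]
  exact Complex.arg_mul_cos_add_sin_mul_I hr ht

theorem Sector_conn {α : ℂ} (hα : α ∈ sphere (0 : ℂ) 1) :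
    IsPreconnected (sphere (0 : ℂ) 1 \ {α}) := by
  have hα1 : ‖α‖ = 1 := by simpa using hα
  have hα0 : α ≠ 0 := by
    intro h
    rw [h] at hα1
    simp at hα1
  have e : sphere (0 : ℂ) 1 \ {α} =
      (fun t : ℝ => -α * Complex.exp (t * Complex.I)) '' Ioo (-Real.pi) Real.pi := by
    ext x
    constructor
    · rintro ⟨hx, hxα⟩
      have hx1 : ‖x‖ = 1 := by simpa using hx
      set y := x / (-α) with hy
      have hy1 : ‖y‖ = 1 := by
        rw [hy, norm_div, norm_neg, hx1, hα1, div_one]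
      have hxy : x = -α * y := by
        rw [hy]
        field_simp
      have hy2 : y ≠ -1 := by
        intro h
        apply hxα
        rw [mem_singleton_iff, hxy, h]
        ring
      refine ⟨Complex.arg y, ⟨Complex.neg_pi_lt_arg y, ?_⟩, ?_⟩
      · refine lt_of_le_of_ne (Complex.arg_le_pi y) ?_
        intro h
        apply hy2
        have h1 := Complex.norm_mul_exp_arg_mul_I y
        rw [hy1, h, Complex.exp_pi_mul_I] at h1
        rw [← h1]
        simp
      · beta_reduce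
        have h1 := Complex.norm_mul_exp_arg_mul_I y
        rw [hy1] at h1
        simp only [Complex.ofReal_one, one_mul] at h1
        rw [h1, hxy]
    · rintro ⟨t, ht, rfl⟩
      refine ⟨?_, ?_⟩
      · rw [mem_sphere_zero_iff_norm, norm_mul, norm_neg, hα1, Sector_norm, one_mul]
      · intro h
        rw [mem_singleton_iff] at h
        have h1 : Complex.exp (t * Complex.I) = -1 := by
          have h2 : -α * Complex.exp (t * Complex.I) = -α * (-1) := by
            refine h.trans ?_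
            ring
          exact mul_left_cancel₀ (neg_ne_zero.2 hα0) h2
        have h3 := Sector_arg one_pos (Ioo_subset_Ioc_self ht)
        rw [Complex.ofReal_one, one_mul, h1, Complex.arg_neg_one] at h3
        exact ht.2.ne h3.symm
  rw [e]
  refine isPreconnected_Ioo.image _ ?_
  fun_prop

/-- The abstract version. -/
theorem Sector_aux {F G : ℂ → ℂ} (hF : ContinuousOn F (closedBall 0 1))
    (mF : MapsTo F (ball 0 1) (ball 0 1)) (hG : ContinuousOn G (ball 0 1))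
    (mG : MapsTo G (ball 0 1) (ball 0 1)) (hl : ∀ z ∈ ball (0 : ℂ) 1, G (F z) = z)
    (hr : ∀ w ∈ ball (0 : ℂ) 1, F (G w) = w) (hs : MapsTo F (sphere 0 1) (sphere 0 1))
    {α : ℂ} (hα : α ∈ sphere (0 : ℂ) 1) {S₁ S₂ R : Set ℂ} (h1 : IsOpen S₁) (h2 : IsOpen S₂)
    (hd : Disjoint S₁ S₂) (hR : IsCompact R) (hRb : R ⊆ closedBall 0 1)
    (hRα : ∀ z ∈ R, z ∈ sphere (0 : ℂ) 1 → F z = α)
    (hc : ∀ z ∈ ball (0 : ℂ) 1, z ∈ S₁ ∨ z ∈ S₂ ∨ z ∈ R) :
    (∀ ζ ∈ sphere (0 : ℂ) 1, (∀ r : ℝ, 0 < r → r < 1 → r • ζ ∈ S₁) → F ζ = α) ∨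
      (∀ ζ ∈ sphere (0 : ℂ) 1, (∀ r : ℝ, 0 < r → r < 1 → r • ζ ∈ S₂) → F ζ = α) := by
  have hT1 : IsOpen (ball (0 : ℂ) 1 ∩ G ⁻¹' S₁) := hG.isOpen_inter_preimage isOpen_ball h1
  have hT2 : IsOpen (ball (0 : ℂ) 1 ∩ G ⁻¹' S₂) := hG.isOpen_inter_preimage isOpen_ball h2
  set T₁ := ball (0 : ℂ) 1 ∩ G ⁻¹' S₁ with hT1d
  set T₂ := ball (0 : ℂ) 1 ∩ G ⁻¹' S₂ with hT2d
  have hTd : Disjoint T₁ T₂ := by
    rw [Set.disjoint_left]
    rintro w ⟨-, hw1⟩ ⟨-, hw2⟩
    exact Set.disjoint_left.1 hd hw1 hw2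
  have hFR : IsClosed (F '' R) := (hR.image_of_continuousOn (hF.mono hRb)).isClosed
  have hFRα : ∀ p ∈ F '' R, p ∈ sphere (0 : ℂ) 1 → p = α := by
    rintro _ ⟨z, hz, rfl⟩ hp
    have hz1 := hRb hz
    rw [mem_closedBall_zero_iff] at hz1
    rcases hz1.lt_or_eq with h | h
    · have := mF (mem_ball_zero_iff.2 h)
      rw [mem_ball_zero_iff] at this
      rw [mem_sphere_zero_iff_norm] at hp
      linarith
    · exact hRα z hz (mem_sphere_zero_iff_norm.2 h)
  have hcov : ∀ w ∈ ball (0 : ℂ) 1, w ∉ F '' R → w ∈ T₁ ∪ T₂ := by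
    intro w hw hwR
    rcases hc (G w) (mG hw) with h | h | h
    · exact Or.inl ⟨hw, h⟩
    · exact Or.inr ⟨hw, h⟩
    · exact absurd ⟨G w, h, hr w hw⟩ hwR
  -- the open sets `O j`
  have hOopen : ∀ T : Set ℂ, IsOpen {b : ℂ | ∃ ρ > 0, ball b ρ ∩ ball (0 : ℂ) 1 ⊆ T} := by
    intro T
    rw [Metric.isOpen_iff]
    rintro b ⟨ρ, hρ, hb⟩
    refine ⟨ρ / 2, by positivity, fun b' hb' => ⟨ρ / 2, by positivity, ?_⟩⟩
    rintro x ⟨hx1, hx2⟩
    refine hb ⟨?_, hx2⟩
    rw [mem_ball] at *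
    calc dist x b ≤ dist x b' + dist b' b := dist_triangle _ _ _
      _ < ρ / 2 + ρ / 2 := by linarith
      _ = ρ := by ring
  have hcover : sphere (0 : ℂ) 1 \ {α} ⊆ {b : ℂ | ∃ ρ > 0, ball b ρ ∩ ball (0 : ℂ) 1 ⊆ T₁} ∪
      {b : ℂ | ∃ ρ > 0, ball b ρ ∩ ball (0 : ℂ) 1 ⊆ T₂} := by
    rintro b ⟨hb, hbα⟩
    have hbR : b ∈ (F '' R)ᶜ := by
      intro h
      exact hbα (hFRα b h hb)
    obtain ⟨ρ, hρ, hball⟩ := Metric.isOpen_iff.1 hFR.isOpen_compl b hbR
    have hV : IsPreconnected (ball b ρ ∩ ball (0 : ℂ) 1) :=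
      ((convex_ball b ρ).inter (convex_ball 0 1)).isPreconnected
    have hVT : ball b ρ ∩ ball (0 : ℂ) 1 ⊆ T₁ ∪ T₂ := fun x hx => hcov x hx.2 (hball hx.1)
    rcases hV.subset_or_subset hT1 hT2 hTd hVT with h | h
    · exact Or.inl ⟨ρ, hρ, h⟩
    · exact Or.inr ⟨ρ, hρ, h⟩
  -- a point of the sphere is not in both
  have hnot : ∀ b ∈ sphere (0 : ℂ) 1, (∃ ρ > 0, ball b ρ ∩ ball (0 : ℂ) 1 ⊆ T₁) →
      (∃ ρ > 0, ball b ρ ∩ ball (0 : ℂ) 1 ⊆ T₂) → False := by
    rintro b hb ⟨ρ₁, hρ₁, hb₁⟩ ⟨ρ₂, hρ₂, hb₂⟩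
    have hcl : b ∈ closure (ball (0 : ℂ) 1) := by
      rw [closure_ball (0 : ℂ) one_ne_zero]
      exact sphere_subset_closedBall hb
    obtain ⟨x, hx1, hx2⟩ := Metric.mem_closure_iff.1 hcl (min ρ₁ ρ₂) (lt_min hρ₁ hρ₂)
    rw [dist_comm] at hx2
    exact Set.disjoint_left.1 hTd (hb₁ ⟨mem_ball.2 (hx2.trans_le (min_le_left _ _)), hx1⟩)
      (hb₂ ⟨mem_ball.2 (hx2.trans_le (min_le_right _ _)), hx1⟩)
  -- the conclusion for one of the two
  have key : ∀ S T T' : Set ℂ, (∀ z ∈ ball (0 : ℂ) 1, z ∈ S → F z ∈ T) → Disjoint T T' →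
      (sphere (0 : ℂ) 1 \ {α} ⊆ {b : ℂ | ∃ ρ > 0, ball b ρ ∩ ball (0 : ℂ) 1 ⊆ T'}) →
      ∀ ζ ∈ sphere (0 : ℂ) 1, (∀ r : ℝ, 0 < r → r < 1 → r • ζ ∈ S) → F ζ = α := by
    intro S T T' hST hTT hsub ζ hζ hζS
    by_contra hne
    obtain ⟨ρ, hρ, hb⟩ := hsub ⟨hs hζ, hne⟩
    have hcw : ContinuousWithinAt F (closedBall 0 1) ζ := hF ζ (sphere_subset_closedBall hζ)
    obtain ⟨δ, hδ, hFδ⟩ := Metric.continuousWithinAt_iff.1 hcw ρ hρ
    have hζ1 : ‖ζ‖ = 1 := by simpa using hζ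
    set r : ℝ := max (1 / 2) (1 - δ / 2) with hr'
    have hr0 : 0 < r := lt_of_lt_of_le (by norm_num) (le_max_left _ _)
    have hr1 : r < 1 := max_lt (by norm_num) (by linarith)
    have hr2 : 1 - r ≤ δ / 2 := by
      have := le_max_right (1 / 2) (1 - δ / 2)
      linarith
    have hz : r • ζ ∈ ball (0 : ℂ) 1 := by
      rw [mem_ball_zero_iff, norm_smul, hζ1, mul_one, Real.norm_eq_abs, abs_of_pos hr0]
      exact hr1
    have hdist : dist (r • ζ) ζ < δ := by
      have e : r • ζ - ζ = (r - 1) • ζ := by rw [sub_smul, one_smul]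
      rw [dist_eq_norm, e, norm_smul, hζ1, mul_one, Real.norm_eq_abs, abs_of_neg (by linarith)]
      linarith
    have hF1 := hFδ (ball_subset_closedBall hz) hdist
    exact Set.disjoint_left.1 hTT (hST _ hz (hζS r hr0 hr1)) (hb ⟨mem_ball.2 hF1, mF hz⟩)
  have hST1 : ∀ z ∈ ball (0 : ℂ) 1, z ∈ S₁ → F z ∈ T₁ := by
    intro z hz hz1
    refine ⟨mF hz, ?_⟩
    rw [mem_preimage, hl z hz]
    exact hz1
  have hST2 : ∀ z ∈ ball (0 : ℂ) 1, z ∈ S₂ → F z ∈ T₂ := by
    intro z hz hz1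
    refine ⟨mF hz, ?_⟩
    rw [mem_preimage, hl z hz]
    exact hz1
  by_cases h : ((sphere (0 : ℂ) 1 \ {α}) ∩
      {b : ℂ | ∃ ρ > 0, ball b ρ ∩ ball (0 : ℂ) 1 ⊆ T₁}).Nonempty
  · by_cases h' : ((sphere (0 : ℂ) 1 \ {α}) ∩
      {b : ℂ | ∃ ρ > 0, ball b ρ ∩ ball (0 : ℂ) 1 ⊆ T₂}).Nonempty
    · obtain ⟨b, hb, hb1, hb2⟩ := Sector_conn hα _ _ (hOopen T₁) (hOopen T₂) hcover h h'
      exact absurd (hnot b hb.1 hb1 hb2) id
    · right
      refine key S₂ T₂ T₁ hST2 hTd.symm ?_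
      intro b hb
      rcases hcover hb with h1 | h1
      · exact h1
      · exact absurd ⟨b, hb, h1⟩ h'
  · left
    refine key S₁ T₁ T₂ hST1 hTd ?_
    intro b hb
    rcases hcover hb with h1 | h1
    · exact absurd ⟨b, hb, h1⟩ h
    · exact h1

/-- Let `F` be continuous on the closed disc, a homeomorphism of the open disc onto itself (with
inverse `G`), and map the circle into the circle. If two points `-1` and `exp (β I)` of the circle have
the same image, then `F` is constant on one of the two arcs between them.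

Proof. Let `α = F (-1) = F (exp (β I))`, `R` = the union of the radii `{-r | 0 ≤ r ≤ 1}` and
`{r * exp (β I) | 0 ≤ r ≤ 1}`, and `S₁`, `S₂` = the sets of the points `z` of the ball in
`Complex.slitPlane` with `arg z < β`, `β < arg z` respectively: disjoint open sets (`arg` is continuous on
the slit plane) with union `ball 0 1 \ R`. `T j = F '' S j = G ⁻¹' (S j) ∩ ball 0 1` are disjoint open
sets with union `ball 0 1 \ F '' R`, and `F '' R` is compact and meets the sphere only in `α`. Let `O j` be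
the set of the points `b` of `sphere 0 1 \ {α}` such that for some `ρ > 0` the set
`ball b ρ ∩ ball 0 1` is contained in `T j`. For `b` in `sphere 0 1 \ {α}` take `ρ` with `ball b ρ`
disjoint from `F '' R`; `ball b ρ ∩ ball 0 1` is convex, hence preconnected, and contained in the union of the
disjoint open sets `T₁`, `T₂`, so it is contained in one of them. The sets `O₁`, `O₂` are relatively open,
disjoint (`ball b ρ ∩ ball 0 1` is not empty), and cover `sphere 0 1 \ {α}`, which is preconnected. So one of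
them is empty, say `O j`. Then no point of `sphere 0 1 \ {α}` is in the closure of `T j`. For `t` in the open
arc belonging to `S j`, the point `F (exp (t I))` is in the sphere and is the limit of
`F (r * exp (t I))`, `r → 1`, points of `T j`; so it is `α`. -/
theorem sector {F G : ℂ → ℂ} (hF : ContinuousOn F (closedBall 0 1))
    (mF : MapsTo F (ball 0 1) (ball 0 1)) (hG : ContinuousOn G (ball 0 1))
    (mG : MapsTo G (ball 0 1) (ball 0 1)) (hl : ∀ z ∈ ball (0 : ℂ) 1, G (F z) = z)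
    (hr : ∀ w ∈ ball (0 : ℂ) 1, F (G w) = w) (hs : MapsTo F (sphere 0 1) (sphere 0 1))
    {β : ℝ} (hβ : β ∈ Ioo (-Real.pi) Real.pi)
    (he : F (Complex.exp (β * Complex.I)) = F (-1)) :
    (∀ t ∈ Ioo (-Real.pi) β, F (Complex.exp (t * Complex.I)) = F (-1)) ∨
      (∀ t ∈ Ioo β Real.pi, F (Complex.exp (t * Complex.I)) = F (-1)) := by
  have hα : F (-1) ∈ sphere (0 : ℂ) 1 := hs (by simp)
  have harg : ContinuousOn Complex.arg Complex.slitPlane := fun z hz =>
    (Complex.continuousAt_arg hz).continuousWithinAt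
  have h1 : IsOpen (Complex.slitPlane ∩ Complex.arg ⁻¹' (Iio β)) :=
    harg.isOpen_inter_preimage Complex.isOpen_slitPlane isOpen_Iio
  have h2 : IsOpen (Complex.slitPlane ∩ Complex.arg ⁻¹' (Ioi β)) :=
    harg.isOpen_inter_preimage Complex.isOpen_slitPlane isOpen_Ioi
  have hd : Disjoint (Complex.slitPlane ∩ Complex.arg ⁻¹' (Iio β))
      (Complex.slitPlane ∩ Complex.arg ⁻¹' (Ioi β)) := by
    rw [Set.disjoint_left]
    rintro z ⟨-, hz1⟩ ⟨-, hz2⟩
    have h3 : Complex.arg z < β := hz1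
    have h4 : β < Complex.arg z := hz2
    exact lt_asymm h3 h4
  set R : Set ℂ := (fun r : ℝ => -(r : ℂ)) '' Icc 0 1 ∪
    (fun r : ℝ => (r : ℂ) * Complex.exp (β * Complex.I)) '' Icc 0 1 with hR
  have hRc : IsCompact R :=
    (isCompact_Icc.image (by fun_prop)).union (isCompact_Icc.image (by fun_prop))
  have hRb : R ⊆ closedBall 0 1 := by
    rintro z (⟨r, hr, rfl⟩ | ⟨r, hr, rfl⟩)
    · rw [mem_closedBall_zero_iff, norm_neg, Complex.norm_real, Real.norm_eq_abs,
        abs_of_nonneg hr.1]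
      exact hr.2
    · rw [mem_closedBall_zero_iff, norm_mul, Sector_norm, mul_one, Complex.norm_real,
        Real.norm_eq_abs, abs_of_nonneg hr.1]
      exact hr.2
  have hRα : ∀ z ∈ R, z ∈ sphere (0 : ℂ) 1 → F z = F (-1) := by
    rintro z (⟨r, hr, rfl⟩ | ⟨r, hr, rfl⟩) hz
    · rw [mem_sphere_zero_iff_norm, norm_neg, Complex.norm_real, Real.norm_eq_abs,
        abs_of_nonneg hr.1] at hz
      rw [hz]
      simp
    · rw [mem_sphere_zero_iff_norm, norm_mul, Sector_norm, mul_one, Complex.norm_real,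
        Real.norm_eq_abs, abs_of_nonneg hr.1] at hz
      rw [hz]
      simp [he]
  have hc : ∀ z ∈ ball (0 : ℂ) 1, z ∈ Complex.slitPlane ∩ Complex.arg ⁻¹' (Iio β) ∨
      z ∈ Complex.slitPlane ∩ Complex.arg ⁻¹' (Ioi β) ∨ z ∈ R := by
    intro z hz
    rw [mem_ball_zero_iff] at hz
    by_cases hsl : z ∈ Complex.slitPlane
    · rcases lt_trichotomy (Complex.arg z) β with h | h | h
      · exact Or.inl ⟨hsl, h⟩
      · right; right; right
        refine ⟨‖z‖, ⟨norm_nonneg _, hz.le⟩, ?_⟩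
        beta_reduce
        rw [← h]
        exact Complex.norm_mul_exp_arg_mul_I z
      · exact Or.inr (Or.inl ⟨hsl, h⟩)
    · right; right; left
      rw [Complex.mem_slitPlane_iff, not_or, not_lt, not_not] at hsl
      refine ⟨-z.re, ⟨by linarith [hsl.1], ?_⟩, ?_⟩
      · have := Complex.abs_re_le_norm z
        rw [abs_of_nonpos hsl.1] at this
        linarith
      · beta_reduce
        apply Complex.ext
        · simp
        · simp [hsl.2]
  have hmem : ∀ t ∈ Ioo (-Real.pi) Real.pi, ∀ r : ℝ, 0 < r →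
      r • Complex.exp (t * Complex.I) ∈ Complex.slitPlane ∧
      Complex.arg (r • Complex.exp (t * Complex.I)) = t := by
    intro t ht r hr
    have e : r • Complex.exp (t * Complex.I) = r * Complex.exp (t * Complex.I) :=
      Complex.real_smul
    rw [e]
    have h3 := Sector_arg hr (Ioo_subset_Ioc_self ht)
    refine ⟨?_, h3⟩
    rw [Complex.mem_slitPlane_iff_arg, h3]
    refine ⟨ht.2.ne, ?_⟩
    exact mul_ne_zero (Complex.ofReal_ne_zero.2 hr.ne') (Complex.exp_ne_zero _)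
  rcases Sector_aux hF mF hG mG hl hr hs hα h1 h2 hd hRc hRb hRα hc with h | h
  · left
    intro t ht
    refine h _ (mem_sphere_zero_iff_norm.2 (Sector_norm t)) ?_
    intro r hr0 _
    have h3 := hmem t ⟨ht.1, ht.2.trans hβ.2⟩ r hr0
    refine ⟨h3.1, ?_⟩
    rw [mem_preimage, h3.2]
    exact ht.2
  · right
    intro t ht
    refine h _ (mem_sphere_zero_iff_norm.2 (Sector_norm t)) ?_
    intro r hr0 _
    have h3 := hmem t ⟨hβ.1.trans ht.1, ht.2⟩ r hr0
    refine ⟨h3.1, ?_⟩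
    rw [mem_preimage, h3.2]
    exact ht.1

end Pool.Agent.W_cd67d3_h45
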