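import Pool.Agent.W_cd67d3_h45.LemmaM
import Pool.Agent.W_cd67d3_h45.Flatten

/-!
# One step: making a homeomorphism differentiable in a disc without new bad points outside
-/

namespace Pool.Agent.W_cd67d3_h45

open Metric Set Filter Topology

/-- Proof. `a` from `lemma_M g c R`, `τ` from `flatten` for `f = g ∘ a`, and `A = a ∘ τ`
(`A = τ.trans a`). For `dist x c < R`: `τ` is differentiable at `x` and `g ∘ a` at `τ x`
(`dist (τ x) c < R`). For `R < dist x c`: `R < dist (τ x) c`, `a` is the identity near `τ x`, so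
`g ∘ a` is differentiable at `τ x` if `g` is. For `dist x c = R`: `τ x = x`, `g ∘ a = g` on the sphere, so
if `g` is differentiable at `x` then `g ∘ a` has the derivative `fderiv ℝ g x` within the sphere, and
`g ∘ a ∘ τ` is differentiable at `x` by `flatten`. For `R + η ≤ dist x c`: `τ x = x` and `a x = x`. -/
theorem step (g : ℂ ≃ₜ ℂ) (c : ℂ) {R η : ℝ} (hη : 0 < η) (hR : η < R) :
    ∃ A τ : ℂ ≃ₜ ℂ, (∀ x, R + η ≤ dist x c → A x = x) ∧ (∀ x, R + η ≤ dist x c → τ x = x) ∧
      (∀ x, dist (τ x) x ≤ η) ∧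
      (∀ x, dist x c < R → DifferentiableAt ℝ (fun y => g (A y)) x) ∧
      (∀ x, R ≤ dist x c → DifferentiableAt ℝ (fun y => g y) (τ x) →
        DifferentiableAt ℝ (fun y => g (A y)) x) := by
  obtain ⟨a, ha1, ha2, _⟩ := lemma_M g c (hη.trans hR)
  obtain ⟨τ, hτd, hτ1, hτ2, hτ3, hτ4, hτ5, hτ6⟩ :=
    flatten (fun x => g (a x)) (g.continuous.comp a.continuous) c hη hR
  have hout : ∀ x, R + η ≤ dist x c → τ x = x := fun x hx =>
    hτ1 x (le_trans (by linarith) (le_abs_self _))
  refine ⟨τ.trans a, τ, ?_, hout, hτ2, ?_, ?_⟩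
  · intro x hx
    rw [Homeomorph.trans_apply, hout x hx, ha1 x (by linarith)]
  · intro x hx
    have h1 : DifferentiableAt ℝ (fun y => g (a y)) (τ x) := ha2 (τ x) (mem_ball.2 (hτ4 x hx))
    exact h1.comp x (hτd x)
  · intro x hx hd
    rcases hx.lt_or_eq with hlt | heq
    · have h1 : (fun y => g (a y)) =ᶠ[𝓝 (τ x)] fun y => g y := by
        have h2 : {y : ℂ | R < dist y c} ∈ 𝓝 (τ x) :=
          (isOpen_lt continuous_const (continuous_id.dist continuous_const)).mem_nhds (hτ5 x hlt)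
        filter_upwards [h2] with y hy
        rw [ha1 y (le_of_lt hy)]
      have h3 : DifferentiableAt ℝ (fun y => g (a y)) (τ x) := h1.differentiableAt_iff.2 hd
      exact h3.comp x (hτd x)
    · rw [hτ3 x heq.symm] at hd
      refine hτ6 x (fderiv ℝ (fun y => g y) x) heq.symm ?_
      refine hd.hasFDerivAt.hasFDerivWithinAt.congr (fun y hy => ?_) ?_
      · rw [ha1 y (mem_sphere.1 hy).ge]
      · rw [ha1 x hx]

end Pool.Agent.W_cd67d3_h45
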